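import Pool.Agent.Strip051.ProbeMain
import Mathlib.MeasureTheory.Integral.IntervalIntegral.AbsolutelyContinuousFun
import Mathlib.MeasureTheory.Integral.DivergenceTheorem

/-! # Fronts are absolutely continuous -/

namespace Pool.Agent.Strip051

open Pool.Agent.StripNear Pool.Agent.StripSquare Set MeasureTheory

theorem ac_of_dist_le {f g F : ℝ → ℝ} {a b : ℝ} (hf : AbsolutelyContinuousOnInterval f a b)
    (hg : AbsolutelyContinuousOnInterval g a b)
    (h : ∀ x y, dist (F x) (F y) ≤ dist (f x) (f y) + dist (g x) (g y)) :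
    AbsolutelyContinuousOnInterval F a b := by
  apply squeeze_zero (fun t ↦ ?_) (fun t ↦ ?_) (by simpa using Filter.Tendsto.add hf hg)
  · exact Finset.sum_nonneg (fun i hi ↦ by positivity)
  · rw [← Finset.sum_add_distrib]
    gcongr
    exact h _ _

theorem ac_max {f g : ℝ → ℝ} {a b : ℝ} (hf : AbsolutelyContinuousOnInterval f a b)
    (hg : AbsolutelyContinuousOnInterval g a b) :
    AbsolutelyContinuousOnInterval (fun z => max (f z) (g z)) a b := by
  apply ac_of_dist_le hf hg
  intro x y
  simp only [Real.dist_eq]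
  have h1 := abs_max_sub_max_le_max (f x) (g x) (f y) (g y)
  have h2 := abs_nonneg (f x - f y)
  have h3 := abs_nonneg (g x - g y)
  have h4 : max |f x - f y| |g x - g y| ≤ |f x - f y| + |g x - g y| :=
    max_le (by linarith) (by linarith)
  linarith

theorem ac_min {f g : ℝ → ℝ} {a b : ℝ} (hf : AbsolutelyContinuousOnInterval f a b)
    (hg : AbsolutelyContinuousOnInterval g a b) :
    AbsolutelyContinuousOnInterval (fun z => min (f z) (g z)) a b := by
  apply ac_of_dist_le hf hg
  intro x y
  simp only [Real.dist_eq]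
  have h1 := abs_min_sub_min_le_max (f x) (g x) (f y) (g y)
  have h2 := abs_nonneg (f x - f y)
  have h3 := abs_nonneg (g x - g y)
  have h4 : max |f x - f y| |g x - g y| ≤ |f x - f y| + |g x - g y| :=
    max_le (by linarith) (by linarith)
  linarith

theorem ac_const (c a b : ℝ) : AbsolutelyContinuousOnInterval (fun _ : ℝ => c) a b := by
  apply LipschitzOnWith.absolutelyContinuousOnInterval (K := 0)
  intro x _ y _
  simp

theorem ac_of_mono {f : ℝ → ℝ} {a b : ℝ} (hab : a ≤ b) (hm : MonotoneOn f (Icc a b))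
    (hc : ContinuousOn f (Icc a b)) {s : Set ℝ} (hs : s.Countable)
    (hd : ∀ x ∈ Ioo a b \ s, DifferentiableAt ℝ f x) :
    AbsolutelyContinuousOnInterval f a b := by
  have hi : IntervalIntegrable (deriv f) volume a b := by
    apply MonotoneOn.intervalIntegrable_deriv
    rwa [uIcc_of_le hab]
  have h1 := hi.absolutelyContinuousOnInterval_intervalIntegral (c := a) (by simp)
  have h2 := h1.fun_add (ac_const (f a) a b)
  have h3 : ∀ z ∈ uIcc a b, f z = (∫ v in a..z, deriv f v) + f a := by
    intro z hz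
    rw [uIcc_of_le hab] at hz
    have h4 := integral_eq_of_hasDerivAt_off_countable_of_le f (deriv f) hz.1 hs
      (hc.mono (Icc_subset_Icc le_rfl hz.2))
      (fun x hx => (hd x ⟨⟨hx.1.1, hx.1.2.trans_le hz.2⟩, hx.2⟩).hasDerivAt)
      (hi.mono_set (by
        rw [uIcc_of_le hab, uIcc_of_le hz.1]
        exact Icc_subset_Icc le_rfl hz.2))
    rw [h4]
    ring
  -- the two functions agree on the interval
  rw [absolutelyContinuousOnInterval_iff] at h2 ⊢
  intro ε hε
  obtain ⟨δ, hδ, h5⟩ := h2 ε hε
  refine ⟨δ, hδ, fun E hE hE2 => ?_⟩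
  have h6 := h5 E hE hE2
  refine lt_of_le_of_lt (le_of_eq ?_) h6
  apply Finset.sum_congr rfl
  intro i hi
  obtain ⟨k1, k2⟩ := hE.1 i hi
  rw [h3 _ k1, h3 _ k2]

theorem ac_sqrt_add (c a b : ℝ) :
    AbsolutelyContinuousOnInterval (fun z => Real.sqrt (c + z)) a b := by
  wlog hab : a ≤ b generalizing a b
  · exact (this b a (le_of_not_ge hab)).symm
  apply ac_of_mono hab (s := {-c})
  · intro x _ y _ hxy
    exact Real.sqrt_le_sqrt (by linarith)
  · fun_prop
  · exact countable_singleton _
  · intro x hx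
    apply DifferentiableAt.sqrt (by fun_prop)
    intro h
    apply hx.2
    rw [mem_singleton_iff]
    linarith

theorem ac_sqrt_sub (c a b : ℝ) :
    AbsolutelyContinuousOnInterval (fun z => Real.sqrt (c - z)) a b := by
  wlog hab : a ≤ b generalizing a b
  · exact (this b a (le_of_not_ge hab)).symm
  have h1 : AbsolutelyContinuousOnInterval (fun z => -Real.sqrt (c - z)) a b := by
    apply ac_of_mono hab (s := {c})
    · intro x _ y _ hxy
      simp only [neg_le_neg_iff]
      exact Real.sqrt_le_sqrt (by linarith)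
    · fun_prop
    · exact countable_singleton _
    · intro x hx
      apply DifferentiableAt.neg
      apply DifferentiableAt.sqrt (by fun_prop)
      intro h
      apply hx.2
      rw [mem_singleton_iff]
      linarith
  simpa using h1.fun_neg

theorem g_split (v : ℝ) : g v = Real.sqrt (1 + v) * Real.sqrt (1 - v) := by
  unfold g
  rcases le_or_gt 0 (1 + v) with h | h
  · rw [← Real.sqrt_mul h]
    congr 1
    ring
  · rw [Real.sqrt_eq_zero_of_nonpos h.le, zero_mul, Real.sqrt_eq_zero_of_nonpos (by nlinarith)]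

theorem ac_g_sub (c a b : ℝ) : AbsolutelyContinuousOnInterval (fun z => g (z - c)) a b := by
  have h1 := (ac_sqrt_add (1 - c) a b).fun_mul (ac_sqrt_sub (1 + c) a b)
  convert h1 using 2 with z
  rw [g_split]
  congr 2 <;> ring

theorem ac_arc (q : Pt) (a b : ℝ) : AbsolutelyContinuousOnInterval (arc q) a b := by
  have h1 := (ac_const q.1 a b).fun_add (ac_g_sub q.2 a b)
  exact h1

theorem ac_sum {ι : Type} (S : Finset ι) (f : ι → ℝ → ℝ) {a b : ℝ}
    (h : ∀ q ∈ S, Filter.Tendsto
      (fun E : ℕ × (ℕ → ℝ × ℝ) ↦ ∑ i ∈ Finset.range E.1, dist (f q (E.2 i).1) (f q (E.2 i).2))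
      (AbsolutelyContinuousOnInterval.totalLengthFilter ⊓
        Filter.principal (AbsolutelyContinuousOnInterval.disjWithin a b)) (nhds 0)) :
    Filter.Tendsto
      (fun E : ℕ × (ℕ → ℝ × ℝ) ↦ ∑ i ∈ Finset.range E.1,
        ∑ q ∈ S, dist (f q (E.2 i).1) (f q (E.2 i).2))
      (AbsolutelyContinuousOnInterval.totalLengthFilter ⊓
        Filter.principal (AbsolutelyContinuousOnInterval.disjWithin a b)) (nhds 0) := by
  have h1 := tendsto_finsetSum S h
  simp only [Finset.sum_const_zero] at h1
  refine h1.congr fun E => ?_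
  rw [Finset.sum_comm]

theorem Fr.ac {S : Finset Pt} {m : ℝ} {f : ℝ → ℝ} (h : Fr {p | p ∈ S} m f) (a b : ℝ) :
    AbsolutelyContinuousOnInterval f a b := by
  have h1 := ac_sum S arc (fun q _ => ac_arc q a b)
  refine squeeze_zero (fun t ↦ ?_) (fun t ↦ ?_) h1
  · exact Finset.sum_nonneg (fun i hi ↦ by positivity)
  · gcongr with i hi
    have key : ∀ x y : ℝ, f x - f y ≤ ∑ q ∈ S, dist (arc q x) (arc q y) := by
      intro x y
      rcases h.eq x with h2 | ⟨q, hq, h2⟩
      · have h3 := h.line y
        have : (0 : ℝ) ≤ ∑ q ∈ S, dist (arc q x) (arc q y) :=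
          Finset.sum_nonneg fun _ _ => dist_nonneg
        linarith
      · have h3 := h.disc q hq y
        have h4 : dist (arc q x) (arc q y) ≤ ∑ q ∈ S, dist (arc q x) (arc q y) :=
          Finset.single_le_sum (f := fun q => dist (arc q x) (arc q y))
            (fun _ _ => dist_nonneg) hq
        rw [Real.dist_eq] at h4
        have h5 := le_abs_self (arc q x - arc q y)
        linarith
    rw [Real.dist_eq, abs_le]
    constructor
    · have := key (t.2 i).2 (t.2 i).1
      simp only [dist_comm (arc _ (t.2 i).2)] at this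
      linarith
    · exact key _ _

end Pool.Agent.Strip051
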