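import Pool.Agent.Strip051.Kern.Exit

/-! # The certificate of the sinusoidal kernel -/

namespace Pool.Agent.Strip051

open Pool.Agent.StripNear Pool.Agent.StripSquare Set MeasureTheory Filter Topology

theorem hR1_zero (j : ℕ) : hR1 j 0 = 0 := by
  have h := hR1_neg j 0
  rw [neg_zero] at h
  linarith

theorem hasDerivAt_diag (H x z : ℝ) :
    HasDerivAt (fun z => fN H x z z) (2 * fNz x z z) z := by
  have e : (fun z => fN H x z z) = fun z => (z + z - H) / (2 * h0) +
      ∑ j ∈ Finset.Icc 1 3, amp j * (hR j 0 * Real.sin (j * fph x z z)) := by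
    funext z
    unfold fN
    rw [sub_self, zero_div]
  rw [e]
  have h1 : HasDerivAt (fun z : ℝ => (z + z - H) / (2 * h0)) (2 * (1 / (2 * h0))) z := by
    have := (((hasDerivAt_id' z).add (hasDerivAt_id' z)).sub_const H).div_const (2 * h0)
    refine this.congr_deriv ?_
    ring
  unfold fNz
  rw [mul_add, Finset.mul_sum]
  refine h1.add (HasDerivAt.fun_sum fun j _ => ?_)
  have h2 : HasDerivAt (fun z => fph x z z) (-(2 * Real.pi / h0)) z := by
    have := ((((hasDerivAt_id' z).add (hasDerivAt_id' z)).div_const h0).const_sub x).const_mul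
      Real.pi
    refine this.congr_deriv ?_
    ring
  have h3 := (((h2.const_mul (j : ℝ)).sin).const_mul (hR j 0)).const_mul (amp j)
  refine h3.congr_deriv ?_
  rw [sub_self, zero_div, hR1_zero]
  ring

theorem continuous_fNz_z (x c : ℝ) : Continuous fun z => fNz x c z := by
  unfold fNz fph
  apply Continuous.add continuous_const
  apply continuous_finsetSum
  intro j _
  have k0 : Continuous fun z : ℝ => hR j ((z - c) / h0) := (continuous_hR j).comp (by fun_prop)
  have k1 : Continuous fun z : ℝ => hR1 j ((z - c) / h0) := (continuous_hR1 j).comp (by fun_prop)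
  fun_prop

theorem continuous_fNz_d (x : ℝ) : Continuous fun z => 2 * fNz x z z := by
  have e : (fun z => 2 * fNz x z z) = fun z => 2 * (1 / (2 * h0) +
    ∑ j ∈ Finset.Icc 1 3, amp j * (hR1 j 0 / h0 * Real.sin (j * fph x z z) -
      j * Real.pi / h0 * hR j 0 * Real.cos (j * fph x z z))) := by
    funext z
    unfold fNz
    rw [sub_self, zero_div]
  rw [e]
  unfold fph
  fun_prop

theorem sum3 (f : ℕ → ℝ) : ∑ j ∈ Finset.Icc 1 3, f j = f 1 + f 2 + f 3 := by
  have : Finset.Icc 1 3 = {1, 2, 3} := rfl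
  rw [this, Finset.sum_insert (by decide), Finset.sum_insert (by decide), Finset.sum_singleton]
  ring

theorem fph_zero (x : ℝ) : fph x 0 0 = Real.pi * x := by
  unfold fph
  ring

/-- The wall weight. -/
noncomputable def fW (H x : ℝ) : ℝ := 1 / 2 + H / (2 * h0) - fD x 0

theorem fD_zero (x : ℝ) : fD x 0 = 1 / 10 * Real.sin (Real.pi * x) +
    3 / 1250 * Real.sin (2 * (Real.pi * x)) + 1 / 5000 * Real.sin (3 * (Real.pi * x)) := by
  unfold fD
  rw [sum3, fph_zero]
  simp [amp]

theorem fW_ge (H x : ℝ) : H / (2 * h0) ≤ fW H x := by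
  unfold fW
  rw [fD_zero]
  have h1 := Real.sin_le_one (Real.pi * x)
  have h2 := Real.sin_le_one (2 * (Real.pi * x))
  have h3 := Real.sin_le_one (3 * (Real.pi * x))
  linarith

/-- The inequality at the two walls on the diagonal. -/
theorem diag_ineq (x : ℝ) : ∑ j ∈ Finset.Icc 1 3, amp j * (1 - hR j 0) *
    Real.sin (j * (Real.pi * x)) ≤ 1 / 2 := by
  rw [sum3, hR_zero (by norm_num), hR_zero (by norm_num), hR_zero (by norm_num)]
  have hp : Real.pi ^ 2 ≤ 9.88 := by
    have h1 := Real.pi_lt_d4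
    have h2 := Real.pi_pos
    nlinarith
  have hq : 9 ≤ Real.pi ^ 2 := by
    have h1 := Real.pi_gt_three
    nlinarith
  have h1 := Real.sin_le_one (((1 : ℕ) : ℝ) * (Real.pi * x))
  have h2 := Real.sin_le_one (((2 : ℕ) : ℝ) * (Real.pi * x))
  have h3 := Real.sin_le_one (((3 : ℕ) : ℝ) * (Real.pi * x))
  have k1 : 0 ≤ amp 1 * (1 - (19 / 3 - 8 / 9 * (((1 : ℕ) : ℝ) * Real.pi) ^ 2)) := by
    simp only [amp, Nat.cast_one, one_mul]
    nlinarith
  have k2 : 0 ≤ amp 2 * (1 - (19 / 3 - 8 / 9 * (((2 : ℕ) : ℝ) * Real.pi) ^ 2)) := by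
    simp only [amp, Nat.cast_ofNat, mul_pow]
    nlinarith
  have k3 : 0 ≤ amp 3 * (1 - (19 / 3 - 8 / 9 * (((3 : ℕ) : ℝ) * Real.pi) ^ 2)) := by
    simp only [amp, Nat.cast_ofNat, mul_pow]
    nlinarith
  have l1 := mul_le_mul_of_nonneg_left h1 k1
  have l2 := mul_le_mul_of_nonneg_left h2 k2
  have l3 := mul_le_mul_of_nonneg_left h3 k3
  have l4 : amp 1 * (1 - (19 / 3 - 8 / 9 * (((1 : ℕ) : ℝ) * Real.pi) ^ 2)) +
      amp 2 * (1 - (19 / 3 - 8 / 9 * (((2 : ℕ) : ℝ) * Real.pi) ^ 2)) +
      amp 3 * (1 - (19 / 3 - 8 / 9 * (((3 : ℕ) : ℝ) * Real.pi) ^ 2)) ≤ 1 / 2 := by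
    simp only [amp, Nat.cast_ofNat, Nat.cast_one, mul_pow]
    nlinarith
  linarith

theorem sin_diag_H {H x : ℝ} {n : ℕ} (hn : H = (n + x) * h0) (j : ℕ) :
    Real.sin (j * fph x H H) = -Real.sin (j * (Real.pi * x)) := by
  have h := sin_flip hn j 0 0
  rw [sub_zero, fph_zero] at h
  exact h

theorem fN_zero (H x : ℝ) : fN H x 0 0 = -H / (2 * h0) +
    ∑ j ∈ Finset.Icc 1 3, amp j * (hR j 0 * Real.sin (j * (Real.pi * x))) := by
  unfold fN
  rw [fph_zero, sub_self, zero_div]
  congr 1
  ring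

theorem fN_flip {H x : ℝ} {n : ℕ} (hn : H = (n + x) * h0) (c z : ℝ) :
    fN H x (H - c) (H - z) = -fN H x c z := by
  unfold fN
  have h : (H - z - (H - c)) / h0 = -((z - c) / h0) := by ring
  rw [h, neg_add, ← Finset.sum_neg_distrib]
  congr 1
  · ring
  · apply Finset.sum_congr rfl
    intro j _
    rw [sin_flip hn, hR_neg]
    ring

theorem fN_bot (H x : ℝ) : -fW H x ≤ fN H x 0 0 := by
  rw [fN_zero]
  unfold fW fD
  have h := diag_ineq x
  have e : ∑ j ∈ Finset.Icc 1 3, amp j * (1 - hR j 0) * Real.sin (j * (Real.pi * x)) =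
      ∑ j ∈ Finset.Icc 1 3, amp j * Real.sin (j * fph x 0 0) -
      ∑ j ∈ Finset.Icc 1 3, amp j * (hR j 0 * Real.sin (j * (Real.pi * x))) := by
    rw [← Finset.sum_sub_distrib, fph_zero]
    apply Finset.sum_congr rfl
    intro j _
    ring
  rw [e] at h
  have h2 : -H / (2 * h0) = -(H / (2 * h0)) := by ring
  rw [h2]
  linarith

theorem fN_top {H x : ℝ} {n : ℕ} (hn : H = (n + x) * h0) (hb : HannBox) {c : ℝ}
    (hc : c ≤ H) (hc1 : H ≤ c + 1) : fN H x c H ≤ fW H x := by
  have h1 : fN H x c H ≤ fN H x H H :=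
    fN_mono_c hb H x H ⟨by linarith, by linarith⟩ ⟨by linarith, by linarith⟩ hc
  have h2 := fN_flip hn 0 0
  rw [sub_zero] at h2
  have h3 := fN_bot H x
  linarith

theorem fD_flip {H x : ℝ} {n : ℕ} (hn : H = (n + x) * h0) (y : ℝ) :
    fD x (H - y) = -fD x y := by
  unfold fD
  rw [← Finset.sum_neg_distrib]
  apply Finset.sum_congr rfl
  intro j _
  rw [sin_flip hn]
  ring

/-- The lower bound of the one-sided gain. -/
noncomputable def fe (H x y : ℝ) : ℝ := 1 / 2 + (2 * y - H) / (2 * h0) + fD x y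

theorem fe_wall {H x : ℝ} {n : ℕ} (hn : H = (n + x) * h0) (hw : HannWall) {y : ℝ}
    (hy : y ≤ H) (hy' : H - y < h0) :
    fe H x y ≤ fW H x * (2 * g (H - y) - 1) +
      ((fF H x H H - fF H x y H) - (fF H x H y - fF H x y y)) := by
  have hp := h0_pos
  have hsym : fF H x H y = fF H x y H := by
    unfold fF
    rw [fB_symm H x H y]
    congr 1
    unfold g
    congr 1
    ring
  have hdy : fF H x y y = (2 * y - H) / (2 * h0) + fD x y := by
    unfold fF
    rw [sub_self, g_zero, one_mul, fB_diag]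
  have hdH : fF H x H H = H / (2 * h0) - fD x 0 := by
    unfold fF
    rw [sub_self, g_zero, one_mul, fB_diag]
    have h := fD_flip hn 0
    rw [sub_zero] at h
    rw [h]
    ring
  have hFy : fF H x y H = g (H - y) * (y / (2 * h0) +
      ∑ j ∈ Finset.Icc 1 3, amp j * (hk j 0 ((H - y) / h0) *
        Real.sin (j * Real.pi * ((H - y) / h0 - x)))) := by
    unfold fF fB
    congr 2
    · ring
    · apply Finset.sum_congr rfl
      intro j _
      have h : j * fph x y H = j * Real.pi * ((H - y) / h0 - x) -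
          ((j * n : ℕ) : ℝ) * (2 * Real.pi) := by
        unfold fph
        rw [hn]
        push_cast
        have := h0_pos.ne'
        field_simp
        ring
      rw [h, Real.sin_sub_nat_mul_two_pi]
  have key := hw ((H - y) / h0) x (div_nonneg (by linarith) hp.le)
    ((div_le_one hp).mpr hy'.le)
  have e1 : h0 * ((H - y) / h0) = H - y := by field_simp
  rw [e1] at key
  have e2 : ∑ j ∈ Finset.Icc 1 3, amp j * (Real.sin (j * Real.pi * x) +
      hk j 0 ((H - y) / h0) * Real.sin (j * Real.pi * ((H - y) / h0 - x))) =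
      fD x 0 + ∑ j ∈ Finset.Icc 1 3, amp j * (hk j 0 ((H - y) / h0) *
        Real.sin (j * Real.pi * ((H - y) / h0 - x))) := by
    unfold fD
    rw [← Finset.sum_add_distrib]
    apply Finset.sum_congr rfl
    intro j _
    rw [fph_zero]
    have : (j : ℝ) * Real.pi * x = j * (Real.pi * x) := by ring
    rw [this]
    ring
  rw [e2] at key
  rw [hsym, hdy, hdH, hFy]
  unfold fe fW
  have e3 : (H - y) / h0 = H / h0 - y / h0 := by ring
  have e4 : H / (2 * h0) = H / h0 / 2 := by rw [div_div, mul_comm]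
  have e5 : y / (2 * h0) = y / h0 / 2 := by rw [div_div, mul_comm]
  have e6 : (2 * y - H) / (2 * h0) = y / h0 - H / h0 / 2 := by
    field_simp
  rw [e4, e5, e6]
  set sg := ∑ j ∈ Finset.Icc 1 3, amp j * (hk j 0 ((H - y) / h0) *
        Real.sin (j * Real.pi * ((H - y) / h0 - x)))
  have key' : 1 ≤ g (H - y) * (1 + (H / h0 - y / h0) - 2 * (fD x 0 + sg)) := by
    rw [← e3]
    exact key
  linarith

/-- The certificate. -/
theorem kern_cert (hb : HannBox) (hw : HannWall) {H x : ℝ} {n : ℕ} (hn : H = (n + x) * h0)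
    (hH : 0 ≤ H) : KernCert H (fW H x) (fL H x) (fN H x) (fe H x) where
  H0 := hH
  W0 := by
    have h := fW_ge H x
    have h2 : 0 ≤ H / (2 * h0) := div_nonneg hH (by linarith [h0_pos])
    linarith
  lag := fL_lag H x
  flip := fL_flip hn
  tan := fun c z p _ _ _ _ h => fL_tan hb p h
  ac := fun c _ _ => ac_of_C1 (fun z => hasDerivAt_fN_z H x c z) (continuous_fNz_z x c) _ _
  mono := fun c _ _ => fN_mono hb H x c
  top := fun c _ h1 h2 => fN_top hn hb h1 h2
  dac := ac_of_C1 (fun z => hasDerivAt_diag H x z) (continuous_fNz_d x) _ _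
  dmono := by
    apply monotoneOn_of_deriv_nonneg (convex_Icc _ _)
    · exact fun z _ => (hasDerivAt_diag H x z).continuousAt.continuousWithinAt
    · exact fun z _ => (hasDerivAt_diag H x z).differentiableAt.differentiableWithinAt
    · intro z _
      rw [(hasDerivAt_diag H x z).deriv]
      have := fNz_nonneg hb x z z (by simp)
      linarith
  bot := fN_bot H x
  exit := by
    intro y r hy h1 h2 h3 h4
    obtain ⟨a1, a2, a3, a4, a5⟩ := ext_invol h1 h2
    have a6 : r ≤ 2 * ext r := by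
      have := (ext_invol a2 a3).2.2.2.1
      rw [a1] at this
      exact this
    rw [flux_int (by linarith), exit_id H x y h1 h2]
    · exact le_rfl
    · intro z hz
      rw [abs_lt]
      constructor <;> linarith [hz.1, hz.2]
    · intro z hz
      rw [abs_lt]
      constructor <;> linarith [hz.1, hz.2]
  wall := by
    intro y h1 h2 h3
    have h4 := h0_le_one
    rw [flux_int h2]
    · exact fe_wall hn hw h2 h3
    · intro z hz
      rw [abs_lt]
      constructor <;> linarith [hz.1, hz.2]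
    · intro z hz
      rw [abs_lt]
      constructor <;> linarith [hz.1, hz.2]
  sum := by
    intro y h1 h2
    unfold fe
    rw [fD_flip hn]
    have : (2 * (H - y) - H) / (2 * h0) = -((2 * y - H) / (2 * h0)) := by ring
    rw [this]
    linarith

end Pool.Agent.Strip051
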