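import Pool.Agent.Strip051.Kern.Field

/-! # The exit identity, the wall and the certificate -/

namespace Pool.Agent.Strip051

open Pool.Agent.StripNear Pool.Agent.StripSquare Set MeasureTheory Filter Topology

theorem ac_of_C1 {f f' : ℝ → ℝ} (h : ∀ z, HasDerivAt f (f' z) z) (hc : Continuous f')
    (a b : ℝ) : AbsolutelyContinuousOnInterval f a b := by
  obtain ⟨C, hC⟩ := (isCompact_uIcc (a := a) (b := b)).exists_bound_of_continuousOn
    hc.continuousOn
  have hl : LipschitzOnWith (Real.toNNReal C) f (uIcc a b) := by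
    apply (convex_uIcc a b).lipschitzOnWith_of_nnnorm_hasDerivWithin_le
      (fun z _ => (h z).hasDerivWithinAt)
    intro z hz
    have := hC z hz
    rw [← NNReal.coe_le_coe, coe_nnnorm]
    exact this.trans (Real.le_coe_toNNReal C)
  exact hl.absolutelyContinuousOnInterval

theorem continuous_fBz_z (x c : ℝ) : Continuous fun z => fBz x c z :=
  Continuous.comp (g := fun p : ℝ × ℝ => fBz x p.1 p.2) (f := fun z : ℝ => (c, z))
    (continuous_fBz x) (by fun_prop)

theorem ac_fF (H x c a b : ℝ) : AbsolutelyContinuousOnInterval (fun z => fF H x c z) a b :=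
  (ac_g_sub c a b).fun_mul
    (ac_of_C1 (fun z => hasDerivAt_fB_z H x c z) (continuous_fBz_z x c) a b)

/-- The flux integral. -/
theorem flux_int {H x c1 c2 a b : ℝ} (hab : a ≤ b)
    (h1 : ∀ z ∈ Ioo a b, |z - c1| < 1) (h2 : ∀ z ∈ Ioo a b, |z - c2| < 1) :
    ∫ z in a..b, (fL H x z (sl c1 z) - fL H x z (sl c2 z)) =
      (fF H x c1 b - fF H x c2 b) - (fF H x c1 a - fF H x c2 a) := by
  have hac := (ac_fF H x c1 a b).fun_sub (ac_fF H x c2 a b)
  rw [← hac.integral_deriv_eq_sub]
  apply int_congr hab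
  intro z hz
  rw [fL_sl (h1 z hz), fL_sl (h2 z hz)]
  exact ((hasDerivAt_fF_z (h1 z hz)).sub (hasDerivAt_fF_z (h2 z hz))).deriv.symm

/-- The oscillating part of the one-sided gain. -/
noncomputable def fD (x y : ℝ) : ℝ :=
  ∑ j ∈ Finset.Icc 1 3, amp j * Real.sin (j * fph x y y)

theorem tel (j : ℕ) (x c z : ℝ) :
    2 * Real.sin (j * Real.pi * ((z - c) / h0)) * Real.sin (j * fph x c z) =
      Real.cos (j * Real.pi * (2 * z / h0 - x)) - Real.cos (j * Real.pi * (2 * c / h0 - x)) := by
  have e1 : j * Real.pi * (2 * z / h0 - x) =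
      j * Real.pi * ((z - c) / h0) - j * fph x c z := by
    unfold fph
    ring
  have e2 : j * Real.pi * (2 * c / h0 - x) =
      -(j * Real.pi * ((z - c) / h0) + j * fph x c z) := by
    unfold fph
    ring
  rw [e1, e2, Real.cos_neg, Real.cos_sub, Real.cos_add]
  ring

theorem hk_d (j : ℕ) (d : ℝ) : hk j 0 (d / h0) = (1 - 4 * d ^ 2) * hS j 0 (d / h0) := by
  rw [hk_zero, div_pow, h0_sq]
  ring

theorem hS_d (j : ℕ) (d : ℝ) : j * Real.pi * (d * (3 - 4 * d ^ 2)) * hS j 0 (d / h0) =
    3 * h0 * Real.sin (j * Real.pi * (d / h0)) := by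
  rw [← hS_ode0, div_pow, h0_sq]
  have := h0_pos.ne'
  field_simp

/-- The harmonic part of the exit identity. -/
theorem exit_harm {j : ℕ} (hj : 1 ≤ j) (x y : ℝ) {r : ℝ} (h1 : 1 / 2 ≤ r) (h2 : r ≤ 1) :
    g (ext r - r) * (hk j 0 ((ext r - r) / h0) * Real.sin (j * fph x (y + r) (y + ext r))) -
    g r * (hk j 0 (r / h0) * Real.sin (j * fph x y (y + r))) -
    g (ext r) * (hk j 0 (ext r / h0) * Real.sin (j * fph x y (y + ext r))) = 0 := by
  obtain ⟨a1, a2, a3, a4, a5⟩ := ext_invol h1 h2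
  obtain ⟨b1, b2, b3, b4, b5, b6⟩ := ext_spec h1 h2
  have e1 : r / 2 + h0 * g r = ext r := rfl
  rw [e1] at b3
  have hG : g r ^ 2 + r ^ 2 - 1 = 0 := by
    rw [g_sq (by nlinarith)]
    ring
  have hs : h0 ^ 2 - 3 / 4 = 0 := by rw [h0_sq]; ring
  have ht : ext r = r / 2 + h0 * g r := rfl
  have ht' : ext r - r = h0 * g r - r / 2 := by rw [ht]; ring
  have hgt : g (ext r - r) = h0 * r + g r / 2 := by
    rw [b3] at a5
    linarith
  set G := g r with hGdef
  have c1 : g (ext r) * (1 - 4 * ext r ^ 2) = G * (1 - 4 * r ^ 2) := by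
    rw [b3, ht]
    linear_combination (-h0 * r + 3 / 2 * G) * hG +
      (-4 * r ^ 2 * G - 4 * h0 * r * G ^ 2 + 2 * G ^ 3) * hs
  have c2 : g (ext r - r) * (1 - 4 * (ext r - r) ^ 2) = -(G * (1 - 4 * r ^ 2)) := by
    rw [hgt, ht']
    linear_combination (-h0 * r - 3 / 2 * G) * hG -
      (-4 * r ^ 2 * G + 4 * h0 * r * G ^ 2 + 2 * G ^ 3) * hs
  have c3 : ext r * (3 - 4 * ext r ^ 2) = -(r * (3 - 4 * r ^ 2)) := by
    rw [ht]
    linear_combination (-9 / 2 * r - 3 * h0 * G) * hG + (-6 * r * G ^ 2 - 4 * h0 * G ^ 3) * hs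
  have c4 : (ext r - r) * (3 - 4 * (ext r - r) ^ 2) = r * (3 - 4 * r ^ 2) := by
    rw [ht']
    linear_combination (9 / 2 * r - 3 * h0 * G) * hG + (6 * r * G ^ 2 - 4 * h0 * G ^ 3) * hs
  have hbr : hS j 0 ((ext r - r) / h0) * Real.sin (j * fph x (y + r) (y + ext r)) +
      hS j 0 (r / h0) * Real.sin (j * fph x y (y + r)) +
      hS j 0 (ext r / h0) * Real.sin (j * fph x y (y + ext r)) = 0 := by
    have s1 := hS_d j (ext r - r)
    have s2 := hS_d j r
    have s3 := hS_d j (ext r)
    rw [c4] at s1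
    rw [c3] at s3
    have t1 := tel j x (y + r) (y + ext r)
    have t2 := tel j x y (y + r)
    have t3 := tel j x y (y + ext r)
    have f1 : y + ext r - (y + r) = ext r - r := by ring
    have f2 : y + r - y = r := by ring
    have f3 : y + ext r - y = ext r := by ring
    rw [f1] at t1
    rw [f2] at t2
    rw [f3] at t3
    rcases eq_or_ne (r * (3 - 4 * r ^ 2)) 0 with h0' | h0'
    · have hr : r = h0 := by
        have k1 : 3 - 4 * r ^ 2 = 0 := by
          rcases mul_eq_zero.mp h0' with h | h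
          · linarith
          · exact h
        have k2 : (r - h0) * (r + h0) = 0 := by
          have := h0_sq
          nlinarith
        rcases mul_eq_zero.mp k2 with h | h
        · linarith
        · linarith [h0_pos]
      have hGr : G = 1 / 2 := by rw [hGdef, hr, g_h0]
      have hte : ext r = h0 := by
        rw [ht, hGr, hr]
        ring
      rw [hte, hr, sub_self, zero_div, div_self h0_pos.ne', hS_zero_zero hj, hS_zero_one hj]
      have g1 : j * fph x (y + h0) (y + h0) =
          j * fph x y (y + h0) - j * Real.pi := by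
        unfold fph
        have := h0_pos.ne'
        field_simp
        ring
      rw [g1, Real.sin_sub_nat_mul_pi]
      ring
    · have hp : (j : ℝ) * Real.pi * (r * (3 - 4 * r ^ 2)) ≠ 0 := by
        have : (1 : ℝ) ≤ j := by exact_mod_cast hj
        exact mul_ne_zero (by positivity) h0'
      apply mul_left_cancel₀ hp
      linear_combination (Real.sin (j * fph x (y + r) (y + ext r))) * s1 +
        (Real.sin (j * fph x y (y + r))) * s2 - (Real.sin (j * fph x y (y + ext r))) * s3 +
        (3 / 2 * h0) * t1 + (3 / 2 * h0) * t2 - (3 / 2 * h0) * t3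
  rw [hk_d, hk_d, hk_d]
  linear_combination (hS j 0 ((ext r - r) / h0) * Real.sin (j * fph x (y + r) (y + ext r))) * c2 -
    (hS j 0 (ext r / h0) * Real.sin (j * fph x y (y + ext r))) * c1 -
    (G * (1 - 4 * r ^ 2)) * hbr

theorem fB_diag (H x y : ℝ) : fB H x y y = (2 * y - H) / (2 * h0) + fD x y := by
  unfold fB fD
  rw [sub_self, zero_div]
  congr 1
  · ring
  · apply Finset.sum_congr rfl
    intro j hj
    rw [Finset.mem_Icc] at hj
    rw [hk_zero, hS_zero_zero hj.1]
    ring

/-- The exit identity. -/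
theorem exit_id (H x y : ℝ) {r : ℝ} (h1 : 1 / 2 ≤ r) (h2 : r ≤ 1) :
    (fF H x (y + r) (y + ext r) - fF H x y (y + ext r)) - (fF H x (y + r) y - fF H x y y) =
      1 / 2 + (2 * y - H) / (2 * h0) + fD x y := by
  obtain ⟨a1, a2, a3, a4, a5⟩ := ext_invol h1 h2
  obtain ⟨b1, b2, b3, b4, b5, b6⟩ := ext_spec h1 h2
  have e1 : r / 2 + h0 * g r = ext r := rfl
  rw [e1] at b3
  have ht : ext r = r / 2 + h0 * g r := rfl
  have hG : g r ^ 2 + r ^ 2 - 1 = 0 := by
    rw [g_sq (by nlinarith)]
    ring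
  have harm : ∑ j ∈ Finset.Icc 1 3, amp j *
    (g (ext r - r) * (hk j 0 ((ext r - r) / h0) * Real.sin (j * fph x (y + r) (y + ext r))) -
    g r * (hk j 0 (r / h0) * Real.sin (j * fph x y (y + r))) -
    g (ext r) * (hk j 0 (ext r / h0) * Real.sin (j * fph x y (y + ext r)))) = 0 := by
    apply Finset.sum_eq_zero
    intro j hj
    rw [Finset.mem_Icc] at hj
    rw [exit_harm hj.1 x y h1 h2, mul_zero]
  have f1 : y + ext r - (y + r) = ext r - r := by ring
  have f3 : y + ext r - y = ext r := by ring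
  have f4 : y + r - y = r := by ring
  have hsym : fF H x (y + r) y = fF H x y (y + r) := by
    unfold fF
    rw [fB_symm H x (y + r) y]
    congr 1
    unfold g
    congr 1
    ring
  have hdiag : fF H x y y = (2 * y - H) / (2 * h0) + fD x y := by
    unfold fF
    rw [sub_self, g_zero, one_mul, fB_diag]
  rw [hsym, hdiag]
  unfold fF fB
  rw [f1, f3, f4]
  have hsum : ∑ j ∈ Finset.Icc 1 3, amp j *
    (g (ext r - r) * (hk j 0 ((ext r - r) / h0) * Real.sin (j * fph x (y + r) (y + ext r))) -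
    g r * (hk j 0 (r / h0) * Real.sin (j * fph x y (y + r))) -
    g (ext r) * (hk j 0 (ext r / h0) * Real.sin (j * fph x y (y + ext r)))) =
    g (ext r - r) * (∑ j ∈ Finset.Icc 1 3, amp j * (hk j 0 ((ext r - r) / h0) *
      Real.sin (j * fph x (y + r) (y + ext r)))) -
    g r * (∑ j ∈ Finset.Icc 1 3, amp j * (hk j 0 (r / h0) *
      Real.sin (j * fph x y (y + r)))) -
    g (ext r) * (∑ j ∈ Finset.Icc 1 3, amp j * (hk j 0 (ext r / h0) *
      Real.sin (j * fph x y (y + ext r)))) := by
    rw [Finset.mul_sum, Finset.mul_sum, Finset.mul_sum, ← Finset.sum_sub_distrib,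
      ← Finset.sum_sub_distrib]
    apply Finset.sum_congr rfl
    intro j _
    ring
  rw [hsum] at harm
  have hp := h0_pos.ne'
  have haff : g (ext r - r) * ((y + r + (y + ext r) - H) / (2 * h0)) -
      g (ext r) * ((y + (y + ext r) - H) / (2 * h0)) - g r * ((y + (y + r) - H) / (2 * h0)) =
      1 / 2 := by
    have k1 : g (ext r - r) = g r + g (ext r) := by linarith
    rw [k1, b3, ht]
    field_simp
    linear_combination (4 * h0) * hG
  linear_combination harm + haff

end Pool.Agent.Strip051
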