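import Pool.Agent.Strip051.Kern.Hann

/-! # The field of the sinusoidal kernel: `B`, `G`, `N`, `L` -/

namespace Pool.Agent.Strip051

open Pool.Agent.StripNear Pool.Agent.StripSquare Set MeasureTheory Filter Topology

/-- The phase. -/
noncomputable def fph (x c z : ℝ) : ℝ := Real.pi * (x - (c + z) / h0)

/-- The amplitude of the flux. -/
noncomputable def fB (H x c z : ℝ) : ℝ := (c + z - H) / (2 * h0) +
  ∑ j ∈ Finset.Icc 1 3, amp j * (hk j 0 ((z - c) / h0) * Real.sin (j * fph x c z))

/-- Its derivative in `z`. -/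
noncomputable def fBz (x c z : ℝ) : ℝ := 1 / (2 * h0) +
  ∑ j ∈ Finset.Icc 1 3, amp j * (hk j 1 ((z - c) / h0) / h0 * Real.sin (j * fph x c z) -
    j * Real.pi / h0 * hk j 0 ((z - c) / h0) * Real.cos (j * fph x c z))

/-- Its derivative in `c`. -/
noncomputable def fBc (x c z : ℝ) : ℝ := 1 / (2 * h0) +
  ∑ j ∈ Finset.Icc 1 3, amp j * (-(hk j 1 ((z - c) / h0) / h0 * Real.sin (j * fph x c z)) -
    j * Real.pi / h0 * hk j 0 ((z - c) / h0) * Real.cos (j * fph x c z))

/-- Its mixed derivative. -/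
noncomputable def fBzc (x c z : ℝ) : ℝ :=
  ∑ j ∈ Finset.Icc 1 3, amp j * (-((hk j 2 ((z - c) / h0) +
    (j * Real.pi) ^ 2 * hk j 0 ((z - c) / h0)) / h0 ^ 2 * Real.sin (j * fph x c z)))

/-- The kernel. -/
noncomputable def fN (H x c z : ℝ) : ℝ := (c + z - H) / (2 * h0) +
  ∑ j ∈ Finset.Icc 1 3, amp j * (hR j ((z - c) / h0) * Real.sin (j * fph x c z))

/-- The derivative of the kernel in `z`. -/
noncomputable def fNz (x c z : ℝ) : ℝ := 1 / (2 * h0) +
  ∑ j ∈ Finset.Icc 1 3, amp j * (hR1 j ((z - c) / h0) / h0 * Real.sin (j * fph x c z) -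
    j * Real.pi / h0 * hR j ((z - c) / h0) * Real.cos (j * fph x c z))

/-- The flux. -/
noncomputable def fF (H x c z : ℝ) : ℝ := g (z - c) * fB H x c z

/-- The Lagrangian on the arc with centre height `c`. -/
noncomputable def fG (H x c z : ℝ) : ℝ := sl c z * fB H x c z + g (z - c) * fBz x c z

/-- The centre height of the arc with slope `p` at `z`. -/
noncomputable def fcc (z p : ℝ) : ℝ := z + p / Real.sqrt (1 + p ^ 2)

/-- The Lagrangian. -/
noncomputable def fL (H x z p : ℝ) : ℝ :=
  p * fB H x (fcc z p) z + fBz x (fcc z p) z / Real.sqrt (1 + p ^ 2)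

theorem hasDerivAt_ph_z (x c z : ℝ) : HasDerivAt (fun z => fph x c z) (-(Real.pi / h0)) z := by
  have h := ((((hasDerivAt_id' z).const_add c).div_const h0).const_sub x).const_mul Real.pi
  refine h.congr_deriv ?_
  ring

theorem hasDerivAt_ph_c (x c z : ℝ) : HasDerivAt (fun c => fph x c z) (-(Real.pi / h0)) c := by
  have h := ((((hasDerivAt_id' c).add_const z).div_const h0).const_sub x).const_mul Real.pi
  refine h.congr_deriv ?_
  ring

theorem hasDerivAt_u_z (c z : ℝ) : HasDerivAt (fun z => (z - c) / h0) (1 / h0) z :=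
  ((hasDerivAt_id' z).sub_const c).div_const h0

theorem hasDerivAt_u_c (c z : ℝ) : HasDerivAt (fun c => (z - c) / h0) (-1 / h0) c :=
  ((hasDerivAt_id' c).const_sub z).div_const h0

theorem hasDerivAt_sin_z (j : ℕ) (x c z : ℝ) :
    HasDerivAt (fun z => Real.sin (j * fph x c z))
      (Real.cos (j * fph x c z) * (j * -(Real.pi / h0))) z :=
  ((hasDerivAt_ph_z x c z).const_mul (j : ℝ)).sin

theorem hasDerivAt_sin_c (j : ℕ) (x c z : ℝ) :
    HasDerivAt (fun c => Real.sin (j * fph x c z))
      (Real.cos (j * fph x c z) * (j * -(Real.pi / h0))) c :=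
  ((hasDerivAt_ph_c x c z).const_mul (j : ℝ)).sin

theorem hasDerivAt_cos_c (j : ℕ) (x c z : ℝ) :
    HasDerivAt (fun c => Real.cos (j * fph x c z))
      (-Real.sin (j * fph x c z) * (j * -(Real.pi / h0))) c :=
  ((hasDerivAt_ph_c x c z).const_mul (j : ℝ)).cos

theorem hasDerivAt_fB_z (H x c z : ℝ) :
    HasDerivAt (fun z => fB H x c z) (fBz x c z) z := by
  have h1 : HasDerivAt (fun z => (c + z - H) / (2 * h0)) (1 / (2 * h0)) z :=
    (((hasDerivAt_id' z).const_add c).sub_const H).div_const (2 * h0)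
  refine h1.add (HasDerivAt.fun_sum fun j _ => ?_)
  have h2 := (((hasDerivAt_hk j 0 ((z - c) / h0)).comp z (hasDerivAt_u_z c z)).mul
    (hasDerivAt_sin_z j x c z)).const_mul (amp j)
  refine h2.congr_deriv ?_
  simp only [Function.comp]
  ring

theorem hasDerivAt_fB_c (H x c z : ℝ) :
    HasDerivAt (fun c => fB H x c z) (fBc x c z) c := by
  have h1 : HasDerivAt (fun c => (c + z - H) / (2 * h0)) (1 / (2 * h0)) c :=
    (((hasDerivAt_id' c).add_const z).sub_const H).div_const (2 * h0)
  refine h1.add (HasDerivAt.fun_sum fun j _ => ?_)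
  have h2 := (((hasDerivAt_hk j 0 ((z - c) / h0)).comp c (hasDerivAt_u_c c z)).mul
    (hasDerivAt_sin_c j x c z)).const_mul (amp j)
  refine h2.congr_deriv ?_
  simp only [Function.comp]
  ring

theorem hasDerivAt_fBz_c (x c z : ℝ) :
    HasDerivAt (fun c => fBz x c z) (fBzc x c z) c := by
  have h1 := (HasDerivAt.fun_sum (u := Finset.Icc 1 3) (x := c) (A := fun j c =>
    amp j * (hk j 1 ((z - c) / h0) / h0 * Real.sin (j * fph x c z) -
    j * Real.pi / h0 * hk j 0 ((z - c) / h0) * Real.cos (j * fph x c z))) (A' := fun j =>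
    amp j * (-((hk j 2 ((z - c) / h0) +
    (j * Real.pi) ^ 2 * hk j 0 ((z - c) / h0)) / h0 ^ 2 * Real.sin (j * fph x c z))))
    fun j _ => ?_)
  · exact h1.const_add (1 / (2 * h0))
  have h2 := ((((((hasDerivAt_hk j 1 ((z - c) / h0)).comp c (hasDerivAt_u_c c z)).div_const h0).mul
    (hasDerivAt_sin_c j x c z))).sub
    ((((hasDerivAt_hk j 0 ((z - c) / h0)).comp c (hasDerivAt_u_c c z)).const_mul
      (j * Real.pi / h0)).mul (hasDerivAt_cos_c j x c z))).const_mul (amp j)
  refine h2.congr_deriv ?_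
  simp only [Function.comp]
  ring

theorem hasDerivAt_fN_z (H x c z : ℝ) :
    HasDerivAt (fun z => fN H x c z) (fNz x c z) z := by
  have h1 : HasDerivAt (fun z => (c + z - H) / (2 * h0)) (1 / (2 * h0)) z :=
    (((hasDerivAt_id' z).const_add c).sub_const H).div_const (2 * h0)
  refine h1.add (HasDerivAt.fun_sum fun j _ => ?_)
  have h2 := (((hasDerivAt_hR j ((z - c) / h0)).comp z (hasDerivAt_u_z c z)).mul
    (hasDerivAt_sin_z j x c z)).const_mul (amp j)
  refine h2.congr_deriv ?_
  simp only [Function.comp]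
  ring

theorem fph_symm (x c z : ℝ) : fph x c z = fph x z c := by
  unfold fph
  rw [add_comm]

theorem fN_symm (H x c z : ℝ) : fN H x c z = fN H x z c := by
  unfold fN
  have h : (z - c) / h0 = -((c - z) / h0) := by ring
  rw [add_comm c z, h]
  congr 1
  apply Finset.sum_congr rfl
  intro j _
  rw [hR_neg, fph_symm]

theorem fB_symm (H x c z : ℝ) : fB H x c z = fB H x z c := by
  unfold fB
  have h : (z - c) / h0 = -((c - z) / h0) := by ring
  rw [add_comm c z, h]
  congr 1
  apply Finset.sum_congr rfl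
  intro j _
  rw [hk_neg, fph_symm, pow_zero, one_mul]

theorem fNz_nonneg (hb : HannBox) (x c z : ℝ) (h : |z - c| ≤ 1) : 0 ≤ fNz x c z := by
  have h0p := h0_pos
  have hu : ((z - c) / h0) ^ 2 ≤ 4 / 3 := by
    rw [div_pow, h0_sq, div_le_iff₀ (by norm_num)]
    have := abs_le.mp h
    nlinarith
  have h1 := hb ((z - c) / h0) (fph x c z) hu
  have h2 : fNz x c z = (1 / 2 - ∑ j ∈ Finset.Icc 1 3, amp j *
      (j * Real.pi * hR j ((z - c) / h0) * Real.cos (j * fph x c z) -
        hR1 j ((z - c) / h0) * Real.sin (j * fph x c z))) / h0 := by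
    unfold fNz
    generalize (z - c) / h0 = u
    rw [sub_div, Finset.sum_div, sub_eq_add_neg, ← Finset.sum_neg_distrib, div_div]
    congr 1
    apply Finset.sum_congr rfl
    intro j _
    ring
  rw [h2]
  positivity

/-- The kernel is nondecreasing in the height. -/
theorem fN_mono (hb : HannBox) (H x c : ℝ) : MonotoneOn (fun z => fN H x c z)
    (Icc (c - 1) (c + 1)) := by
  apply monotoneOn_of_deriv_nonneg (convex_Icc _ _)
  · exact fun z _ => (hasDerivAt_fN_z H x c z).continuousAt.continuousWithinAt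
  · exact fun z _ => (hasDerivAt_fN_z H x c z).differentiableAt.differentiableWithinAt
  · intro z hz
    rw [interior_Icc] at hz
    rw [(hasDerivAt_fN_z H x c z).deriv]
    apply fNz_nonneg hb
    rw [abs_le]
    constructor <;> linarith [hz.1, hz.2]

theorem fN_mono_c (hb : HannBox) (H x z : ℝ) : MonotoneOn (fun c => fN H x c z)
    (Icc (z - 1) (z + 1)) := by
  have h := fN_mono hb H x z
  intro a ha b hb' hab
  simp only
  rw [fN_symm H x a z, fN_symm H x b z]
  exact h ha hb' hab

theorem g_pos_of {d : ℝ} (h : |d| < 1) : 0 < g d := by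
  unfold g
  apply Real.sqrt_pos.mpr
  rw [abs_lt] at h
  nlinarith

theorem g_sq_of {d : ℝ} (h : |d| < 1) : g d ^ 2 = 1 - d ^ 2 := by
  apply g_sq
  rw [abs_lt] at h
  nlinarith

theorem hasDerivAt_g_z {c z : ℝ} (h : |z - c| < 1) :
    HasDerivAt (fun z => g (z - c)) (sl c z) z := by
  have := (hasDerivAt_g h).comp z ((hasDerivAt_id' z).sub_const c)
  refine this.congr_deriv ?_
  unfold sl
  ring

theorem hasDerivAt_g_c {c z : ℝ} (h : |z - c| < 1) :
    HasDerivAt (fun c => g (z - c)) ((z - c) / g (z - c)) c := by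
  have := (hasDerivAt_g h).comp c ((hasDerivAt_id' c).const_sub z)
  refine this.congr_deriv ?_
  ring

theorem hasDerivAt_sl_c {c z : ℝ} (h : |z - c| < 1) :
    HasDerivAt (fun c => sl c z) (1 / g (z - c) ^ 3) c := by
  have hg := g_pos_of h
  have hs := g_sq_of h
  have h1 : HasDerivAt (fun c => -(z - c)) 1 c := by
    have := ((hasDerivAt_id' c).const_sub z).neg
    refine this.congr_deriv ?_
    ring
  have h2 := h1.div (hasDerivAt_g_c h) hg.ne'
  refine h2.congr_deriv ?_
  field_simp
  nlinarith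

theorem hasDerivAt_fF_z {H x c z : ℝ} (h : |z - c| < 1) :
    HasDerivAt (fun z => fF H x c z) (fG H x c z) z :=
  (hasDerivAt_g_z h).mul (hasDerivAt_fB_z H x c z)

theorem fN_eq {H x c z : ℝ} (h : |z - c| < 1) :
    fN H x c z = fB H x c z + (z - c) * g (z - c) ^ 2 * (fBz x c z - fBc x c z) +
      g (z - c) ^ 4 * fBzc x c z := by
  have hs := g_sq_of h
  have h4 : g (z - c) ^ 4 = (1 - (z - c) ^ 2) ^ 2 := by
    rw [← hs]
    ring
  rw [h4, hs]
  unfold fN fB fBz fBc fBzc
  have e1 : (1 / (2 * h0) + ∑ j ∈ Finset.Icc 1 3, amp j *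
      (hk j 1 ((z - c) / h0) / h0 * Real.sin (j * fph x c z) -
      j * Real.pi / h0 * hk j 0 ((z - c) / h0) * Real.cos (j * fph x c z))) -
    (1 / (2 * h0) + ∑ j ∈ Finset.Icc 1 3, amp j *
      (-(hk j 1 ((z - c) / h0) / h0 * Real.sin (j * fph x c z)) -
      j * Real.pi / h0 * hk j 0 ((z - c) / h0) * Real.cos (j * fph x c z))) =
      ∑ j ∈ Finset.Icc 1 3, amp j * (2 / h0 * hk j 1 ((z - c) / h0) *
        Real.sin (j * fph x c z)) := by
    rw [add_sub_add_left_eq_sub, ← Finset.sum_sub_distrib]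
    apply Finset.sum_congr rfl
    intro j _
    ring
  rw [e1, Finset.mul_sum, Finset.mul_sum, add_assoc, add_assoc, ← Finset.sum_add_distrib,
    ← Finset.sum_add_distrib]
  congr 1
  apply Finset.sum_congr rfl
  intro j _
  have hd : z - c = h0 * ((z - c) / h0) := by
    field_simp [h0_pos.ne']
  generalize hu : (z - c) / h0 = u at *
  rw [hd]
  have hsq := h0_sq
  have h0n := h0_pos.ne'
  unfold hR
  have e2 : (h0 * u) ^ 2 = 3 / 4 * u ^ 2 := by rw [mul_pow, hsq]
  rw [e2, hsq]
  field_simp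
  ring

theorem hasDerivAt_fG_c {H x c z : ℝ} (h : |z - c| < 1) :
    HasDerivAt (fun c => fG H x c z) (fN H x c z / g (z - c) ^ 3) c := by
  have hg := g_pos_of h
  have hs := g_sq_of h
  have h1 := ((hasDerivAt_sl_c h).mul (hasDerivAt_fB_c H x c z)).add
    ((hasDerivAt_g_c h).mul (hasDerivAt_fBz_c x c z))
  refine h1.congr_deriv ?_
  rw [fN_eq h]
  unfold sl
  field_simp
  ring

/-- The tangent inequality on arcs. -/
theorem psi_ge (hb : HannBox) {H x z c c' : ℝ} (h : |z - c| < 1) (h' : |z - c'| < 1) :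
    fG H x c z - fN H x c z * sl c z ≤ fG H x c' z - fN H x c z * sl c' z := by
  have hd : ∀ a, |z - a| < 1 → HasDerivAt (fun a => fG H x a z - fN H x c z * sl a z)
      ((fN H x a z - fN H x c z) / g (z - a) ^ 3) a := by
    intro a ha
    have := (hasDerivAt_fG_c (H := H) (x := x) ha).sub
      ((hasDerivAt_sl_c ha).const_mul (fN H x c z))
    refine this.congr_deriv ?_
    ring
  have hm := fN_mono_c hb H x z
  rw [abs_lt] at h h'
  rcases le_total c c' with hc | hc
  · have : MonotoneOn (fun a => fG H x a z - fN H x c z * sl a z) (Icc c c') := by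
      have hab : ∀ a ∈ Icc c c', |z - a| < 1 := by
        intro a ha
        rw [abs_lt]
        constructor <;> linarith [ha.1, ha.2]
      apply monotoneOn_of_deriv_nonneg (convex_Icc _ _)
      · exact fun a ha => (hd a (hab a ha)).continuousAt.continuousWithinAt
      · exact fun a ha => (hd a (hab a (interior_subset ha))).differentiableAt.differentiableWithinAt
      · intro a ha
        have ha' := interior_subset ha
        rw [(hd a (hab a ha')).deriv]
        have h2 : fN H x c z ≤ fN H x a z := hm (by constructor <;> linarith [h.1, h.2])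
          (by constructor <;> linarith [ha'.1, ha'.2]) ha'.1
        have h3 := g_nonneg (z - a)
        apply div_nonneg (by linarith) (by positivity)
    exact this (left_mem_Icc.mpr hc) (right_mem_Icc.mpr hc) hc
  · have : AntitoneOn (fun a => fG H x a z - fN H x c z * sl a z) (Icc c' c) := by
      have hab : ∀ a ∈ Icc c' c, |z - a| < 1 := by
        intro a ha
        rw [abs_lt]
        constructor <;> linarith [ha.1, ha.2]
      apply antitoneOn_of_deriv_nonpos (convex_Icc _ _)
      · exact fun a ha => (hd a (hab a ha)).continuousAt.continuousWithinAt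
      · exact fun a ha => (hd a (hab a (interior_subset ha))).differentiableAt.differentiableWithinAt
      · intro a ha
        have ha' := interior_subset ha
        rw [(hd a (hab a ha')).deriv]
        have h2 : fN H x a z ≤ fN H x c z := hm (by constructor <;> linarith [ha'.1, ha'.2])
          (by constructor <;> linarith [h.1, h.2]) ha'.2
        have h3 := g_nonneg (z - a)
        apply div_nonpos_of_nonpos_of_nonneg (by linarith) (by positivity)
    exact this (left_mem_Icc.mpr hc) (right_mem_Icc.mpr hc) hc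

theorem fcc_lt (z p : ℝ) : |z - fcc z p| < 1 := by
  have h1 : 0 < 1 + p ^ 2 := by positivity
  have h2 := Real.sqrt_pos.mpr h1
  unfold fcc
  rw [sub_add_cancel_left, abs_neg, abs_div, abs_of_pos h2, div_lt_one h2]
  apply Real.lt_sqrt_of_sq_lt
  rw [sq_abs]
  linarith

theorem g_fcc (z p : ℝ) : g (z - fcc z p) = 1 / Real.sqrt (1 + p ^ 2) := by
  have h1 : 0 < 1 + p ^ 2 := by positivity
  have h2 := Real.sqrt_pos.mpr h1
  have h3 := Real.sq_sqrt h1.le
  unfold g fcc
  rw [sub_add_cancel_left, neg_sq, div_pow, h3, one_div, ← Real.sqrt_inv]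
  congr 1
  field_simp
  ring

theorem sl_fcc (z p : ℝ) : sl (fcc z p) z = p := by
  unfold sl
  rw [g_fcc]
  have h1 : 0 < 1 + p ^ 2 := by positivity
  have h2 := Real.sqrt_pos.mpr h1
  unfold fcc
  field_simp
  ring

theorem fL_eq_fG (H x z p : ℝ) : fL H x z p = fG H x (fcc z p) z := by
  unfold fL fG
  rw [sl_fcc, g_fcc]
  ring

theorem fcc_sl {c z : ℝ} (h : |z - c| < 1) : fcc z (sl c z) = c := by
  have hg := g_pos_of h
  have hs := g_sq_of h
  have h1 : 1 + sl c z ^ 2 = (1 / g (z - c)) ^ 2 := by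
    unfold sl
    field_simp
    nlinarith
  unfold fcc
  rw [h1, Real.sqrt_sq (by positivity)]
  unfold sl
  field_simp
  ring

theorem fL_sl {H x c z : ℝ} (h : |z - c| < 1) : fL H x z (sl c z) = fG H x c z := by
  rw [fL_eq_fG, fcc_sl h]

/-- The tangent inequality. -/
theorem fL_tan (hb : HannBox) {H x c z : ℝ} (p : ℝ) (h : |z - c| < 1) :
    fL H x z (sl c z) + fN H x c z * (p - sl c z) ≤ fL H x z p := by
  have h1 := psi_ge hb (H := H) (x := x) h (fcc_lt z p)
  rw [sl_fcc, ← fL_eq_fG, ← fL_sl h] at h1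
  linarith

theorem sin_flip {H x : ℝ} {n : ℕ} (hn : H = (n + x) * h0) (j : ℕ) (c z : ℝ) :
    Real.sin (j * fph x (H - c) (H - z)) = -Real.sin (j * fph x c z) := by
  have h : j * fph x (H - c) (H - z) = -(j * fph x c z) - ((j * n : ℕ) : ℝ) * (2 * Real.pi) := by
    unfold fph
    rw [hn]
    push_cast
    have := h0_pos.ne'
    field_simp
    ring
  rw [h, Real.sin_sub_nat_mul_two_pi, Real.sin_neg]

theorem cos_flip {H x : ℝ} {n : ℕ} (hn : H = (n + x) * h0) (j : ℕ) (c z : ℝ) :
    Real.cos (j * fph x (H - c) (H - z)) = Real.cos (j * fph x c z) := by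
  have h : j * fph x (H - c) (H - z) = -(j * fph x c z) - ((j * n : ℕ) : ℝ) * (2 * Real.pi) := by
    unfold fph
    rw [hn]
    push_cast
    have := h0_pos.ne'
    field_simp
    ring
  rw [h, Real.cos_sub_nat_mul_two_pi, Real.cos_neg]

theorem fB_flip {H x : ℝ} {n : ℕ} (hn : H = (n + x) * h0) (c z : ℝ) :
    fB H x (H - c) (H - z) = -fB H x c z := by
  unfold fB
  have h : (H - z - (H - c)) / h0 = -((z - c) / h0) := by ring
  rw [h, neg_add, ← Finset.sum_neg_distrib]
  congr 1
  · ring
  · apply Finset.sum_congr rfl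
    intro j _
    rw [sin_flip hn, hk_neg]
    ring

theorem fBz_flip {H x : ℝ} {n : ℕ} (hn : H = (n + x) * h0) (c z : ℝ) :
    fBz x (H - c) (H - z) = fBz x c z := by
  unfold fBz
  have h : (H - z - (H - c)) / h0 = -((z - c) / h0) := by ring
  rw [h]
  congr 1
  apply Finset.sum_congr rfl
  intro j _
  rw [sin_flip hn, cos_flip hn, hk_neg, hk_neg]
  ring

theorem fL_flip {H x : ℝ} {n : ℕ} (hn : H = (n + x) * h0) (z p : ℝ) :
    fL H x (H - z) (-p) = fL H x z p := by
  have h : fcc (H - z) (-p) = H - fcc z p := by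
    unfold fcc
    rw [neg_sq]
    ring
  unfold fL
  rw [h, fB_flip hn, fBz_flip hn, neg_sq]
  ring

theorem continuous_fcc : Continuous fun p : ℝ × ℝ => fcc p.1 p.2 := by
  unfold fcc
  apply Continuous.add continuous_fst
  apply Continuous.div (by fun_prop) (by fun_prop)
  intro p
  positivity

theorem continuous_fB (H x : ℝ) : Continuous fun p : ℝ × ℝ => fB H x p.1 p.2 := by
  unfold fB fph
  have h := fun j => continuous_hk j 0
  apply Continuous.add (by fun_prop)
  apply continuous_finsetSum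
  intro j _
  have hj := h j
  apply Continuous.mul continuous_const
  apply Continuous.mul
  · exact hj.comp (by fun_prop)
  · fun_prop

theorem continuous_fBz (x : ℝ) : Continuous fun p : ℝ × ℝ => fBz x p.1 p.2 := by
  unfold fBz fph
  apply Continuous.add (by fun_prop)
  apply continuous_finsetSum
  intro j _
  have k0 : Continuous fun p : ℝ × ℝ => hk j 0 ((p.2 - p.1) / h0) :=
    (continuous_hk j 0).comp (by fun_prop)
  have k1 : Continuous fun p : ℝ × ℝ => hk j 1 ((p.2 - p.1) / h0) :=
    (continuous_hk j 1).comp (by fun_prop)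
  fun_prop

theorem lag_of {H : ℝ} {b1 b2 : ℝ → ℝ → ℝ} (c1 : Continuous fun p : ℝ × ℝ => b1 p.1 p.2)
    (c2 : Continuous fun p : ℝ × ℝ => b2 p.1 p.2) :
    Lag H (fun z p => p * b1 (fcc z p) z + b2 (fcc z p) z / Real.sqrt (1 + p ^ 2)) := by
  constructor
  · have hf : Continuous fun p : ℝ × ℝ => (fcc p.1 p.2, p.1) := continuous_fcc.prodMk continuous_fst
    have h1 : Continuous fun p : ℝ × ℝ => b1 (fcc p.1 p.2) p.1 := c1.comp hf
    have h2 : Continuous fun p : ℝ × ℝ => b2 (fcc p.1 p.2) p.1 := c2.comp hf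
    apply Continuous.add (continuous_snd.mul h1)
    apply Continuous.div h2 (by fun_prop)
    intro p
    positivity
  · have hK : IsCompact (Icc (-1 : ℝ) (H + 1) ×ˢ Icc (0 : ℝ) H) :=
      isCompact_Icc.prod isCompact_Icc
    obtain ⟨C1, hC1⟩ := hK.exists_bound_of_continuousOn c1.continuousOn
    obtain ⟨C2, hC2⟩ := hK.exists_bound_of_continuousOn c2.continuousOn
    refine ⟨max C1 C2, fun z p hz hz' => ?_⟩
    have h1 := fcc_lt z p
    rw [abs_lt] at h1
    have hm : ((fcc z p, z) : ℝ × ℝ) ∈ Icc (-1 : ℝ) (H + 1) ×ˢ Icc (0 : ℝ) H := by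
      refine ⟨⟨?_, ?_⟩, ⟨hz, hz'⟩⟩ <;> simp only <;> linarith [h1.1, h1.2]
    have k1 := hC1 _ hm
    have k2 := hC2 _ hm
    simp only [Real.norm_eq_abs] at k1 k2
    have hs : 1 ≤ Real.sqrt (1 + p ^ 2) := by
      rw [Real.one_le_sqrt]
      nlinarith [sq_nonneg p]
    have hC : 0 ≤ max C1 C2 := le_trans (abs_nonneg _) (le_trans k1 (le_max_left _ _))
    calc |p * b1 (fcc z p) z + b2 (fcc z p) z / Real.sqrt (1 + p ^ 2)| ≤
        |p * b1 (fcc z p) z| + |b2 (fcc z p) z / Real.sqrt (1 + p ^ 2)| := abs_add_le _ _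
      _ ≤ |p| * max C1 C2 + max C1 C2 := by
        apply add_le_add
        · rw [abs_mul]
          exact mul_le_mul_of_nonneg_left (k1.trans (le_max_left _ _)) (abs_nonneg _)
        · rw [abs_div, abs_of_pos (by linarith : (0 : ℝ) < Real.sqrt (1 + p ^ 2))]
          apply (div_le_self (abs_nonneg _) hs).trans
          exact k2.trans (le_max_right _ _)
      _ = _ := by ring

theorem fL_lag (H x : ℝ) : Lag H (fL H x) :=
  lag_of (continuous_fB H x) (continuous_fBz x)

end Pool.Agent.Strip051
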