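import Pool.Agent.Strip051.Kern.Cert
import Pool.Agent.StripNear.Density

/-! # The density bound of the sinusoidal kernel -/

namespace Pool.Agent.Strip051

open Pool.Agent.StripNear Pool.Agent.StripSquare Set MeasureTheory

theorem fD_ge {x : ℝ} (hx : 0 ≤ x) (hx1 : x ≤ 1) :
    19 / 200 * Real.sin (Real.pi * x) ≤ fD x 0 := by
  rw [fD_zero, Real.sin_two_mul, Real.sin_three_mul]
  have hs : 0 ≤ Real.sin (Real.pi * x) :=
    Real.sin_nonneg_of_nonneg_of_le_pi (by positivity) (by nlinarith [Real.pi_pos])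
  have hsq := Real.sin_sq_add_cos_sq (Real.pi * x)
  have hc := Real.neg_one_le_cos (Real.pi * x)
  have e : 1 / 10 * Real.sin (Real.pi * x) +
      3 / 1250 * (2 * Real.sin (Real.pi * x) * Real.cos (Real.pi * x)) +
      1 / 5000 * (3 * Real.sin (Real.pi * x) - 4 * Real.sin (Real.pi * x) ^ 3) =
      19 / 200 * Real.sin (Real.pi * x) + Real.sin (Real.pi * x) *
        (1 / 200 + 3 / 625 * Real.cos (Real.pi * x) +
          1 / 5000 * (4 * Real.cos (Real.pi * x) ^ 2 - 1)) := by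
    have h3 : Real.sin (Real.pi * x) ^ 3 =
        Real.sin (Real.pi * x) * (1 - Real.cos (Real.pi * x) ^ 2) := by
      rw [← hsq]
      ring
    rw [h3]
    ring
  rw [e]
  have h4 : 0 ≤ 1 / 200 + 3 / 625 * Real.cos (Real.pi * x) +
      1 / 5000 * (4 * Real.cos (Real.pi * x) ^ 2 - 1) := by
    nlinarith [sq_nonneg (Real.cos (Real.pi * x))]
  have h5 := mul_nonneg hs h4
  linarith

theorem mono_count (hb : HannBox) (hw : HannWall) {H : ℝ} (hH : 0 ≤ H) :
    ∃ C0 : ℝ, ∀ L : ℝ, 0 ≤ L → ∀ X : Finset Pt, UnitSep X → (∀ p ∈ X, 0 ≤ p.1 ∧ p.1 ≤ L) →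
      InStrip H X → (X.card : ℝ) ≤
        (H / h0 + 1 - 19 / 100 * |Real.sin (Real.pi * (H / h0))|) * L + C0 := by
  have hh := h0_pos
  have hq : 0 ≤ H / h0 := div_nonneg hH hh.le
  set n : ℕ := ⌊H / h0⌋₊ with hn
  set x : ℝ := H / h0 - n with hx
  have hx0 : 0 ≤ x := by
    have := Nat.floor_le hq
    linarith
  have hx1 : x ≤ 1 := by
    have := Nat.lt_floor_add_one (H / h0)
    linarith
  have hHn : H = (n + x) * h0 := by
    rw [hx]
    field_simp
    ring
  obtain ⟨C0, h⟩ := kern_machine (kern_cert hb hw hHn hH)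
  refine ⟨C0, fun L hL X hX hX1 hX2 => (h L hL X hX hX2 hX1).trans ?_⟩
  have h1 := fD_ge hx0 hx1
  have h2 : |Real.sin (Real.pi * (H / h0))| = Real.sin (Real.pi * x) := by
    have hs : 0 ≤ Real.sin (Real.pi * x) :=
      Real.sin_nonneg_of_nonneg_of_le_pi (by positivity) (by nlinarith [Real.pi_pos])
    have e : Real.pi * (H / h0) = Real.pi * x + n * Real.pi := by
      rw [hx]
      ring
    rw [e, Real.sin_add_nat_mul_pi, abs_mul, abs_of_nonneg hs]
    simp
  rw [h2]
  have h3 : 2 * fW H x ≤ H / h0 + 1 - 19 / 100 * Real.sin (Real.pi * x) := by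
    unfold fW
    have e4 : H / (2 * h0) = H / h0 / 2 := by rw [div_div, mul_comm]
    rw [e4]
    linarith
  have h4 := mul_le_mul_of_nonneg_right h3 hL
  linarith

theorem mono_density (hb : HannBox) (hw : HannWall) {w : ℝ} (hw2 : 2 ≤ w) {C : Set E2}
    (hC : IsStripPacking w C) {O : E2} {d : ℝ} (hd : HasDensity w C O d) :
    d ≤ Real.pi / (2 * w) *
      (1 + (w - 2) / Real.sqrt 3 - 19 / 100 * |Real.sin (Real.pi * (w - 2) / Real.sqrt 3)|) := by
  obtain ⟨C0, h⟩ := mono_count hb hw (H := (w - 2) / 2) (by linarith)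
  have h1 := density_le hw2 h hC hd
  have h3 : 0 < Real.sqrt 3 := Real.sqrt_pos.2 (by norm_num)
  have e1 : (w - 2) / 2 / h0 = (w - 2) / Real.sqrt 3 := by
    unfold h0
    field_simp
  have e2 : Real.pi * ((w - 2) / Real.sqrt 3) = Real.pi * (w - 2) / Real.sqrt 3 := by ring
  rw [e1, e2] at h1
  calc d ≤ _ := h1
    _ = _ := by ring

end Pool.Agent.Strip051
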