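import Pool.Agent.Strip051.Kern.HannDefs

/-! # Basic facts on the functions `hS`, `hk`, `hR` -/

namespace Pool.Agent.Strip051

open Pool.Agent.StripNear Pool.Agent.StripSquare Set MeasureTheory Filter Topology

theorem hasDerivAt_p (u : ℝ) : HasDerivAt (fun u : ℝ => u * (1 - u ^ 2)) (1 - 3 * u ^ 2) u := by
  have h := (hasDerivAt_id' u).mul ((hasDerivAt_pow 2 u).const_sub 1)
  refine h.congr_deriv ?_
  norm_num
  ring

theorem hasDerivAt_q (u : ℝ) : HasDerivAt (fun u : ℝ => 1 - 3 * u ^ 2) (-6 * u) u := by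
  have h := ((hasDerivAt_pow 2 u).const_mul 3).const_sub 1
  refine h.congr_deriv ?_
  norm_num
  ring

theorem hasDerivAt_lin (a u : ℝ) : HasDerivAt (fun u : ℝ => a * u) a u := by
  simpa using (hasDerivAt_id' u).const_mul a

theorem hasDerivAt_D (u : ℝ) :
    HasDerivAt (fun u : ℝ => 1 - 3 / 4 * u ^ 2) (-(3 / 2) * u) u := by
  have h := ((hasDerivAt_pow 2 u).const_mul (3 / 4)).const_sub 1
  refine h.congr_deriv ?_
  norm_num
  ring

/-- The integrand of `hS`. -/
noncomputable def hI (j n : ℕ) (u t : ℝ) : ℝ :=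
  (1 - (-1) ^ j * Real.cos (j * Real.pi * t)) * (j * Real.pi * t) ^ n *
    Real.cos (j * Real.pi * u * t + n * (Real.pi / 2))

theorem hS_eq (j n : ℕ) (u : ℝ) : hS j n u = ∫ t in (0 : ℝ)..1, hI j n u t := rfl

theorem continuous_hI (j n : ℕ) (u : ℝ) : Continuous (hI j n u) := by
  unfold hI
  fun_prop

theorem abs_weight_le (j : ℕ) (t : ℝ) : |1 - (-1) ^ j * Real.cos (j * Real.pi * t)| ≤ 2 := by
  have h1 := abs_le.mp (Real.abs_cos_le_one (j * Real.pi * t))
  rcases neg_one_pow_eq_or ℝ j with h | h <;> rw [h, abs_le] <;> constructor <;> linarith [h1.1, h1.2]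

theorem abs_hI_le (j n : ℕ) (u t : ℝ) (ht : 0 ≤ t) (ht1 : t ≤ 1) :
    |hI j n u t| ≤ 2 * (j * Real.pi) ^ n := by
  unfold hI
  rw [abs_mul, abs_mul]
  have h0 : (0 : ℝ) ≤ j * Real.pi := by positivity
  have h1 := abs_weight_le j t
  have h2 : |(j * Real.pi * t) ^ n| ≤ (j * Real.pi) ^ n := by
    rw [abs_of_nonneg (by positivity)]
    exact pow_le_pow_left₀ (by positivity) (by nlinarith) n
  have h3 := Real.abs_cos_le_one (j * Real.pi * u * t + n * (Real.pi / 2))
  calc |1 - (-1) ^ j * Real.cos (j * Real.pi * t)| * |(j * Real.pi * t) ^ n| *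
      |Real.cos (j * Real.pi * u * t + n * (Real.pi / 2))| ≤
      2 * (j * Real.pi) ^ n * 1 := by gcongr
    _ = _ := by ring

theorem abs_hS_le (j n : ℕ) (u : ℝ) : |hS j n u| ≤ 2 * (j * Real.pi) ^ n := by
  rw [hS_eq]
  have := intervalIntegral.norm_integral_le_of_norm_le_const (a := (0 : ℝ)) (b := 1)
    (f := hI j n u) (C := 2 * (j * Real.pi) ^ n) (by
      intro t ht
      rw [uIoc_of_le zero_le_one] at ht
      exact abs_hI_le j n u t ht.1.le ht.2)
  simpa using this

theorem hasDerivAt_hI (j n : ℕ) (u t : ℝ) :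
    HasDerivAt (fun u => hI j n u t) (hI j (n + 1) u t) u := by
  have h1 : HasDerivAt (fun u : ℝ => j * Real.pi * u * t + n * (Real.pi / 2))
      (j * Real.pi * t) u := by
    have := (((hasDerivAt_id u).const_mul (j * Real.pi)).mul_const t).add_const (n * (Real.pi / 2))
    simpa using this
  have h2 := (h1.cos).const_mul ((1 - (-1) ^ j * Real.cos (j * Real.pi * t)) *
    (j * Real.pi * t) ^ n)
  refine h2.congr_deriv ?_
  unfold hI
  have : j * Real.pi * u * t + ((n + 1 : ℕ) : ℝ) * (Real.pi / 2) =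
    (j * Real.pi * u * t + n * (Real.pi / 2)) + Real.pi / 2 := by
    push_cast
    ring
  rw [this, Real.cos_add_pi_div_two]
  ring

theorem hasDerivAt_hS (j n : ℕ) (u : ℝ) : HasDerivAt (hS j n) (hS j (n + 1) u) u := by
  have := intervalIntegral.hasDerivAt_integral_of_dominated_loc_of_deriv_le (μ := volume)
    (a := (0 : ℝ)) (b := 1) (F := fun u t => hI j n u t) (F' := fun u t => hI j (n + 1) u t)
    (x₀ := u) (s := univ) (bound := fun _ => 2 * (j * Real.pi) ^ (n + 1)) univ_mem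
    (Eventually.of_forall fun v => (continuous_hI j n v).aestronglyMeasurable)
    ((continuous_hI j n u).intervalIntegrable _ _)
    (continuous_hI j (n + 1) u).aestronglyMeasurable
    (Eventually.of_forall fun t ht v _ => by
      rw [uIoc_of_le zero_le_one] at ht
      exact abs_hI_le j (n + 1) v t ht.1.le ht.2)
    (intervalIntegrable_const)
    (Eventually.of_forall fun t _ v _ => hasDerivAt_hI j n v t)
  exact this.2

theorem continuous_hS (j n : ℕ) : Continuous (hS j n) :=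
  continuous_iff_continuousAt.mpr fun u => (hasDerivAt_hS j n u).continuousAt

theorem hS_neg (j n : ℕ) (u : ℝ) : hS j n (-u) = (-1) ^ n * hS j n u := by
  rw [hS_eq, hS_eq, ← intervalIntegral.integral_const_mul]
  congr 1
  funext t
  unfold hI
  have h1 : j * Real.pi * -u * t + n * (Real.pi / 2) =
    -(j * Real.pi * u * t + n * (Real.pi / 2) - n * Real.pi) := by ring
  rw [h1, Real.cos_neg, Real.cos_sub_nat_mul_pi]
  ring

/-- The defining relation. -/
theorem hS_ode0 (j : ℕ) (u : ℝ) :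
    j * Real.pi * (u * (1 - u ^ 2)) * hS j 0 u = Real.sin (j * Real.pi * u) := by
  rw [hS_eq, ← intervalIntegral.integral_const_mul]
  have hc : Real.cos (j * Real.pi) = (-1) ^ j := by
    simpa using Real.cos_nat_mul_pi j
  have hs : Real.sin (j * Real.pi) = 0 := Real.sin_nat_mul_pi j
  have hd : ∀ t : ℝ, HasDerivAt (fun t : ℝ => (1 - u ^ 2) * Real.sin (j * Real.pi * u * t) -
      (-1) ^ j * u * ((1 - u) * Real.sin (j * Real.pi * (1 + u) * t) / 2 +
        (1 + u) * Real.sin (j * Real.pi * (1 - u) * t) / 2))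
      (j * Real.pi * (u * (1 - u ^ 2)) * hI j 0 u t) t := by
    intro t
    have k1 : ∀ a : ℝ, HasDerivAt (fun t : ℝ => Real.sin (a * t)) (Real.cos (a * t) * a) t := by
      intro a
      have := ((hasDerivAt_id t).const_mul a).sin
      simpa using this
    have k2 := ((k1 (j * Real.pi * u)).const_mul (1 - u ^ 2)).sub
      (((((k1 (j * Real.pi * (1 + u))).const_mul (1 - u)).div_const 2).add
        (((k1 (j * Real.pi * (1 - u))).const_mul (1 + u)).div_const 2)).const_mul ((-1) ^ j * u))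
    refine k2.congr_deriv ?_
    have e1 : j * Real.pi * (1 + u) * t = j * Real.pi * t + j * Real.pi * u * t := by ring
    have e2 : j * Real.pi * (1 - u) * t = j * Real.pi * t - j * Real.pi * u * t := by ring
    rw [e1, e2, Real.cos_add, Real.cos_sub]
    unfold hI
    simp only [pow_zero, Nat.cast_zero, zero_mul, add_zero]
    ring
  rw [intervalIntegral.integral_eq_sub_of_hasDerivAt (fun t _ => hd t)
    (((continuous_hI j 0 u).const_mul _).intervalIntegrable _ _)]
  have e1 : j * Real.pi * (1 + u) * 1 = j * Real.pi + j * Real.pi * u := by ring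
  have e2 : j * Real.pi * (1 - u) * 1 = j * Real.pi - j * Real.pi * u := by ring
  rw [e1, e2, Real.sin_add, Real.sin_sub, hc, hs]
  simp only [mul_zero, Real.sin_zero, mul_one]
  have h2 : ((-1 : ℝ) ^ j) * (-1) ^ j = 1 := by
    rw [← mul_pow]
    norm_num
  linear_combination (u ^ 2 * Real.sin (j * Real.pi * u)) * h2

theorem hS_ode1 {j : ℕ} (hj : 1 ≤ j) (u : ℝ) :
    (1 - 3 * u ^ 2) * hS j 0 u + u * (1 - u ^ 2) * hS j 1 u = Real.cos (j * Real.pi * u) := by
  have hp := hasDerivAt_p u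
  have h1 : HasDerivAt (fun u => j * Real.pi * (u * (1 - u ^ 2)) * hS j 0 u)
      (j * Real.pi * (1 - 3 * u ^ 2) * hS j 0 u + j * Real.pi * (u * (1 - u ^ 2)) * hS j 1 u) u :=
    (hp.const_mul (j * Real.pi)).mul (hasDerivAt_hS j 0 u)
  have h2 : HasDerivAt (fun u : ℝ => Real.sin (j * Real.pi * u))
      (Real.cos (j * Real.pi * u) * (j * Real.pi)) u := by
    have := ((hasDerivAt_id u).const_mul (j * Real.pi)).sin
    simpa using this
  have h3 : (fun u => j * Real.pi * (u * (1 - u ^ 2)) * hS j 0 u) =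
    fun u : ℝ => Real.sin (j * Real.pi * u) := funext fun u => hS_ode0 j u
  rw [h3] at h1
  have h4 := h1.unique h2
  have h5 : (j : ℝ) * Real.pi ≠ 0 := by
    have : (1 : ℝ) ≤ j := by exact_mod_cast hj
    positivity
  apply mul_left_cancel₀ h5
  linear_combination h4

theorem hS_ode2 {j : ℕ} (hj : 1 ≤ j) (u : ℝ) :
    -6 * u * hS j 0 u + 2 * (1 - 3 * u ^ 2) * hS j 1 u + u * (1 - u ^ 2) * hS j 2 u =
      -(j * Real.pi * Real.sin (j * Real.pi * u)) := by
  have hp := hasDerivAt_p u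
  have hq := hasDerivAt_q u
  have h1 := (hq.mul (hasDerivAt_hS j 0 u)).add (hp.mul (hasDerivAt_hS j 1 u))
  have h2 : HasDerivAt (fun u : ℝ => Real.cos (j * Real.pi * u))
      (-Real.sin (j * Real.pi * u) * (j * Real.pi)) u := by
    have := ((hasDerivAt_id u).const_mul (j * Real.pi)).cos
    simpa using this
  have h3 : (fun u => (1 - 3 * u ^ 2) * hS j 0 u + u * (1 - u ^ 2) * hS j 1 u) =
    fun u : ℝ => Real.cos (j * Real.pi * u) := funext fun u => hS_ode1 hj u
  have h4 := HasDerivAt.unique (h1 : HasDerivAt (fun u => (1 - 3 * u ^ 2) * hS j 0 u +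
    u * (1 - u ^ 2) * hS j 1 u) _ u) (h3 ▸ h2)
  linear_combination h4

theorem hS_ode3 {j : ℕ} (hj : 1 ≤ j) (u : ℝ) :
    -6 * hS j 0 u - 18 * u * hS j 1 u + 3 * (1 - 3 * u ^ 2) * hS j 2 u +
      u * (1 - u ^ 2) * hS j 3 u = -((j * Real.pi) ^ 2 * Real.cos (j * Real.pi * u)) := by
  have hp := hasDerivAt_p u
  have hq := (hasDerivAt_q u).const_mul 2
  have hr := hasDerivAt_lin (-6) u
  have h1 := ((hr.mul (hasDerivAt_hS j 0 u)).add (hq.mul (hasDerivAt_hS j 1 u))).add
    (hp.mul (hasDerivAt_hS j 2 u))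
  have h2 : HasDerivAt (fun u : ℝ => -(j * Real.pi * Real.sin (j * Real.pi * u)))
      (-(j * Real.pi * (Real.cos (j * Real.pi * u) * (j * Real.pi)))) u :=
    ((hasDerivAt_lin (j * Real.pi) u).sin.const_mul (j * Real.pi)).neg
  have h3 : (fun u => -6 * u * hS j 0 u + 2 * (1 - 3 * u ^ 2) * hS j 1 u +
      u * (1 - u ^ 2) * hS j 2 u) =
    fun u : ℝ => -(j * Real.pi * Real.sin (j * Real.pi * u)) := funext fun u => hS_ode2 hj u
  have h4 := HasDerivAt.unique (h1 : HasDerivAt (fun u => -6 * u * hS j 0 u +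
    2 * (1 - 3 * u ^ 2) * hS j 1 u + u * (1 - u ^ 2) * hS j 2 u) _ u) (h3 ▸ h2)
  linear_combination h4

theorem hS_zero_zero {j : ℕ} (hj : 1 ≤ j) : hS j 0 0 = 1 := by
  simpa using hS_ode1 hj 0

theorem hS_zero_one {j : ℕ} (hj : 1 ≤ j) : hS j 0 1 = -((-1) ^ j / 2) := by
  have h1 := hS_ode1 hj 1
  have hc : Real.cos (j * Real.pi * 1) = (-1) ^ j := by
    simpa using Real.cos_nat_mul_pi j
  rw [hc] at h1
  linarith

theorem hS_odd_zero (j : ℕ) {n : ℕ} (hn : Odd n) : hS j n 0 = 0 := by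
  have h1 := hS_neg j n 0
  rw [neg_zero, hn.neg_one_pow] at h1
  linarith

theorem hS_two_zero {j : ℕ} (hj : 1 ≤ j) : hS j 2 0 = 2 - (j * Real.pi) ^ 2 / 3 := by
  have h1 := hS_ode3 hj 0
  rw [hS_zero_zero hj] at h1
  simp at h1
  linarith

theorem hk_zero (j : ℕ) (u : ℝ) : hk j 0 u = (1 - 3 * u ^ 2) * hS j 0 u := by
  unfold hk
  simp

theorem hasDerivAt_hk (j n : ℕ) (u : ℝ) : HasDerivAt (hk j n) (hk j (n + 1) u) u := by
  have hq := hasDerivAt_q u
  have hr := fun a : ℝ => hasDerivAt_lin a u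
  match n with
  | 0 =>
    have h1 := hq.mul (hasDerivAt_hS j 0 u)
    have h2 : hk j 0 = fun u => (1 - 3 * u ^ 2) * hS j 0 u := funext fun u => hk_zero j u
    rw [h2]
    refine h1.congr_deriv ?_
    unfold hk
    norm_num
    ring
  | 1 =>
    have h1 := (hq.mul (hasDerivAt_hS j 1 u)).sub ((hr 6).mul (hasDerivAt_hS j 0 u))
    have h2 : hk j 1 = fun u => (1 - 3 * u ^ 2) * hS j 1 u - 6 * u * hS j 0 u := by
      funext u
      unfold hk
      norm_num
    rw [h2]
    refine h1.congr_deriv ?_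
    unfold hk
    norm_num
    ring
  | (m + 2) =>
    have h1 := ((hq.mul (hasDerivAt_hS j (m + 2) u)).sub
      ((hr (6 * ((m + 2 : ℕ) : ℝ))).mul (hasDerivAt_hS j (m + 1) u))).sub
      ((hasDerivAt_hS j m u).const_mul (3 * ((m + 2 : ℕ) : ℝ) * (((m + 2 : ℕ) : ℝ) - 1)))
    refine h1.congr_deriv ?_
    unfold hk
    have e1 : m + 2 + 1 - 1 = m + 2 := by omega
    have e2 : m + 2 + 1 - 2 = m + 1 := by omega
    rw [e1, e2]
    push_cast
    ring

theorem continuous_hk (j n : ℕ) : Continuous (hk j n) :=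
  continuous_iff_continuousAt.mpr fun u => (hasDerivAt_hk j n u).continuousAt

theorem hk_neg (j n : ℕ) (u : ℝ) : hk j n (-u) = (-1) ^ n * hk j n u := by
  unfold hk
  rw [hS_neg, hS_neg, hS_neg]
  match n with
  | 0 => simp
  | 1 =>
    norm_num
    ring
  | (m + 2) =>
    have e1 : m + 2 - 1 = m + 1 := by omega
    have e2 : m + 2 - 2 = m := by omega
    rw [e1, e2]
    push_cast
    ring

theorem hasDerivAt_hR (j : ℕ) (u : ℝ) : HasDerivAt (hR j) (hR1 j u) u := by
  have hD := hasDerivAt_D u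
  have h2u := hasDerivAt_lin 2 u
  have h0 := hasDerivAt_hk j 0 u
  have h1 := hasDerivAt_hk j 1 u
  have h2 := hasDerivAt_hk j 2 u
  have h := (h0.add ((h2u.mul hD).mul h1)).sub
    (((hD.pow 2).const_mul (4 / 3)).mul ((h0.const_mul ((j * Real.pi) ^ 2)).add h2))
  refine h.congr_deriv ?_
  unfold hR1
  simp only [Nat.reduceAdd, Pi.mul_apply, Pi.add_apply, Pi.pow_apply]
  norm_num
  ring

theorem continuous_hR (j : ℕ) : Continuous (hR j) :=
  continuous_iff_continuousAt.mpr fun u => (hasDerivAt_hR j u).continuousAt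

theorem continuous_hR1 (j : ℕ) : Continuous (hR1 j) := by
  unfold hR1
  have h0 := continuous_hk j 0
  have h1 := continuous_hk j 1
  have h2 := continuous_hk j 2
  have h3 := continuous_hk j 3
  fun_prop

theorem hR_neg (j : ℕ) (u : ℝ) : hR j (-u) = hR j u := by
  unfold hR
  rw [hk_neg, hk_neg, hk_neg]
  ring

theorem hR1_neg (j : ℕ) (u : ℝ) : hR1 j (-u) = -hR1 j u := by
  unfold hR1
  rw [hk_neg, hk_neg, hk_neg, hk_neg]
  ring

theorem hR_zero {j : ℕ} (hj : 1 ≤ j) : hR j 0 = 19 / 3 - 8 / 9 * (j * Real.pi) ^ 2 := by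
  have h2 : hk j 2 0 = hS j 2 0 - 6 := by
    unfold hk
    norm_num
    rw [hS_zero_zero hj]
  have h0 : hk j 0 0 = 1 := by
    rw [hk_zero, hS_zero_zero hj]
    norm_num
  unfold hR
  rw [h2, h0, hS_two_zero hj]
  ring

end Pool.Agent.Strip051
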