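import Pool.Agent.Strip051.Kern.Hann

/-! # The monotonicity inequality `HannBox`

The functions `hS j m` are replaced by the derivatives of an explicit integer polynomial, with an
error controlled by the Taylor formula at zero.  On each of seven intervals the amplitudes are
close to affine functions, and at the end points the resulting trigonometric polynomial is a
square up to a small error, which the kernel verifies. -/

namespace Pool.Agent.Strip051

open Pool.Agent.StripNear Pool.Agent.StripSquare Set MeasureTheory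

/-! ### Values at zero -/

private noncomputable def hbJ (j n : ℕ) : ℝ :=
  ∫ t in (0 : ℝ)..1, (1 - (-1) ^ j * Real.cos (j * Real.pi * t)) * (j * Real.pi * t) ^ n

private theorem hb_hS (j k : ℕ) : hS j (2 * k) 0 = (-1) ^ k * hbJ j (2 * k) := by
  unfold hS hbJ
  rw [← intervalIntegral.integral_const_mul]
  congr 1
  funext t
  have : (j : ℝ) * Real.pi * 0 * t + ((2 * k : ℕ) : ℝ) * (Real.pi / 2) = k * Real.pi := by
    push_cast
    ring
  rw [this, Real.cos_nat_mul_pi]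
  ring

private theorem hb_pow (a t : ℝ) (n : ℕ) :
    HasDerivAt (fun t : ℝ => (a * t) ^ (n + 1)) ((n + 1) * (a * t) ^ n * a) t := by
  have h := (hasDerivAt_lin a t).pow (n + 1)
  refine h.congr_deriv ?_
  push_cast
  simp

private theorem hb_J (j n : ℕ) (hj : 1 ≤ j) :
    hbJ j (n + 2) = (j * Real.pi) ^ (n + 2) / (n + 3) - (n + 2) * (n + 1) * hbJ j n := by
  set a : ℝ := j * Real.pi with ha
  have hj0 : (0 : ℝ) < j := by exact_mod_cast hj
  have ha0 : a ≠ 0 := by positivity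
  have hsin : Real.sin a = 0 := Real.sin_nat_mul_pi j
  have hcos : Real.cos a = (-1) ^ j := Real.cos_nat_mul_pi j
  have hsq : ((-1 : ℝ) ^ j) * (-1) ^ j = 1 := by rw [← pow_add, ← two_mul]; simp
  have key : (∫ t in (0 : ℝ)..1, ((1 - (-1) ^ j * Real.cos (a * t)) * (a * t) ^ (n + 2) +
      (n + 2) * (n + 1) * ((1 - (-1) ^ j * Real.cos (a * t)) * (a * t) ^ n))) =
      a ^ (n + 2) / (n + 3) := by
    rw [intervalIntegral.integral_eq_sub_of_hasDerivAt (f := fun t : ℝ =>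
      (a * t) ^ (n + 3) / ((n + 3) * a) + (n + 2) * (a * t) ^ (n + 1) / a -
      (-1) ^ j * ((a * t) ^ (n + 2) * Real.sin (a * t) / a +
      (n + 2) * ((a * t) ^ (n + 1) * Real.cos (a * t)) / a))]
    · simp only [mul_one, mul_zero, hsin, hcos, Real.sin_zero, Real.cos_zero]
      have h3 : ((n : ℝ) + 3) ≠ 0 := by positivity
      field_simp
      linear_combination (-(n + 2) * (n + 3) * a ^ (n + 1)) * hsq
    · intro t _
      have e1 := ((hb_pow a t (n + 2)).div_const ((n + 3) * a))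
      have e2 := ((hb_pow a t n).const_mul ((n : ℝ) + 2)).div_const a
      have e3 := ((hb_pow a t (n + 1)).mul ((hasDerivAt_lin a t).sin)).div_const a
      have e4 := (((hb_pow a t n).mul ((hasDerivAt_lin a t).cos)).const_mul ((n : ℝ) + 2)).div_const a
      refine ((e1.add e2).sub ((e3.add e4).const_mul ((-1 : ℝ) ^ j))).congr_deriv ?_
      push_cast
      have h3 : ((n : ℝ) + 3) ≠ 0 := by positivity
      field_simp
      ring
    · apply Continuous.intervalIntegrable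
      fun_prop
  rw [intervalIntegral.integral_add, intervalIntegral.integral_const_mul] at key
  · unfold hbJ
    linarith
  · apply Continuous.intervalIntegrable
    fun_prop
  · apply Continuous.intervalIntegrable
    fun_prop

private noncomputable def hbp (j k : ℕ) : ℝ := hS j (2 * k) 0 / (2 * k).factorial

private theorem hbp_zero {j : ℕ} (hj : 1 ≤ j) : hbp j 0 = 1 := by
  simp [hbp, hS_zero_zero hj]

private theorem hbp_succ {j : ℕ} (hj : 1 ≤ j) (k : ℕ) :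
    hbp j (k + 1) = hbp j k +
      (-1) ^ (k + 1) * ((j * Real.pi) ^ 2) ^ (k + 1) / (2 * (k + 1) + 1).factorial := by
  unfold hbp
  rw [hb_hS, hb_hS]
  have h := hb_J j (2 * k) hj
  have e : 2 * (k + 1) = 2 * k + 2 := by ring
  rw [e, h]
  have f1 : ((2 * k + 2).factorial : ℝ) = (2 * k + 2) * ((2 * k + 1) * (2 * k).factorial) := by
    rw [Nat.factorial_succ, Nat.factorial_succ]; push_cast; ring
  have f2 : ((2 * k + 2 + 1).factorial : ℝ) =
      (2 * k + 3) * ((2 * k + 2) * ((2 * k + 1) * (2 * k).factorial)) := by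
    rw [Nat.factorial_succ, Nat.factorial_succ, Nat.factorial_succ]; push_cast; ring
  rw [f1, f2, ← pow_mul, e]
  have : ((2 * k).factorial : ℝ) ≠ 0 := by positivity
  have h1 : (2 * (k : ℝ) + 1) ≠ 0 := by positivity
  have h2 : (2 * (k : ℝ) + 2) ≠ 0 := by positivity
  have h3 : (2 * (k : ℝ) + 3) ≠ 0 := by positivity
  push_cast
  field_simp
  ring

/-! ### The Taylor chain -/

private noncomputable def hbB (δ C : ℝ) (r m : ℕ) (u : ℝ) : ℝ :=
  C * u ^ r / r.factorial +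
    δ * ∑ n ∈ Finset.range r, ((n + m).factorial / n.factorial : ℝ) * u ^ n

private theorem hb_pow_id (t : ℝ) (n : ℕ) :
    HasDerivAt (fun t : ℝ => t ^ (n + 1)) ((n + 1) * t ^ n) t := by
  refine (hasDerivAt_pow (n + 1) t).congr_deriv ?_
  push_cast
  simp

private theorem hbB_deriv (δ C : ℝ) (r m : ℕ) (u : ℝ) :
    HasDerivAt (hbB δ C (r + 1) m) (hbB δ C r (m + 1) u) u := by
  have h1 : HasDerivAt (fun u : ℝ => C * u ^ (r + 1) / (r + 1).factorial)
      (C * u ^ r / r.factorial) u := by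
    refine (((hb_pow_id u r).const_mul C).div_const _).congr_deriv ?_
    rw [Nat.factorial_succ]
    have : (r.factorial : ℝ) ≠ 0 := by positivity
    have h3 : ((r : ℝ) + 1) ≠ 0 := by positivity
    push_cast
    field_simp
  have h2 : HasDerivAt (fun u : ℝ => ∑ n ∈ Finset.range (r + 1),
      ((n + m).factorial / n.factorial : ℝ) * u ^ n)
      (∑ n ∈ Finset.range r, ((n + (m + 1)).factorial / n.factorial : ℝ) * u ^ n) u := by
    have e : (fun u : ℝ => ∑ n ∈ Finset.range (r + 1),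
        ((n + m).factorial / n.factorial : ℝ) * u ^ n) = fun u : ℝ =>
        (∑ n ∈ Finset.range r, ((n + 1 + m).factorial / (n + 1).factorial : ℝ) * u ^ (n + 1)) +
        ((0 + m).factorial / (0 : ℕ).factorial : ℝ) * u ^ 0 := by
      funext u
      rw [Finset.sum_range_succ']
    rw [e]
    have h3 : HasDerivAt (fun u : ℝ => ∑ n ∈ Finset.range r,
        ((n + 1 + m).factorial / (n + 1).factorial : ℝ) * u ^ (n + 1))
        (∑ n ∈ Finset.range r, ((n + (m + 1)).factorial / n.factorial : ℝ) * u ^ n) u := by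
      have := HasDerivAt.fun_sum (u := Finset.range r) (A := fun n (u : ℝ) =>
        ((n + 1 + m).factorial / (n + 1).factorial : ℝ) * u ^ (n + 1))
        (A' := fun n => ((n + 1 + m).factorial / (n + 1).factorial : ℝ) * ((n + 1) * u ^ n))
        (x := u) (fun n _ => (hb_pow_id u n).const_mul _)
      refine this.congr_deriv (Finset.sum_congr rfl fun n _ => ?_)
      have e2 : n + (m + 1) = n + 1 + m := by ring
      rw [e2, Nat.factorial_succ n]
      have : (n.factorial : ℝ) ≠ 0 := by positivity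
      have h3 : ((n : ℝ) + 1) ≠ 0 := by positivity
      push_cast
      field_simp
    simpa using h3.add_const (m.factorial : ℝ)
  exact h1.add (h2.const_mul δ)

private theorem hb_mono (f f' : ℝ → ℝ) (hf : ∀ u, HasDerivAt f (f' u) u)
    (h0 : 0 ≤ f 0) (h1 : ∀ u, 0 ≤ u → 0 ≤ f' u) (u : ℝ) (hu : 0 ≤ u) : 0 ≤ f u := by
  have h : MonotoneOn f (Ici 0) := by
    apply monotoneOn_of_deriv_nonneg (convex_Ici 0)
    · exact fun x _ => (hf x).continuousAt.continuousWithinAt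
    · exact fun x _ => (hf x).differentiableAt.differentiableWithinAt
    · intro x hx
      rw [interior_Ici] at hx
      rw [(hf x).deriv]
      exact h1 x (le_of_lt hx)
  exact h0.trans (h (mem_Ici.mpr le_rfl) (mem_Ici.mpr hu) hu)

private theorem hb_chain (h : ℕ → ℝ → ℝ) (hd : ∀ m u, HasDerivAt (h m) (h (m + 1) u) u)
    (N : ℕ) (C δ : ℝ) (hC : ∀ u, |h N u| ≤ C) (h0 : ∀ i < N, |h i 0| ≤ i.factorial * δ) :
    ∀ r m, m + r = N → ∀ u, 0 ≤ u → |h m u| ≤ hbB δ C r m u := by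
  intro r
  induction r with
  | zero =>
    intro m hm u _
    simp only [add_zero] at hm
    subst hm
    simpa [hbB] using hC u
  | succ r ih =>
    intro m hm u hu
    have ih' := ih (m + 1) (by omega)
    have hb := abs_le.mp (h0 m (by omega))
    have e0 : hbB δ C (r + 1) m 0 = m.factorial * δ := by
      unfold hbB
      rw [Finset.sum_range_succ']
      simp
      ring
    rw [abs_le]
    constructor
    · have := hb_mono (fun u => hbB δ C (r + 1) m u + h m u)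
        (fun u => hbB δ C r (m + 1) u + h (m + 1) u)
        (fun u => (hbB_deriv δ C r m u).add (hd m u)) (by
          simp only [e0]; linarith [hb.1])
        (fun v hv => by have := (abs_le.mp (ih' v hv)).1; linarith) u hu
      linarith
    · have := hb_mono (fun u => hbB δ C (r + 1) m u - h m u)
        (fun u => hbB δ C r (m + 1) u - h (m + 1) u)
        (fun u => (hbB_deriv δ C r m u).sub (hd m u)) (by
          simp only [e0]; linarith [hb.2])
        (fun v hv => by have := (abs_le.mp (ih' v hv)).2; linarith) u hu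
      linarith

private theorem hbB_le {δ C : ℝ} (hδ : 0 ≤ δ) (hC : 0 ≤ C) {r m : ℕ} (hr : r ≤ 46) (hm : m ≤ 3)
    (hrm : r + m ≤ 46) {u : ℝ} (hu : 0 ≤ u) (hu1 : u ≤ 7 / 6) :
    hbB δ C r m u ≤ C * (7 / 6) ^ r / r.factorial + δ * (62 * 10 ^ 8) := by
  unfold hbB
  have h1 : C * u ^ r / r.factorial ≤ C * (7 / 6) ^ r / r.factorial := by gcongr
  have h2 : ∑ n ∈ Finset.range r, ((n + m).factorial / n.factorial : ℝ) * u ^ n ≤
      62 * 10 ^ 8 := by
    have h3 : ∀ n ∈ Finset.range r, ((n + m).factorial / n.factorial : ℝ) * u ^ n ≤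
        110592 * 1210 := by
      intro n hn
      rw [Finset.mem_range] at hn
      have h4 : ((n + m).factorial / n.factorial : ℝ) ≤ 110592 := by
        rw [div_le_iff₀ (by positivity), ← Nat.factorial_mul_ascFactorial]
        have h5 : (n + 1).ascFactorial m ≤ 110592 := by
          refine (Nat.ascFactorial_le_pow_add n m).trans ?_
          calc (n + m) ^ m ≤ 48 ^ m := Nat.pow_le_pow_left (by omega) m
            _ ≤ 48 ^ 3 := Nat.pow_le_pow_right (by norm_num) hm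
            _ = 110592 := by norm_num
        have h6 : (((n + 1).ascFactorial m : ℕ) : ℝ) ≤ 110592 := by exact_mod_cast h5
        push_cast
        rw [mul_comm]
        gcongr
      have h7 : u ^ n ≤ 1210 := by
        calc u ^ n ≤ (7 / 6) ^ n := by gcongr
          _ ≤ (7 / 6) ^ 46 := pow_le_pow_right₀ (by norm_num) (by omega)
          _ ≤ 1210 := by norm_num
      have : (0 : ℝ) ≤ u ^ n := by positivity
      gcongr
    refine (Finset.sum_le_card_nsmul _ _ _ h3).trans ?_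
    rw [Finset.card_range, nsmul_eq_mul]
    have : (r : ℝ) ≤ 46 := by exact_mod_cast hr
    nlinarith
  have h3 := mul_le_mul_of_nonneg_left h2 hδ
  linarith

/-! ### Integer lists as polynomials -/

private noncomputable def hbEv : List ℤ → ℝ → ℝ
  | [], _ => 0
  | c :: l, u => c + u * hbEv l u

private noncomputable def hbEd : List ℤ → ℝ → ℝ
  | [], _ => 0
  | _ :: l, u => hbEv l u + u * hbEd l u

private def hbAdd : List ℤ → List ℤ → List ℤ
  | [], m => m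
  | c :: l, [] => c :: l
  | c :: l, d :: m => (c + d) :: hbAdd l m

private def hbSm (a : ℤ) : List ℤ → List ℤ
  | [] => []
  | c :: l => (a * c) :: hbSm a l

private def hbMul : List ℤ → List ℤ → List ℤ
  | [], _ => []
  | c :: l, m => hbAdd (hbSm c m) (0 :: hbMul l m)

private def hbDa : ℤ → List ℤ → List ℤ
  | _, [] => []
  | k, c :: l => (k * c) :: hbDa (k + 1) l

private def hbDv : List ℤ → List ℤ
  | [] => []
  | _ :: l => hbDa 1 l

private def hbMl (n : ℤ) : ℤ → List ℤ → List ℤ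
  | c, [] => [c]
  | c, d :: m => (c + n * d) :: hbMl n d m

private def hbSh (n : ℤ) : List ℤ → List ℤ
  | [] => []
  | c :: l => hbMl n (c * 12 ^ (l.length + 1)) (hbSh n l)

private def hbSab : List ℤ → ℤ
  | [] => 0
  | c :: l => (c.natAbs : ℤ) + hbSab l

private theorem hbEv_add (l m : List ℤ) (u : ℝ) :
    hbEv (hbAdd l m) u = hbEv l u + hbEv m u := by
  induction l generalizing m with
  | nil => simp [hbAdd, hbEv]
  | cons c l ih =>
    cases m with
    | nil => simp [hbAdd, hbEv]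
    | cons d m =>
      simp only [hbAdd, hbEv, ih]
      push_cast
      ring

private theorem hbEv_sm (a : ℤ) (l : List ℤ) (u : ℝ) : hbEv (hbSm a l) u = a * hbEv l u := by
  induction l with
  | nil => simp [hbSm, hbEv]
  | cons c l ih =>
    simp only [hbSm, hbEv, ih]
    push_cast
    ring

private theorem hbEv_mul (l m : List ℤ) (u : ℝ) : hbEv (hbMul l m) u = hbEv l u * hbEv m u := by
  induction l with
  | nil => simp [hbMul, hbEv]
  | cons c l ih =>
    simp only [hbMul, hbEv, hbEv_add, hbEv_sm, ih]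
    push_cast
    ring

private theorem hbEv_deriv (l : List ℤ) (u : ℝ) : HasDerivAt (hbEv l) (hbEd l u) u := by
  induction l with
  | nil => exact hasDerivAt_const u 0
  | cons c l ih =>
    refine (((hasDerivAt_id' u).mul ih).const_add (c : ℝ)).congr_deriv ?_
    simp [hbEd]

private theorem hbEv_da (k : ℤ) (l : List ℤ) (u : ℝ) :
    hbEv (hbDa k l) u = k * hbEv l u + u * hbEd l u := by
  induction l generalizing k with
  | nil => simp [hbDa, hbEv, hbEd]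
  | cons c l ih =>
    simp only [hbDa, hbEv, hbEd, ih]
    push_cast
    ring

private theorem hbEv_dv (l : List ℤ) (u : ℝ) : HasDerivAt (hbEv l) (hbEv (hbDv l) u) u := by
  refine (hbEv_deriv l u).congr_deriv ?_
  cases l with
  | nil => simp [hbDv, hbEv, hbEd]
  | cons c l => simp [hbDv, hbEd, hbEv_da]

private theorem hbEv_ml (n c : ℤ) (m : List ℤ) (w : ℝ) :
    hbEv (hbMl n c m) w = c + (n + w) * hbEv m w := by
  induction m generalizing c with
  | nil => simp [hbMl, hbEv]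
  | cons d m ih =>
    simp only [hbMl, hbEv, ih]
    push_cast
    ring

private theorem hbEv_sh (n : ℤ) (l : List ℤ) (w : ℝ) :
    hbEv (hbSh n l) w = 12 ^ l.length * hbEv l ((n + w) / 12) := by
  induction l with
  | nil => simp [hbSh, hbEv]
  | cons c l ih =>
    simp only [hbSh, hbEv, hbEv_ml, ih, List.length_cons]
    push_cast
    ring

private theorem hbEv_abs (l : List ℤ) (w : ℝ) (hw : |w| ≤ 1) : |hbEv l w| ≤ hbSab l := by
  induction l with
  | nil => simp [hbEv, hbSab]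
  | cons c l ih =>
    simp only [hbEv, hbSab]
    push_cast
    have h1 : |w * hbEv l w| ≤ 1 * hbSab l := by
      rw [abs_mul]
      gcongr
    have h2 := abs_add_le (c : ℝ) (w * hbEv l w)
    linarith

private theorem hbEv_zero (l : List ℤ) : hbEv l 0 = (l.getD 0 0 : ℤ) := by
  cases l <;> simp [hbEv]

private theorem hb_getD_da (k : ℤ) (l : List ℤ) (i : ℕ) :
    (hbDa k l).getD i 0 = (k + i) * l.getD i 0 := by
  induction l generalizing k i with
  | nil => simp [hbDa]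
  | cons c l ih =>
    cases i with
    | zero => simp [hbDa]
    | succ i =>
      simp only [hbDa, List.getD_cons_succ, ih]
      push_cast
      ring

private theorem hb_getD_dv (l : List ℤ) (i : ℕ) :
    (hbDv l).getD i 0 = (i + 1) * l.getD (i + 1) 0 := by
  cases l with
  | nil => simp [hbDv]
  | cons c l =>
    simp only [hbDv, List.getD_cons_succ, hb_getD_da]
    ring

private theorem hb_getD_iter (m : ℕ) (l : List ℤ) (i : ℕ) :
    (i.factorial : ℤ) * (hbDv^[m] l).getD i 0 = ((i + m).factorial : ℤ) * l.getD (i + m) 0 := by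
  induction m generalizing i with
  | zero => simp
  | succ m ih =>
    rw [Function.iterate_succ_apply', hb_getD_dv]
    have h := ih (i + 1)
    rw [Nat.factorial_succ] at h
    have e : i + 1 + m = i + (m + 1) := by ring
    rw [e] at h
    rw [← h]
    push_cast
    ring

private theorem hb_length_da (k : ℤ) (l : List ℤ) : (hbDa k l).length = l.length := by
  induction l generalizing k with
  | nil => simp [hbDa]
  | cons c l ih => simp [hbDa, ih]

private theorem hb_length_iter (m : ℕ) (l : List ℤ) :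
    (hbDv^[m] l).length = l.length - m := by
  induction m with
  | zero => simp
  | succ m ih =>
    rw [Function.iterate_succ_apply']
    cases h : hbDv^[m] l with
    | nil =>
      rw [h] at ih
      simp only [List.length_nil] at ih
      simp only [hbDv, List.length_nil]
      omega
    | cons c t =>
      rw [h] at ih
      simp only [List.length_cons] at ih
      simp only [hbDv, hb_length_da]
      omega

/-! ### The integer polynomials -/

private def hbX : ℕ := 986960440108935861883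

private def hbT (X l : ℕ) : ℤ :=
  (-1) ^ l * ((X ^ l * 10 ^ 20 / ((2 * l + 1).factorial * 10 ^ (20 * l)) : ℕ) : ℤ)

private def hbP (X : ℕ) : ℕ → ℤ
  | 0 => 10 ^ 20
  | k + 1 => hbP X k + hbT X (k + 1)

private def hbL (X : ℕ) : ℕ → ℕ → List ℤ
  | k, 0 => [hbP X k]
  | k, r + 1 => hbP X k :: 0 :: hbL X (k + 1) r

private def hbK : ℕ → ℕ
  | 1 => 12
  | 2 => 18
  | _ => 22

private def hbPl (j : ℕ) : List ℤ := hbL (j ^ 2 * hbX) 0 (hbK j)

private theorem hb_sq_pi : |Real.pi ^ 2 * 10 ^ 20 - hbX| ≤ 7 := by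
  have h1 := Real.pi_gt_d20
  have h2 := Real.pi_lt_d20
  have e : (hbX : ℝ) = 986960440108935861883 := by norm_num [hbX]
  rw [e, abs_le]
  constructor <;> nlinarith

private theorem hb_T_err {x : ℝ} {X : ℕ} (hx0 : 0 ≤ x) (hx : x ≤ 89)
    (hX : (X : ℝ) ≤ 89 * 10 ^ 20) (h : |x * 10 ^ 20 - X| ≤ 63) {l : ℕ} (hl : l ≤ 22) :
    |(-1) ^ l * x ^ l / (2 * l + 1).factorial * 10 ^ 20 - hbT X l| ≤ 631 := by
  have hf : (0 : ℝ) < (2 * l + 1).factorial := by positivity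
  obtain ⟨y, hy⟩ : ∃ y : ℝ, y = X / 10 ^ 20 := ⟨_, rfl⟩
  have hy0 : 0 ≤ y := by rw [hy]; positivity
  have hy1 : y ≤ 89 := by rw [hy, div_le_iff₀ (by positivity)]; exact hX
  have hxy : |x - y| ≤ 63 / 10 ^ 20 := by
    have e : x - y = (x * 10 ^ 20 - X) / 10 ^ 20 := by rw [hy]; field_simp
    rw [e, abs_div, abs_of_pos (by positivity : (0 : ℝ) < 10 ^ 20)]
    gcongr
  -- the exact value at `y`
  have h1 : |x ^ l - y ^ l| ≤ 63 / 10 ^ 20 * (l * 89 ^ (l - 1)) := by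
    refine (abs_pow_sub_pow_le x y l).trans ?_
    rw [abs_of_nonneg hx0, abs_of_nonneg hy0, mul_assoc]
    have : max x y ≤ 89 := max_le hx hy1
    have h0 : 0 ≤ max x y := le_max_of_le_left hx0
    gcongr
  have h2 : (l : ℝ) * 89 ^ (l - 1) ≤ 10 * (2 * l + 1).factorial := by
    have : ∀ l < 23, l * 89 ^ (l - 1) ≤ 10 * (2 * l + 1).factorial := by decide +kernel
    exact_mod_cast this l (by omega)
  have h3 : |x ^ l / (2 * l + 1).factorial * 10 ^ 20 -
      y ^ l / (2 * l + 1).factorial * 10 ^ 20| ≤ 630 := by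
    have e : x ^ l / (2 * l + 1).factorial * 10 ^ 20 - y ^ l / (2 * l + 1).factorial * 10 ^ 20 =
      (x ^ l - y ^ l) * (10 ^ 20 / (2 * l + 1).factorial) := by ring
    rw [e, abs_mul, abs_of_pos (by positivity : (0 : ℝ) < 10 ^ 20 / (2 * l + 1).factorial)]
    calc |x ^ l - y ^ l| * (10 ^ 20 / (2 * l + 1).factorial) ≤
        63 / 10 ^ 20 * (10 * (2 * l + 1).factorial) * (10 ^ 20 / (2 * l + 1).factorial) := by
          gcongr
          exact h1.trans (by gcongr)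
      _ = 630 := by field_simp; norm_num
  obtain ⟨a, ha⟩ : ∃ a, a = X ^ l * 10 ^ 20 := ⟨_, rfl⟩
  obtain ⟨b, hb⟩ : ∃ b, b = (2 * l + 1).factorial * 10 ^ (20 * l) := ⟨_, rfl⟩
  have hb0 : 0 < b := by rw [hb]; positivity
  have h4 : y ^ l / (2 * l + 1).factorial * 10 ^ 20 = (a : ℝ) / b := by
    rw [ha, hb, hy]
    push_cast
    rw [div_pow, ← pow_mul]
    field_simp
    norm_num
  have h5 : |y ^ l / (2 * l + 1).factorial * 10 ^ 20 - ((a / b : ℕ) : ℝ)| ≤ 1 := by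
    rw [h4, abs_le]
    have hbp : (0 : ℝ) < b := by exact_mod_cast hb0
    have e1 : ((b * (a / b) + a % b : ℕ) : ℝ) = a := by rw [Nat.div_add_mod]
    have e2 : ((a % b : ℕ) : ℝ) ≤ b := by exact_mod_cast (Nat.mod_lt a hb0).le
    have e3 : (0 : ℝ) ≤ ((a % b : ℕ) : ℝ) := by positivity
    push_cast at e1
    have e4 : (a : ℝ) / b - ((a / b : ℕ) : ℝ) = ((a % b : ℕ) : ℝ) / b := by
      field_simp
      linarith
    rw [e4]
    constructor
    · have : 0 ≤ ((a % b : ℕ) : ℝ) / b := by positivity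
      linarith
    · rw [div_le_one hbp]
      exact e2
  have e : (-1) ^ l * x ^ l / (2 * l + 1).factorial * 10 ^ 20 - (hbT X l : ℝ) =
      (-1) ^ l * ((x ^ l / (2 * l + 1).factorial * 10 ^ 20 -
        y ^ l / (2 * l + 1).factorial * 10 ^ 20) +
      (y ^ l / (2 * l + 1).factorial * 10 ^ 20 - ((a / b : ℕ) : ℝ))) := by
    unfold hbT
    rw [← ha, ← hb, Int.cast_mul, Int.cast_pow, Int.cast_neg, Int.cast_one, Int.cast_natCast]
    ring
  rw [e, abs_mul, abs_pow, abs_neg, abs_one, one_pow, one_mul]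
  refine (abs_add_le _ _).trans ?_
  linarith

private theorem hb_x {j : ℕ} (hj3 : j ≤ 3) :
    0 ≤ ((j : ℝ) * Real.pi) ^ 2 ∧ ((j : ℝ) * Real.pi) ^ 2 ≤ 89 ∧
    ((j ^ 2 * hbX : ℕ) : ℝ) ≤ 89 * 10 ^ 20 ∧
    |((j : ℝ) * Real.pi) ^ 2 * 10 ^ 20 - (j ^ 2 * hbX : ℕ)| ≤ 63 := by
  have h := hb_sq_pi
  have e : (hbX : ℝ) = 986960440108935861883 := by norm_num [hbX]
  have hj : (j : ℝ) ≤ 3 := by exact_mod_cast hj3
  have hj2 : (j : ℝ) ^ 2 ≤ 9 := by nlinarith [(Nat.cast_nonneg j : (0 : ℝ) ≤ j)]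
  have h2 : Real.pi ^ 2 ≤ 9.87 := by
    rw [abs_le, e] at h
    linarith [h.2]
  refine ⟨by positivity, ?_, ?_, ?_⟩
  · rw [mul_pow]
    calc (j : ℝ) ^ 2 * Real.pi ^ 2 ≤ 9 * 9.87 := by gcongr
      _ ≤ 89 := by norm_num
  · push_cast
    rw [e]
    calc (j : ℝ) ^ 2 * 986960440108935861883 ≤ 9 * 986960440108935861883 := by gcongr
      _ ≤ 89 * 10 ^ 20 := by norm_num
  · push_cast
    have e2 : ((j : ℝ) * Real.pi) ^ 2 * 10 ^ 20 - (j : ℝ) ^ 2 * hbX =
      (j : ℝ) ^ 2 * (Real.pi ^ 2 * 10 ^ 20 - hbX) := by ring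
    rw [e2, abs_mul, abs_of_nonneg (by positivity)]
    calc (j : ℝ) ^ 2 * |Real.pi ^ 2 * 10 ^ 20 - hbX| ≤ 9 * 7 := by gcongr
      _ = 63 := by norm_num

private theorem hb_P_err {j : ℕ} (hj : 1 ≤ j) (hj3 : j ≤ 3) :
    ∀ k ≤ 22, |hbp j k * 10 ^ 20 - hbP (j ^ 2 * hbX) k| ≤ (631 : ℝ) * k := by
  obtain ⟨h1, h2, h3, h4⟩ := hb_x hj3
  intro k
  induction k with
  | zero =>
    intro _
    simp only [hbp_zero hj, hbP]
    norm_num
  | succ k ih =>
    intro hk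
    have h5 := ih (by omega)
    have h6 := hb_T_err h1 h2 h3 h4 (l := k + 1) hk
    rw [hbp_succ hj, hbP, Int.cast_add, Nat.cast_succ]
    have e : ∀ a b c d : ℝ, (a + b) * 10 ^ 20 - (c + d) = (a * 10 ^ 20 - c) + (b * 10 ^ 20 - d) :=
      fun a b c d => by ring
    rw [e]
    exact ((abs_add_le _ _).trans (add_le_add h5 h6)).trans (by linarith)

private theorem hb_L_getD (X : ℕ) (r k i : ℕ) (hi : i ≤ 2 * r) :
    (hbL X k r).getD i 0 = if i % 2 = 0 then hbP X (k + i / 2) else 0 := by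
  induction r generalizing k i with
  | zero =>
    have : i = 0 := by omega
    subst this
    simp [hbL]
  | succ r ih =>
    match i, hi with
    | 0, _ => simp [hbL]
    | 1, _ => simp [hbL]
    | i + 2, hi =>
      simp only [hbL, List.getD_cons_succ]
      rw [ih (k + 1) i (by omega)]
      have e1 : (i + 2) % 2 = i % 2 := by omega
      have e2 : k + (i + 2) / 2 = k + 1 + i / 2 := by omega
      rw [e1, e2]

private theorem hb_L_length (X : ℕ) (r k : ℕ) : (hbL X k r).length = 2 * r + 1 := by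
  induction r generalizing k with
  | zero => simp [hbL]
  | succ r ih =>
    simp only [hbL, List.length_cons, ih]
    ring

/-- The error functions. -/
private noncomputable def hbh (j m : ℕ) (u : ℝ) : ℝ :=
  hS j m u - hbEv (hbDv^[m] (hbPl j)) u / 10 ^ 20

private theorem hbh_deriv (j m : ℕ) (u : ℝ) : HasDerivAt (hbh j m) (hbh j (m + 1) u) u := by
  refine ((hasDerivAt_hS j m u).sub ((hbEv_dv (hbDv^[m] (hbPl j)) u).div_const _)).congr_deriv ?_
  unfold hbh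
  rw [Function.iterate_succ_apply']

private theorem hbK_le (j : ℕ) : hbK j ≤ 22 := by
  unfold hbK
  split <;> norm_num

private theorem hbh_zero {j : ℕ} (hj : 1 ≤ j) (hj3 : j ≤ 3) {i : ℕ} (hi : i < 2 * hbK j + 2) :
    |hbh j i 0| ≤ i.factorial * (14000 / 10 ^ 20) := by
  unfold hbh
  rw [hbEv_zero]
  have h1 := hb_getD_iter i (hbPl j) 0
  simp only [Nat.factorial_zero, Nat.cast_one, one_mul, zero_add] at h1
  rw [h1]
  rcases Nat.even_or_odd' i with ⟨k, hk | hk⟩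
  · have h2 : (hbPl j).getD i 0 = hbP (j ^ 2 * hbX) k := by
      unfold hbPl
      rw [hb_L_getD _ _ _ _ (by omega), if_pos (by omega)]
      congr 1
      omega
    have hk2 : k ≤ 22 := by have := hbK_le j; omega
    have h3 := hb_P_err hj hj3 k hk2
    have h4 : hS j i 0 = i.factorial * hbp j k := by
      unfold hbp
      rw [hk]
      have : ((2 * k).factorial : ℝ) ≠ 0 := by positivity
      field_simp
    rw [h2, h4]
    push_cast
    have e : (i.factorial : ℝ) * hbp j k - i.factorial * (hbP (j ^ 2 * hbX) k) / 10 ^ 20 =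
      i.factorial * ((hbp j k * 10 ^ 20 - hbP (j ^ 2 * hbX) k) / 10 ^ 20) := by
      field_simp
    rw [e, abs_mul, abs_of_nonneg (by positivity : (0 : ℝ) ≤ i.factorial), abs_div,
      abs_of_pos (by positivity : (0 : ℝ) < 10 ^ 20)]
    have h5 : (631 : ℝ) * k ≤ 14000 := by
      have : (k : ℝ) ≤ 22 := by exact_mod_cast hk2
      linarith
    gcongr
    exact h3.trans h5
  · have h2 : (hbPl j).getD i 0 = 0 := by
      unfold hbPl
      rcases Nat.lt_or_ge (2 * hbK j) i with h | h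
      · rw [List.getD_eq_default]
        rw [hb_L_length]
        omega
      · rw [hb_L_getD _ _ _ _ h, if_neg (by omega)]
    have h4 : hS j i 0 = 0 := hS_odd_zero j ⟨k, hk⟩
    rw [h2, h4]
    simp

private theorem hbh_top (j : ℕ) (u : ℝ) :
    |hbh j (2 * hbK j + 2) u| ≤ 2 * (j * Real.pi) ^ (2 * hbK j + 2) := by
  unfold hbh
  have h : hbDv^[2 * hbK j + 2] (hbPl j) = [] := by
    rw [← List.length_eq_zero_iff, hb_length_iter]
    unfold hbPl
    rw [hb_L_length]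
    omega
  rw [h]
  simpa [hbEv] using abs_hS_le j (2 * hbK j + 2) u

private theorem hbh_le {j : ℕ} (hj : 1 ≤ j) (hj3 : j ≤ 3) {m : ℕ} (hm : m ≤ 3) {u : ℝ}
    (hu : 0 ≤ u) (hu1 : u ≤ 7 / 6) :
    |hbh j m u| ≤ 2 * (j * 3.15) ^ (2 * hbK j + 2) * (7 / 6) ^ (2 * hbK j + 2 - m) /
      (2 * hbK j + 2 - m).factorial + 14000 / 10 ^ 20 * (62 * 10 ^ 8) := by
  have hK := hbK_le j
  have h1 := hb_chain (hbh j) (hbh_deriv j) (2 * hbK j + 2) (2 * (j * Real.pi) ^ (2 * hbK j + 2))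
    (14000 / 10 ^ 20) (hbh_top j) (fun i hi => hbh_zero hj hj3 hi) (2 * hbK j + 2 - m) m
    (by unfold hbK; split <;> omega) u hu
  refine h1.trans ((hbB_le (by norm_num) (by positivity) (by omega) hm (by
    unfold hbK; split <;> omega) hu hu1).trans ?_)
  have hpi : Real.pi ≤ 3.15 := Real.pi_lt_d2.le
  gcongr

private noncomputable def hbe : ℕ → ℝ
  | 1 => 0.0000012
  | 2 => 0.0000012
  | _ => 0.00002

private theorem hbh_eps {j : ℕ} (hj : 1 ≤ j) (hj3 : j ≤ 3) {m : ℕ} (hm : m ≤ 3) {u : ℝ}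
    (hu : 0 ≤ u) (hu1 : u ≤ 7 / 6) : |hbh j m u| ≤ hbe j := by
  refine (hbh_le hj hj3 hm hu hu1).trans ?_
  interval_cases j <;> interval_cases m <;> norm_num [hbK, hbe, Nat.factorial]

/-! ### The amplitudes -/

private noncomputable def hbq (j m : ℕ) (u : ℝ) : ℝ := hbEv (hbDv^[m] (hbPl j)) u / 10 ^ 20

private noncomputable def hbk (j n : ℕ) (u : ℝ) : ℝ :=
  (1 - 3 * u ^ 2) * hbq j n u - 6 * n * u * hbq j (n - 1) u -
    3 * n * (n - 1) * hbq j (n - 2) u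

private noncomputable def hbR (α u k0 k1 k2 : ℝ) : ℝ :=
  k0 + 2 * u * (1 - 3 / 4 * u ^ 2) * k1 - 4 / 3 * (1 - 3 / 4 * u ^ 2) ^ 2 * (α * k0 + k2)

private noncomputable def hbR1 (α u k0 k1 k2 k3 : ℝ) : ℝ :=
  (3 - 9 / 2 * u ^ 2) * k1 + 2 * u * (1 - 3 / 4 * u ^ 2) * k2 +
    4 * u * (1 - 3 / 4 * u ^ 2) * (α * k0 + k2) -
    4 / 3 * (1 - 3 / 4 * u ^ 2) ^ 2 * (α * k1 + k3)

private noncomputable def hbα (j : ℕ) : ℝ := (j ^ 2 * 986960440 : ℕ) / 10 ^ 8

private noncomputable def hbRh (j : ℕ) (u : ℝ) : ℝ :=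
  hbR (hbα j) u (hbk j 0 u) (hbk j 1 u) (hbk j 2 u)

private noncomputable def hbRh1 (j : ℕ) (u : ℝ) : ℝ :=
  hbR1 (hbα j) u (hbk j 0 u) (hbk j 1 u) (hbk j 2 u) (hbk j 3 u)

private theorem hbq_deriv (j m : ℕ) (u : ℝ) : HasDerivAt (hbq j m) (hbq j (m + 1) u) u := by
  refine ((hbEv_dv (hbDv^[m] (hbPl j)) u).div_const _).congr_deriv ?_
  unfold hbq
  rw [Function.iterate_succ_apply']

private theorem hbk_deriv0 (j : ℕ) (u : ℝ) : HasDerivAt (hbk j 0) (hbk j 1 u) u := by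
  have h := (hasDerivAt_q u).mul (hbq_deriv j 0 u)
  have e : hbk j 0 = fun u : ℝ => (1 - 3 * u ^ 2) * hbq j 0 u := by
    funext u
    simp [hbk]
  rw [e]
  refine h.congr_deriv ?_
  simp [hbk]
  ring

private theorem hbk_deriv1 (j : ℕ) (u : ℝ) : HasDerivAt (hbk j 1) (hbk j 2 u) u := by
  have h := ((hasDerivAt_q u).mul (hbq_deriv j 1 u)).sub
    ((hasDerivAt_lin 6 u).mul (hbq_deriv j 0 u))
  have e : hbk j 1 = fun u : ℝ => (1 - 3 * u ^ 2) * hbq j 1 u - 6 * u * hbq j 0 u := by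
    funext u
    simp [hbk]
  rw [e]
  refine h.congr_deriv ?_
  simp [hbk]
  ring

private theorem hbk_deriv2 (j : ℕ) (u : ℝ) : HasDerivAt (hbk j 2) (hbk j 3 u) u := by
  have h := (((hasDerivAt_q u).mul (hbq_deriv j 2 u)).sub
    ((hasDerivAt_lin 12 u).mul (hbq_deriv j 1 u))).sub ((hbq_deriv j 0 u).const_mul 6)
  have e : hbk j 2 = fun u : ℝ => (1 - 3 * u ^ 2) * hbq j 2 u - 12 * u * hbq j 1 u -
      6 * hbq j 0 u := by
    funext u
    simp [hbk]
    ring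
  rw [e]
  refine h.congr_deriv ?_
  simp [hbk]
  ring

private theorem hbRh_deriv (j : ℕ) (u : ℝ) : HasDerivAt (hbRh j) (hbRh1 j u) u := by
  have hp : HasDerivAt (fun u : ℝ => 2 * u * (1 - 3 / 4 * u ^ 2)) (2 - 9 / 2 * u ^ 2) u := by
    refine ((hasDerivAt_lin 2 u).mul (hasDerivAt_D u)).congr_deriv ?_
    ring
  have hq : HasDerivAt (fun u : ℝ => 4 / 3 * (1 - 3 / 4 * u ^ 2) ^ 2)
      (-(4 * u * (1 - 3 / 4 * u ^ 2))) u := by
    refine (((hasDerivAt_D u).pow 2).const_mul (4 / 3)).congr_deriv ?_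
    simp
    ring
  have h0 := hbk_deriv0 j u
  have h1 := hbk_deriv1 j u
  have h2 := hbk_deriv2 j u
  have h := (h0.add (hp.mul h1)).sub (hq.mul ((h0.const_mul (hbα j)).add h2))
  refine h.congr_deriv ?_
  unfold hbRh1 hbR1
  simp only [Pi.add_apply]
  ring

private theorem hb_u {u : ℝ} (hu : 0 ≤ u) (hu2 : u ^ 2 ≤ 4 / 3) :
    u ≤ 7 / 6 ∧ |1 - 3 * u ^ 2| ≤ 3 ∧ |u| ≤ 1.155 ∧ |1 - 3 / 4 * u ^ 2| ≤ 1 ∧
    |3 - 9 / 2 * u ^ 2| ≤ 3 := by
  have h0 : 0 ≤ u ^ 2 := sq_nonneg u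
  have h1 : u ≤ 1.155 := by
    by_contra h
    push Not at h
    nlinarith
  refine ⟨by linarith, ?_, ?_, ?_, ?_⟩
  · rw [abs_le]; constructor <;> linarith
  · rw [abs_of_nonneg hu]; exact h1
  · rw [abs_le]; constructor <;> linarith
  · rw [abs_le]; constructor <;> linarith

private theorem hb_abs3 (a b c : ℝ) : |a - b - c| ≤ |a| + |b| + |c| := by
  have h1 := abs_sub (a - b) c
  have h2 := abs_sub a b
  linarith

private theorem hb_k_bd {u s0 s1 s2 B0 B1 B2 : ℝ} (n : ℕ) (hu : |u| ≤ 1.155)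
    (hq : |1 - 3 * u ^ 2| ≤ 3) (h0 : |s0| ≤ B0) (h1 : |s1| ≤ B1) (h2 : |s2| ≤ B2) :
    |(1 - 3 * u ^ 2) * s0 - 6 * n * u * s1 - 3 * n * (n - 1) * s2| ≤
      3 * B0 + 7 * n * B1 + 3 * n * (n - 1) * B2 := by
  have hB0 : 0 ≤ B0 := (abs_nonneg _).trans h0
  have hB1 : 0 ≤ B1 := (abs_nonneg _).trans h1
  have hn : (0 : ℝ) ≤ 3 * n * (n - 1) := by
    rcases Nat.eq_zero_or_pos n with h | h
    · simp [h]
    · have : (1 : ℝ) ≤ n := by exact_mod_cast h
      have : (0 : ℝ) ≤ n - 1 := by linarith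
      positivity
  refine (hb_abs3 _ _ _).trans ?_
  have e1 : |(1 - 3 * u ^ 2) * s0| ≤ 3 * B0 := by
    rw [abs_mul]; gcongr
  have e2 : |6 * n * u * s1| ≤ 7 * n * B1 := by
    rw [abs_mul, abs_mul, abs_of_nonneg (by positivity : (0 : ℝ) ≤ 6 * n)]
    calc 6 * (n : ℝ) * |u| * |s1| ≤ 6 * n * 1.155 * B1 := by gcongr
      _ ≤ 7 * n * B1 := by
        have : (0 : ℝ) ≤ n * B1 := by positivity
        nlinarith
  have e3 : |3 * n * (n - 1) * s2| ≤ 3 * n * (n - 1) * B2 := by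
    rw [abs_mul, abs_of_nonneg hn]; gcongr
  linarith

private theorem hb_k_err {j : ℕ} (hj : 1 ≤ j) (hj3 : j ≤ 3) {n : ℕ} (hn : n ≤ 3) {u : ℝ}
    (hu : 0 ≤ u) (hu2 : u ^ 2 ≤ 4 / 3) :
    |hk j n u - hbk j n u| ≤ (3 + 7 * n + 3 * n * (n - 1)) * hbe j := by
  obtain ⟨h1, h2, h3, -, -⟩ := hb_u hu hu2
  have e : hk j n u - hbk j n u = (1 - 3 * u ^ 2) * hbh j n u - 6 * n * u * hbh j (n - 1) u -
      3 * n * (n - 1) * hbh j (n - 2) u := by
    unfold hk hbk hbh hbq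
    ring
  rw [e]
  refine (hb_k_bd n h3 h2 (hbh_eps hj hj3 (m := n) (by omega) hu h1)
    (hbh_eps hj hj3 (m := n - 1) (by omega) hu h1)
    (hbh_eps hj hj3 (m := n - 2) (by omega) hu h1)).trans ?_
  linarith

private theorem hb_k_le {j : ℕ} (hj3 : j ≤ 3) {u : ℝ} (hu : 0 ≤ u) (hu2 : u ^ 2 ≤ 4 / 3) :
    |hk j 0 u| ≤ 6 ∧ |hk j 1 u| ≤ 71 ∧ |hk j 2 u| ≤ 820 := by
  obtain ⟨h1, h2, h3, -, -⟩ := hb_u hu hu2
  have hj : (j : ℝ) ≤ 3 := by exact_mod_cast hj3
  have hpi : Real.pi ≤ 3.15 := Real.pi_lt_d2.le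
  have ha : (j : ℝ) * Real.pi ≤ 9.45 := by
    calc (j : ℝ) * Real.pi ≤ 3 * 3.15 := by gcongr
      _ = 9.45 := by norm_num
  have ha0 : (0 : ℝ) ≤ j * Real.pi := by positivity
  have s0 := abs_hS_le j 0 u
  have s1 := abs_hS_le j 1 u
  have s2 := abs_hS_le j 2 u
  have a2 : ((j : ℝ) * Real.pi) ^ 2 ≤ 9.45 ^ 2 := by gcongr
  refine ⟨?_, ?_, ?_⟩
  · refine (hb_k_bd 0 h3 h2 s0 s0 s0).trans ?_
    norm_num
  · refine (hb_k_bd 1 h3 h2 s1 s0 s0).trans ?_
    norm_num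
    linarith
  · refine (hb_k_bd 2 h3 h2 s2 s1 s0).trans ?_
    norm_num at *
    linarith

private theorem hb_α {j : ℕ} (hj3 : j ≤ 3) :
    |((j : ℝ) * Real.pi) ^ 2 - hbα j| ≤ 1e-7 ∧ 0 ≤ hbα j ∧ hbα j ≤ 89 := by
  have h := hb_sq_pi
  have e : (hbX : ℝ) = 986960440108935861883 := by norm_num [hbX]
  have hj : (j : ℝ) ≤ 3 := by exact_mod_cast hj3
  have hj2 : (j : ℝ) ^ 2 ≤ 9 := by nlinarith [(Nat.cast_nonneg j : (0 : ℝ) ≤ j)]
  have hj0 : 0 ≤ (j : ℝ) ^ 2 := sq_nonneg _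
  rw [e, abs_le] at h
  have e2 : ((j : ℝ) * Real.pi) ^ 2 - hbα j = (j : ℝ) ^ 2 * (Real.pi ^ 2 - 9.8696044) := by
    unfold hbα
    push_cast
    ring
  refine ⟨?_, ?_, ?_⟩
  · rw [e2, abs_mul, abs_of_nonneg hj0]
    have : |Real.pi ^ 2 - 9.8696044| ≤ 1e-8 := by
      rw [abs_le]
      constructor <;> linarith [h.1, h.2]
    calc (j : ℝ) ^ 2 * |Real.pi ^ 2 - 9.8696044| ≤ 9 * 1e-8 := by gcongr
      _ ≤ 1e-7 := by norm_num
  · unfold hbα
    positivity
  · unfold hbα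
    push_cast
    linarith

/-- Bounds for products. -/
private theorem hb_mul_bd {a b A B : ℝ} (ha : |a| ≤ A) (hb : |b| ≤ B) : |a * b| ≤ A * B := by
  rw [abs_mul]
  have : 0 ≤ A := (abs_nonneg _).trans ha
  gcongr

private theorem hb_R_err {j : ℕ} (hj : 1 ≤ j) (hj3 : j ≤ 3) {u : ℝ}
    (hu : 0 ≤ u) (hu2 : u ^ 2 ≤ 4 / 3) :
    |hR j u - hbRh j u| ≤ 413 * hbe j + 1e-6 := by
  obtain ⟨h1, h2, h3, h4, -⟩ := hb_u hu hu2
  obtain ⟨l0, l1, l2⟩ := hb_k_le hj3 hu hu2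
  obtain ⟨ha, ha0, ha1⟩ := hb_α hj3
  have k0 := hb_k_err hj hj3 (n := 0) (by norm_num) hu hu2
  have k1 := hb_k_err hj hj3 (n := 1) (by norm_num) hu hu2
  have k2 := hb_k_err hj hj3 (n := 2) (by norm_num) hu hu2
  norm_num at k0 k1 k2
  have e : hR j u - hbRh j u = (hk j 0 u - hbk j 0 u) +
      (2 * u) * ((1 - 3 / 4 * u ^ 2) * (hk j 1 u - hbk j 1 u)) -
      (4 / 3 * (1 - 3 / 4 * u ^ 2) ^ 2) * ((((j : ℝ) * Real.pi) ^ 2 - hbα j) * hk j 0 u +
        hbα j * (hk j 0 u - hbk j 0 u) + (hk j 2 u - hbk j 2 u)) := by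
    unfold hR hbRh hbR
    ring
  rw [e]
  have he : 0 ≤ hbe j := by
    have := (abs_nonneg _).trans k0
    linarith
  have g1 : |(2 * u) * ((1 - 3 / 4 * u ^ 2) * (hk j 1 u - hbk j 1 u))| ≤
      2.31 * (1 * (10 * hbe j)) := by
    refine hb_mul_bd ?_ (hb_mul_bd h4 ?_)
    · rw [abs_mul]; norm_num; linarith
    · linarith
  have g2 : |4 / 3 * (1 - 3 / 4 * u ^ 2) ^ 2| ≤ 4 / 3 * 1 := by
    refine hb_mul_bd (by norm_num) ?_
    rw [abs_pow]
    exact pow_le_one₀ (abs_nonneg _) h4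
  have g3 : |((((j : ℝ) * Real.pi) ^ 2 - hbα j) * hk j 0 u +
        hbα j * (hk j 0 u - hbk j 0 u) + (hk j 2 u - hbk j 2 u))| ≤
      1e-7 * 6 + 89 * (3 * hbe j) + 23 * hbe j := by
    refine (abs_add_three _ _ _).trans ?_
    have := hb_mul_bd ha l0
    have := hb_mul_bd (a := hbα j) (A := 89) (by rw [abs_of_nonneg ha0]; exact ha1) k0
    linarith
  have g4 := hb_mul_bd g2 g3
  have g5 := abs_add_le (hk j 0 u - hbk j 0 u)
    ((2 * u) * ((1 - 3 / 4 * u ^ 2) * (hk j 1 u - hbk j 1 u)))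
  refine (abs_sub _ _).trans ?_
  norm_num at *
  linarith

private theorem hb_R1_err {j : ℕ} (hj : 1 ≤ j) (hj3 : j ≤ 3) {u : ℝ}
    (hu : 0 ≤ u) (hu2 : u ^ 2 ≤ 4 / 3) :
    |hR1 j u - hbRh1 j u| ≤ 2670 * hbe j + 2e-5 := by
  obtain ⟨h1, h2, h3, h4, h5⟩ := hb_u hu hu2
  obtain ⟨l0, l1, l2⟩ := hb_k_le hj3 hu hu2
  obtain ⟨ha, ha0, ha1⟩ := hb_α hj3
  have k0 := hb_k_err hj hj3 (n := 0) (by norm_num) hu hu2
  have k1 := hb_k_err hj hj3 (n := 1) (by norm_num) hu hu2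
  have k2 := hb_k_err hj hj3 (n := 2) (by norm_num) hu hu2
  have k3 := hb_k_err hj hj3 (n := 3) (by norm_num) hu hu2
  norm_num at k0 k1 k2 k3
  have e : hR1 j u - hbRh1 j u = (3 - 9 / 2 * u ^ 2) * (hk j 1 u - hbk j 1 u) +
      (2 * u) * ((1 - 3 / 4 * u ^ 2) * (hk j 2 u - hbk j 2 u)) +
      (4 * u) * ((1 - 3 / 4 * u ^ 2) * ((((j : ℝ) * Real.pi) ^ 2 - hbα j) * hk j 0 u +
        hbα j * (hk j 0 u - hbk j 0 u) + (hk j 2 u - hbk j 2 u))) -
      (4 / 3 * (1 - 3 / 4 * u ^ 2) ^ 2) * ((((j : ℝ) * Real.pi) ^ 2 - hbα j) * hk j 1 u +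
        hbα j * (hk j 1 u - hbk j 1 u) + (hk j 3 u - hbk j 3 u)) := by
    unfold hR1 hbRh1 hbR1
    ring
  rw [e]
  have he : 0 ≤ hbe j := by
    have := (abs_nonneg _).trans k0
    linarith
  have g0 : |(3 - 9 / 2 * u ^ 2) * (hk j 1 u - hbk j 1 u)| ≤ 3 * (10 * hbe j) := by
    refine hb_mul_bd h5 ?_
    linarith
  have g1 : |(2 * u) * ((1 - 3 / 4 * u ^ 2) * (hk j 2 u - hbk j 2 u))| ≤
      2.31 * (1 * (23 * hbe j)) := by
    refine hb_mul_bd ?_ (hb_mul_bd h4 ?_)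
    · rw [abs_mul]; norm_num; linarith
    · linarith
  have g2 : |4 / 3 * (1 - 3 / 4 * u ^ 2) ^ 2| ≤ 4 / 3 * 1 := by
    refine hb_mul_bd (by norm_num) ?_
    rw [abs_pow]
    exact pow_le_one₀ (abs_nonneg _) h4
  have g3 : |((((j : ℝ) * Real.pi) ^ 2 - hbα j) * hk j 0 u +
        hbα j * (hk j 0 u - hbk j 0 u) + (hk j 2 u - hbk j 2 u))| ≤
      1e-7 * 6 + 89 * (3 * hbe j) + 23 * hbe j := by
    refine (abs_add_three _ _ _).trans ?_
    have := hb_mul_bd ha l0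
    have := hb_mul_bd (a := hbα j) (A := 89) (by rw [abs_of_nonneg ha0]; exact ha1) k0
    linarith
  have g4 : |(4 * u) * ((1 - 3 / 4 * u ^ 2) * ((((j : ℝ) * Real.pi) ^ 2 - hbα j) * hk j 0 u +
        hbα j * (hk j 0 u - hbk j 0 u) + (hk j 2 u - hbk j 2 u)))| ≤
      4.62 * (1 * (1e-7 * 6 + 89 * (3 * hbe j) + 23 * hbe j)) := by
    refine hb_mul_bd ?_ (hb_mul_bd h4 g3)
    rw [abs_mul]; norm_num; linarith
  have g5 : |((((j : ℝ) * Real.pi) ^ 2 - hbα j) * hk j 1 u +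
        hbα j * (hk j 1 u - hbk j 1 u) + (hk j 3 u - hbk j 3 u))| ≤
      1e-7 * 71 + 89 * (10 * hbe j) + 42 * hbe j := by
    refine (abs_add_three _ _ _).trans ?_
    have := hb_mul_bd ha l1
    have := hb_mul_bd (a := hbα j) (A := 89) (b := hk j 1 u - hbk j 1 u) (B := 10 * hbe j)
      (by rw [abs_of_nonneg ha0]; exact ha1) (by linarith)
    linarith
  have g6 := hb_mul_bd g2 g5
  have g7 := abs_add_three ((3 - 9 / 2 * u ^ 2) * (hk j 1 u - hbk j 1 u))
    ((2 * u) * ((1 - 3 / 4 * u ^ 2) * (hk j 2 u - hbk j 2 u)))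
    ((4 * u) * ((1 - 3 / 4 * u ^ 2) * ((((j : ℝ) * Real.pi) ^ 2 - hbα j) * hk j 0 u +
        hbα j * (hk j 0 u - hbk j 0 u) + (hk j 2 u - hbk j 2 u))))
  refine (abs_sub _ _).trans ?_
  norm_num at *
  linarith

private theorem hb_R_le {j : ℕ} (hj3 : j ≤ 3) {u : ℝ}
    (hu : 0 ≤ u) (hu2 : u ^ 2 ≤ 4 / 3) : |hR j u| ≤ 2000 := by
  obtain ⟨h1, h2, h3, h4, -⟩ := hb_u hu hu2
  obtain ⟨l0, l1, l2⟩ := hb_k_le hj3 hu hu2
  obtain ⟨ha, ha0, ha1⟩ := hb_α hj3
  have ha2 : |((j : ℝ) * Real.pi) ^ 2| ≤ 90 := by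
    rw [abs_of_nonneg (by positivity)]
    have := (abs_le.mp ha).2
    norm_num at this
    linarith
  have g1 : |(2 * u) * ((1 - 3 / 4 * u ^ 2) * hk j 1 u)| ≤ 2.31 * (1 * 71) := by
    refine hb_mul_bd ?_ (hb_mul_bd h4 l1)
    rw [abs_mul]; norm_num; linarith
  have g2 : |4 / 3 * (1 - 3 / 4 * u ^ 2) ^ 2| ≤ 4 / 3 * 1 := by
    refine hb_mul_bd (by norm_num) ?_
    rw [abs_pow]
    exact pow_le_one₀ (abs_nonneg _) h4
  have g3 : |((j : ℝ) * Real.pi) ^ 2 * hk j 0 u + hk j 2 u| ≤ 90 * 6 + 820 :=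
    (abs_add_le _ _).trans (add_le_add (hb_mul_bd ha2 l0) l2)
  have g4 := hb_mul_bd g2 g3
  have e : hR j u = hk j 0 u + (2 * u) * ((1 - 3 / 4 * u ^ 2) * hk j 1 u) -
      (4 / 3 * (1 - 3 / 4 * u ^ 2) ^ 2) * (((j : ℝ) * Real.pi) ^ 2 * hk j 0 u + hk j 2 u) := by
    unfold hR
    ring
  rw [e]
  have g5 := abs_add_le (hk j 0 u) ((2 * u) * ((1 - 3 / 4 * u ^ 2) * hk j 1 u))
  refine (abs_sub _ _).trans ?_
  norm_num at *
  linarith

/-! ### The lists of the amplitudes and the certificates -/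

private def hbRof (Y : ℤ) (l0 l1 l2 : List ℤ) : List ℤ :=
  hbAdd (hbMul [12 * 10 ^ 8 - 16 * Y, 0, 24 * Y, 0, -9 * Y] (hbMul [1, 0, -3] l0))
    (hbAdd (hbMul [0, 24 * 10 ^ 8, 0, -18 * 10 ^ 8]
      (hbAdd (hbMul [1, 0, -3] l1) (hbMul [0, -6] l0)))
    (hbMul [-16 * 10 ^ 8, 0, 24 * 10 ^ 8, 0, -9 * 10 ^ 8]
      (hbAdd (hbMul [1, 0, -3] l2) (hbAdd (hbMul [0, -12] l1) (hbSm (-6) l0)))))

private def hbRl (j : ℕ) : List ℤ :=
  hbRof (j ^ 2 * 986960440) (hbPl j) (hbDv (hbPl j)) (hbDv (hbDv (hbPl j)))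

private theorem hbRl_ev (j : ℕ) (u : ℝ) :
    hbEv (hbRl j) u = 12 * 10 ^ 28 * hbRh j u := by
  have q0 : hbEv (hbPl j) u = 10 ^ 20 * hbq j 0 u := by
    unfold hbq
    simp
    field_simp
  have q1 : hbEv (hbDv (hbPl j)) u = 10 ^ 20 * hbq j 1 u := by
    unfold hbq
    simp
    field_simp
  have q2 : hbEv (hbDv (hbDv (hbPl j))) u = 10 ^ 20 * hbq j 2 u := by
    unfold hbq
    simp
    field_simp
  unfold hbRl hbRof hbRh hbR hbk hbα
  simp only [hbEv_add, hbEv_mul, hbEv_sm, q0, q1, q2]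
  simp only [hbEv]
  push_cast
  ring

private def hbA (x : ℤ) : ℤ := (x.natAbs : ℤ)

private theorem hbA_eq (x : ℤ) : ((hbA x : ℤ) : ℝ) = |(x : ℝ)| := by
  unfold hbA
  push_cast
  rfl

private def hbFit (M T c0 c1 e : ℤ) : List ℤ → Bool
  | b0 :: b1 :: b2 :: b3 :: r => decide
      (hbA (4 * M * b0 + 2 * M * b2 - 4 * c0 * T) + hbA (4 * M * b1 + 3 * M * b3 - 4 * c1 * T) +
        2 * M * hbA b2 + M * hbA b3 + 4 * M * hbSab r ≤ 4 * e * T)
  | _ => false

private theorem hbFit_le {M T c0 c1 e : ℤ} {b : List ℤ} (h : hbFit M T c0 c1 e b = true)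
    (hM : 0 < M) (hT : 0 < T) {w : ℝ} (hw : |w| ≤ 1) :
    |M * hbEv b w / T - (c0 + c1 * w)| ≤ e := by
  match b, h with
  | b0 :: b1 :: b2 :: b3 :: r, h =>
    simp only [hbFit, decide_eq_true_eq] at h
    have h' : ((hbA (4 * M * b0 + 2 * M * b2 - 4 * c0 * T) +
      hbA (4 * M * b1 + 3 * M * b3 - 4 * c1 * T) +
        2 * M * hbA b2 + M * hbA b3 + 4 * M * hbSab r : ℤ) : ℝ) ≤ ((4 * e * T : ℤ) : ℝ) := by
      exact_mod_cast h
    have hT' : (0 : ℝ) < T := by exact_mod_cast hT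
    have hM' : (0 : ℝ) < M := by exact_mod_cast hM
    have hr := hbEv_abs r w hw
    have e1 : (M : ℝ) * hbEv (b0 :: b1 :: b2 :: b3 :: r) w / T - (c0 + c1 * w) =
        ((4 * M * b0 + 2 * M * b2 - 4 * c0 * T) + (4 * M * b1 + 3 * M * b3 - 4 * c1 * T) * w +
        (2 * M * b2) * (2 * w ^ 2 - 1) + (M * b3) * (4 * w ^ 3 - 3 * w) +
        (4 * M * hbEv r w) * w ^ 4) / (4 * T) := by
      simp only [hbEv]
      field_simp
      ring
    have hw' := abs_le.mp hw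
    have hw2 : w ^ 2 ≤ 1 := by nlinarith
    have c2 : |2 * w ^ 2 - 1| ≤ 1 := by
      rw [abs_le]; constructor <;> nlinarith
    have c3 : |4 * w ^ 3 - 3 * w| ≤ 1 := by
      rw [abs_le]
      constructor
      · nlinarith [mul_nonneg (by linarith [hw'.1] : (0 : ℝ) ≤ w + 1) (sq_nonneg (2 * w - 1))]
      · nlinarith [mul_nonneg (by linarith [hw'.2] : (0 : ℝ) ≤ 1 - w) (sq_nonneg (2 * w + 1))]
    have c4 : |w ^ 4| ≤ 1 := by
      rw [abs_pow]; exact pow_le_one₀ (abs_nonneg _) hw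
    rw [e1, abs_div, abs_of_pos (by positivity : (0 : ℝ) < 4 * T), div_le_iff₀ (by positivity)]
    push_cast [hbA_eq] at h'
    have f1 := hb_mul_bd (le_refl |4 * (M : ℝ) * b1 + 3 * M * b3 - 4 * c1 * T|) hw
    have f2 : |2 * (M : ℝ) * b2 * (2 * w ^ 2 - 1)| ≤ 2 * M * |(b2 : ℝ)| * 1 := by
      refine hb_mul_bd ?_ c2
      rw [abs_mul, abs_of_pos (by positivity : (0 : ℝ) < 2 * M)]
    have f3 : |(M : ℝ) * b3 * (4 * w ^ 3 - 3 * w)| ≤ M * |(b3 : ℝ)| * 1 := by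
      refine hb_mul_bd ?_ c3
      rw [abs_mul, abs_of_pos hM']
    have f4 : |4 * (M : ℝ) * hbEv r w * w ^ 4| ≤ 4 * M * (hbSab r : ℝ) * 1 := by
      refine hb_mul_bd ?_ c4
      rw [abs_mul, abs_of_pos (by positivity : (0 : ℝ) < 4 * M)]
      gcongr
    have t1 := abs_add_le ((4 * (M : ℝ) * b0 + 2 * M * b2 - 4 * c0 * T) +
      (4 * M * b1 + 3 * M * b3 - 4 * c1 * T) * w + (2 * M * b2) * (2 * w ^ 2 - 1) +
      (M * b3) * (4 * w ^ 3 - 3 * w)) ((4 * M * hbEv r w) * w ^ 4)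
    have t2 := abs_add_le ((4 * (M : ℝ) * b0 + 2 * M * b2 - 4 * c0 * T) +
      (4 * M * b1 + 3 * M * b3 - 4 * c1 * T) * w + (2 * M * b2) * (2 * w ^ 2 - 1))
      ((M * b3) * (4 * w ^ 3 - 3 * w))
    have t3 := abs_add_three (4 * (M : ℝ) * b0 + 2 * M * b2 - 4 * c0 * T)
      ((4 * M * b1 + 3 * M * b3 - 4 * c1 * T) * w) ((2 * M * b2) * (2 * w ^ 2 - 1))
    linarith

private def hbα' : ℕ → ℤ
  | 1 => 1000
  | 2 => 24
  | _ => 2

/-- `b` is the shifted list; the two fits for `A` and `B`. -/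
private theorem hb_shift (j : ℕ) (n : ℤ) (w : ℝ) :
    hbEv (hbSh n (hbRl j)) w = 12 ^ (hbRl j).length * (12 * 10 ^ 28) * hbRh j ((n + w) / 12) ∧
    hbEv (hbDv (hbSh n (hbRl j))) w =
      12 ^ (hbRl j).length * 10 ^ 28 * hbRh1 j ((n + w) / 12) := by
  have h1 : ∀ w : ℝ, hbEv (hbSh n (hbRl j)) w =
      12 ^ (hbRl j).length * (12 * 10 ^ 28) * hbRh j ((n + w) / 12) := by
    intro w
    rw [hbEv_sh, hbRl_ev]
    ring
  refine ⟨h1 w, ?_⟩
  have h2 := hbEv_dv (hbSh n (hbRl j)) w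
  have h3 : HasDerivAt (fun w : ℝ => ((n : ℝ) + w) / 12) (1 / 12) w :=
    ((hasDerivAt_id' w).const_add (n : ℝ)).div_const 12
  have h4 := ((hbRh_deriv j (((n : ℝ) + w) / 12)).comp w h3).const_mul
    (12 ^ (hbRl j).length * (12 * 10 ^ 28) : ℝ)
  have h5 : hbEv (hbSh n (hbRl j)) = fun w : ℝ =>
      12 ^ (hbRl j).length * (12 * 10 ^ 28) * (hbRh j ∘ fun w : ℝ => ((n : ℝ) + w) / 12) w := by
    funext w
    exact h1 w
  rw [h5] at h2
  rw [h2.unique h4]
  ring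

private structure HbD where
  a0 : ℤ
  a1 : ℤ
  ea : ℤ
  b0 : ℤ
  b1 : ℤ
  eb : ℤ

private structure HbQ where
  x0 : ℤ
  y0 : ℤ
  x1 : ℤ
  y1 : ℤ
  x2 : ℤ
  y2 : ℤ
  x3 : ℤ
  y3 : ℤ

/-- The check that the shifted list `b` of length `L` is close to the affine data. -/
private def hbFits (j L : ℕ) (b : List ℤ) (d : HbD) : Bool :=
  hbFit (hbα' j * j * 31415926535) (12 ^ (L + 1) * 10 ^ 36) d.a0 d.a1 d.ea b &&
  hbFit (hbα' j) (12 ^ L * 10 ^ 26) d.b0 d.b1 d.eb (hbDv b)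

private def hbGr (A1 A2 A3 B1 B2 B3 E : ℤ) (q : HbQ) : Bool :=
  let x0 := q.x0; let y0 := q.y0; let x1 := q.x1; let y1 := q.y1
  let x2 := q.x2; let y2 := q.y2; let x3 := q.x3; let y3 := q.y3
  decide (x0 * x0 + y0 * y0 + x1 * x1 + y1 * y1 + x2 * x2 + y2 * y2 + x3 * x3 + y3 * y3 +
    hbA (10000 * A1 + 2 * (x1 * x0 + y1 * y0 + x2 * x1 + y2 * y1 + x3 * x2 + y3 * y2)) +
    hbA (10000 * A2 + 2 * (x2 * x0 + y2 * y0 + x3 * x1 + y3 * y1)) +
    hbA (10000 * A3 + 2 * (x3 * x0 + y3 * y0)) +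
    hbA (10000 * B1 + 2 * (y1 * x0 - x1 * y0 + y2 * x1 - x2 * y1 + y3 * x2 - x3 * y2)) +
    hbA (10000 * B2 + 2 * (y2 * x0 - x2 * y0 + y3 * x1 - x3 * y1)) +
    hbA (10000 * B3 + 2 * (y3 * x0 - x3 * y0)) + 10000 * E ≤ 5000000000)

private noncomputable def hbTrig (A1 A2 A3 B1 B2 B3 φ : ℝ) : ℝ :=
  (A1 * Real.cos φ - B1 * Real.sin φ) + (A2 * Real.cos (2 * φ) - B2 * Real.sin (2 * φ)) +
    (A3 * Real.cos (3 * φ) - B3 * Real.sin (3 * φ))

private theorem hb_gram_fin {g0 g1 g2 g3 h1 h2 h3 A1 A2 A3 B1 B2 B3 E c1 c2 c3 s1 s2 s3 : ℝ}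
    (h0 : 0 ≤ g0 + 2 * (g1 * c1 - h1 * s1) + 2 * (g2 * c2 - h2 * s2) + 2 * (g3 * c3 - h3 * s3))
    (h : g0 + |10000 * A1 + 2 * g1| + |10000 * A2 + 2 * g2| + |10000 * A3 + 2 * g3| +
      |10000 * B1 + 2 * h1| + |10000 * B2 + 2 * h2| + |10000 * B3 + 2 * h3| + 10000 * E ≤
      5000000000)
    (hc1 : |c1| ≤ 1) (hc2 : |c2| ≤ 1) (hc3 : |c3| ≤ 1) (hs1 : |s1| ≤ 1) (hs2 : |s2| ≤ 1)
    (hs3 : |s3| ≤ 1) :
    (A1 * c1 - B1 * s1) + (A2 * c2 - B2 * s2) + (A3 * c3 - B3 * s3) + E ≤ 500000 := by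
  have b1 := (abs_le.mp (hb_mul_bd (le_refl |10000 * A1 + 2 * g1|) hc1)).2
  have b2 := (abs_le.mp (hb_mul_bd (le_refl |10000 * A2 + 2 * g2|) hc2)).2
  have b3 := (abs_le.mp (hb_mul_bd (le_refl |10000 * A3 + 2 * g3|) hc3)).2
  have d1 := (abs_le.mp (hb_mul_bd (le_refl |10000 * B1 + 2 * h1|) hs1)).1
  have d2 := (abs_le.mp (hb_mul_bd (le_refl |10000 * B2 + 2 * h2|) hs2)).1
  have d3 := (abs_le.mp (hb_mul_bd (le_refl |10000 * B3 + 2 * h3|) hs3)).1
  linarith

private theorem hb_sq {x0 y0 x1 y1 x2 y2 x3 y3 c1 c2 c3 s1 s2 s3 : ℝ}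
    (r1 : c1 ^ 2 + s1 ^ 2 = 1) (r2 : c2 ^ 2 + s2 ^ 2 = 1) (r3 : c3 ^ 2 + s3 ^ 2 = 1)
    (p21 : c2 * c1 + s2 * s1 = c1) (m21 : s2 * c1 - c2 * s1 = s1)
    (p31 : c3 * c1 + s3 * s1 = c2) (m31 : s3 * c1 - c3 * s1 = s2)
    (p32 : c3 * c2 + s3 * s2 = c1) (m32 : s3 * c2 - c3 * s2 = s1) :
    0 ≤ (x0 * x0 + y0 * y0 + x1 * x1 + y1 * y1 + x2 * x2 + y2 * y2 + x3 * x3 + y3 * y3) +
      2 * ((x1 * x0 + y1 * y0 + x2 * x1 + y2 * y1 + x3 * x2 + y3 * y2) * c1 -
        (y1 * x0 - x1 * y0 + y2 * x1 - x2 * y1 + y3 * x2 - x3 * y2) * s1) +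
      2 * ((x2 * x0 + y2 * y0 + x3 * x1 + y3 * y1) * c2 -
        (y2 * x0 - x2 * y0 + y3 * x1 - x3 * y1) * s2) +
      2 * ((x3 * x0 + y3 * y0) * c3 - (y3 * x0 - x3 * y0) * s3) := by
  have sq : (x0 + (x1 * c1 - y1 * s1) + (x2 * c2 - y2 * s2) + (x3 * c3 - y3 * s3)) ^ 2 +
      (y0 + (x1 * s1 + y1 * c1) + (x2 * s2 + y2 * c2) + (x3 * s3 + y3 * c3)) ^ 2 =
      (x0 * x0 + y0 * y0 + x1 * x1 + y1 * y1 + x2 * x2 + y2 * y2 + x3 * x3 + y3 * y3) +
      2 * ((x1 * x0 + y1 * y0 + x2 * x1 + y2 * y1 + x3 * x2 + y3 * y2) * c1 -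
        (y1 * x0 - x1 * y0 + y2 * x1 - x2 * y1 + y3 * x2 - x3 * y2) * s1) +
      2 * ((x2 * x0 + y2 * y0 + x3 * x1 + y3 * y1) * c2 -
        (y2 * x0 - x2 * y0 + y3 * x1 - x3 * y1) * s2) +
      2 * ((x3 * x0 + y3 * y0) * c3 - (y3 * x0 - x3 * y0) * s3) := by
    linear_combination (x1 ^ 2 + y1 ^ 2) * r1 + (x2 ^ 2 + y2 ^ 2) * r2 +
      (x3 ^ 2 + y3 ^ 2) * r3 + 2 * (x1 * x2 + y1 * y2) * p21 -
      2 * (y2 * x1 - x2 * y1) * m21 + 2 * (x1 * x3 + y1 * y3) * p31 -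
      2 * (y3 * x1 - x3 * y1) * m31 + 2 * (x2 * x3 + y2 * y3) * p32 -
      2 * (y3 * x2 - x3 * y2) * m32
  rw [← sq]
  positivity

private theorem hb_gram {A1 A2 A3 B1 B2 B3 E : ℤ} {q : HbQ}
    (h : hbGr A1 A2 A3 B1 B2 B3 E q = true) (φ : ℝ) :
    hbTrig A1 A2 A3 B1 B2 B3 φ + E ≤ 500000 := by
  simp only [hbGr, decide_eq_true_eq] at h
  have h' := (Int.cast_le (R := ℝ)).mpr h
  push_cast [hbA_eq] at h'
  unfold hbTrig
  have p21 : Real.cos (2 * φ) * Real.cos φ + Real.sin (2 * φ) * Real.sin φ = Real.cos φ := by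
    rw [← Real.cos_sub]
    congr 1
    ring
  have m21 : Real.sin (2 * φ) * Real.cos φ - Real.cos (2 * φ) * Real.sin φ = Real.sin φ := by
    rw [← Real.sin_sub]
    congr 1
    ring
  have p31 : Real.cos (3 * φ) * Real.cos φ + Real.sin (3 * φ) * Real.sin φ =
      Real.cos (2 * φ) := by
    rw [← Real.cos_sub]
    congr 1
    ring
  have m31 : Real.sin (3 * φ) * Real.cos φ - Real.cos (3 * φ) * Real.sin φ =
      Real.sin (2 * φ) := by
    rw [← Real.sin_sub]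
    congr 1
    ring
  have p32 : Real.cos (3 * φ) * Real.cos (2 * φ) + Real.sin (3 * φ) * Real.sin (2 * φ) =
      Real.cos φ := by
    rw [← Real.cos_sub]
    congr 1
    ring
  have m32 : Real.sin (3 * φ) * Real.cos (2 * φ) - Real.cos (3 * φ) * Real.sin (2 * φ) =
      Real.sin φ := by
    rw [← Real.sin_sub]
    congr 1
    ring
  exact hb_gram_fin (hb_sq (Real.cos_sq_add_sin_sq φ) (Real.cos_sq_add_sin_sq (2 * φ))
    (Real.cos_sq_add_sin_sq (3 * φ)) p21 m21 p31 m31 p32 m32) h'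
    (Real.abs_cos_le_one _) (Real.abs_cos_le_one _) (Real.abs_cos_le_one _)
    (Real.abs_sin_le_one _) (Real.abs_sin_le_one _) (Real.abs_sin_le_one _)

private def hbRl1 : List ℤ :=
  [-292757802608567540329600000000, 0, 152933159182710899930901194880, 0,
   -33157313707703714074422977600, 0, 4091276838153206559757179080, 0,
   -330046138072163509034166520, 0, 18869707756041637061956600, 0, -806717374977846289172960, 0,
   26803526790927348817880, 0, -712629105277974075200, 0, 15513457834130888560, 0,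
   -281701975753031920, 0, 4335691097973560, 0, -1029980963593640, 0, 4892812050907800, 0,
   -5843241297737280, 0, 2038540140888120]

private theorem hbRl1_eq : hbRl 1 = hbRl1 := by decide +kernel

private def hbRl2 : List ℤ :=
  [-3451031210434270161318400000000, 0, 8040096285642663207891219118080, 0,
   -7398693889139543203185724508160, 0, 3785591566705876869915503818880, 0,
   -1250621905219815799562398681280, 0, 290682117726129895212006325920, 0,
   -50291427544740906018018302240, 0, 6741932240953498180452689920, 0,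
   -721759620528544090468804960, 0, 63177036943823281707608480, 0, -4608146216931516600655840, 0,
   284498694570190921039200, 0, -15063066364186596026560, 0, 691627192003510482880, 0,
   -27805785445365351520, 0, 987068273192188320, 0, -31173993499507680, 0, 888787980551040, 0,
   -583573123429600, 0, 2703652680401280, 0, -3172323562642080, 0, 1093098165717600]

private theorem hbRl2_eq : hbRl 2 = hbRl2 := by decide +kernel

private def hbRl3 : List ℤ :=
  [-8714820223477107862963200000000, 0, 62746580326115315748668719088640, 0,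
   -148142464411471864238971783912320, 0, 183022896463051075778611549935360, 0,
   -142062515295155981308145741488920, 0, 76462150622781527821316267529480, 0,
   -30372393246532192521185147748040, 0, 9297631196907302598505514820000, 0,
   -2264708111169482538567865610040, 0, 449902434239958497405992921320, 0,
   -74343037550195464965885570720, 0, 10384144530172999053150429360, 0,
   -1242636332434246792712907960, 0, 128857005429501047295917520, 0, -11692716142060298415540360,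
   0, 936403928423148132416120, 0, -66680195144761663802160, 0, 4250002732576688993400, 0,
   -243894607238010965520, 0, 12668800803308448240, 0, -598509283245888240, 0, 25835494644618440,
   0, -31661699083355520, 0, 147005803401650640, 0, -171092196922727160, 0, 58555072947904920]

private theorem hbRl3_eq : hbRl 3 = hbRl3 := by decide +kernel

private def hbOk (n : ℤ) (d1 d2 d3 : HbD) (q q' : HbQ) : Bool :=
  hbFits 1 31 (hbSh n hbRl1) d1 && hbFits 2 43 (hbSh n hbRl2) d2 &&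
  hbFits 3 51 (hbSh n hbRl3) d3 &&
  hbGr (d1.a0 + d1.a1) (d2.a0 + d2.a1) (d3.a0 + d3.a1) (d1.b0 + d1.b1) (d2.b0 + d2.b1)
    (d3.b0 + d3.b1) (d1.ea + d1.eb + d2.ea + d2.eb + d3.ea + d3.eb + 1000) q &&
  hbGr (d1.a0 - d1.a1) (d2.a0 - d2.a1) (d3.a0 - d3.a1) (d1.b0 - d1.b1) (d2.b0 - d2.b1)
    (d3.b0 - d3.b1) (d1.ea + d1.eb + d2.ea + d2.eb + d3.ea + d3.eb + 1000) q'

private theorem hbOk_1 : hbOk 1
    ⟨-762284, 5532, 1387, 21081, 21002, 113⟩
    ⟨-423323, 13722, 3463, 25955, 25538, 598⟩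
    ⟨-127066, 12924, 3306, 16044, 15377, 989⟩
    ⟨36293, 0, 42840, 765, 37959, -1653, 15725, -4329⟩
    ⟨34412, 0, 41523, 274, 38959, 218, 20340, -97⟩ = true := by decide +kernel

private theorem hbOk_3 : hbOk 3
    ⟨-740472, 16199, 1296, 61738, 19504, 293⟩
    ⟨-371650, 37139, 2533, 70275, 18118, 1382⟩
    ⟨-82785, 29595, 1171, 36829, 4687, 1785⟩
    ⟨38094, 0, 45431, -1783, 35325, -5430, 6981, -5449⟩
    ⟨36683, 0, 42831, 973, 37950, -1587, 15318, -4381⟩ = true := by decide +kernel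

private theorem hbOk_5 : hbOk 5
    ⟨-698397, 25721, 1116, 98030, 16660, 445⟩
    ⟨-283116, 50096, 961, 94879, 6247, 1624⟩
    ⟨-24184, 27055, 1691, 33889, -7155, 1252⟩
    ⟨40826, 0, 47554, -5831, 28480, -8521, -352, -3274⟩
    ⟨38415, 0, 45433, -1643, 35254, -5503, 6669, -5342⟩ = true := by decide +kernel

private theorem hbOk_7 : hbOk 7
    ⟨-639003, 33460, 863, 127538, 12755, 551⟩
    ⟨-181477, 50251, 886, 95321, -5562, 1365⟩
    ⟨15012, 11524, 2309, 14761, -10923, 308⟩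
    ⟨44626, 0, 48012, -8741, 17818, -9012, -2973, -430⟩
    ⟨41071, 0, 47570, -5680, 28270, -8601, -425, -3127⟩ = true := by decide +kernel

private theorem hbOk_9 : hbOk 9
    ⟨-566334, 38959, 563, 148512, 8170, 605⟩
    ⟨-90492, 39886, 1858, 75869, -13325, 685⟩
    ⟨23092, -2656, 1361, -2929, -6168, 970⟩
    ⟨49386, 0, 45616, -11148, 7242, -6716, -2069, 921⟩
    ⟨44707, 0, 48071, -8688, 17607, -9026, -2880, -362⟩ = true := by decide +kernel

private theorem hbOk_11 : hbOk 11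
    ⟨-485138, 41974, 247, 160026, 3342, 607⟩
    ⟨-25981, 24417, 2058, 46695, -15238, 193⟩
    ⟨12412, -6947, 230, -8523, 371, 715⟩
    ⟨54394, 0, 39514, -12746, 684, -3318, -502, 749⟩
    ⟨49715, 0, 45475, -11163, 7050, -6610, -1947, 894⟩ = true := by decide +kernel

private theorem hbOk_13 : hbOk 13
    ⟨-400419, 42492, 113, 162030, -1296, 561⟩
    ⟨7843, 9751, 1666, 18932, -12115, 663⟩
    ⟨1352, -3695, 642, -4703, 2931, 70⟩
    ⟨57210, 0, 32025, -13263, -1616, -730, 205, 155⟩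
    ⟨54455, 0, 39463, -12781, 676, -3250, -463, 701⟩ = true := by decide +kernel

/-! ### Assembly -/

private theorem hb_pi : |Real.pi - 3.1415926535| ≤ 1e-10 := by
  have h1 := Real.pi_gt_d20
  have h2 := Real.pi_lt_d20
  rw [abs_le]
  constructor
  · norm_num at *
    linarith
  · norm_num at *
    linarith

private theorem hb_amp {j : ℕ} (hj : 1 ≤ j) (hj3 : j ≤ 3) :
    amp j = hbα' j / 10 ^ 4 ∧ 0 < hbα' j := by
  interval_cases j <;> norm_num [amp, hbα']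

private theorem hb_A_err {j : ℕ} (hj : 1 ≤ j) (hj3 : j ≤ 3) {u : ℝ}
    (hu : 0 ≤ u) (hu2 : u ^ 2 ≤ 4 / 3) :
    |Real.pi * hR j u - 3.1415926535 * hbRh j u| ≤ 1301 * hbe j + 4e-6 := by
  have h1 := hb_R_err hj hj3 hu hu2
  have h2 := hb_R_le hj3 hu hu2
  have e : Real.pi * hR j u - 3.1415926535 * hbRh j u =
      (Real.pi - 3.1415926535) * hR j u + 3.1415926535 * (hR j u - hbRh j u) := by ring
  rw [e]
  have g1 := hb_mul_bd hb_pi h2
  have g2 := hb_mul_bd (a := 3.1415926535) (A := 3.15) (by norm_num [abs_le]) h1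
  refine (abs_add_le _ _).trans ?_
  have he : 0 ≤ hbe j := by
    unfold hbe
    split <;> norm_num
  norm_num at *
  linarith

/-- The two approximations on a cell. -/
private theorem hb_fits {j L : ℕ} (hj : 1 ≤ j) (hj3 : j ≤ 3) (hL : (hbRl j).length = L) {n : ℤ}
    {d : HbD} (h : hbFits j L (hbSh n (hbRl j)) d = true) {w : ℝ} (hw : |w| ≤ 1)
    (hu : 0 ≤ (n + w) / 12) (hu2 : ((n + w) / 12) ^ 2 ≤ 4 / 3) :
    |10 ^ 6 * (amp j * (j * Real.pi * hR j ((n + w) / 12))) - (d.a0 + d.a1 * w)| ≤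
      d.ea + 100 * hbα' j * (j * (1301 * hbe j + 4e-6)) ∧
    |10 ^ 6 * (amp j * hR1 j ((n + w) / 12)) - (d.b0 + d.b1 * w)| ≤
      d.eb + 100 * hbα' j * (2670 * hbe j + 2e-5) := by
  obtain ⟨s1, s2⟩ := hb_shift j n w
  obtain ⟨ha, ha0⟩ := hb_amp hj hj3
  have hj0 : (0 : ℝ) < j := by exact_mod_cast hj
  simp only [hbFits, Bool.and_eq_true] at h
  obtain ⟨f1, f2⟩ := h
  have g1 := hbFit_le f1 (by positivity) (by positivity) hw
  have g2 := hbFit_le f2 ha0 (by positivity) hw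
  rw [s1, hL] at g1
  rw [s2, hL] at g2
  have ha0' : (0 : ℝ) < hbα' j := by exact_mod_cast ha0
  set u : ℝ := (n + w) / 12 with hu'
  have e1 : ((hbα' j * j * 31415926535 : ℤ) : ℝ) * (12 ^ L * (12 * 10 ^ 28) * hbRh j u) /
      ((12 ^ (L + 1) * 10 ^ 36 : ℤ) : ℝ) = 100 * hbα' j * (j * (3.1415926535 * hbRh j u)) := by
    push_cast
    rw [pow_succ, div_eq_iff (by positivity)]
    ring
  have e2 : ((hbα' j : ℤ) : ℝ) * (12 ^ L * 10 ^ 28 * hbRh1 j u) /
      ((12 ^ L * 10 ^ 26 : ℤ) : ℝ) = 100 * hbα' j * hbRh1 j u := by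
    push_cast
    rw [div_eq_iff (by positivity)]
    ring
  rw [e1] at g1
  rw [e2] at g2
  have h1 := hb_A_err hj hj3 hu hu2
  have h2 := hb_R1_err hj hj3 hu hu2
  have hf : ∀ a b : ℝ, 0 ≤ a → |a * b| = a * |b| := fun a b ha => by
    rw [abs_mul, abs_of_nonneg ha]
  constructor
  · have e : 10 ^ 6 * (amp j * (j * Real.pi * hR j u)) - (d.a0 + d.a1 * w) =
        (100 * hbα' j * (j * (3.1415926535 * hbRh j u)) - (d.a0 + d.a1 * w)) +
        (100 * hbα' j * (j * (Real.pi * hR j u - 3.1415926535 * hbRh j u))) := by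
      rw [ha]
      ring
    rw [e]
    refine (abs_add_le _ _).trans (add_le_add g1 ?_)
    rw [hf _ _ (by positivity), hf _ _ hj0.le]
    gcongr
  · have e : 10 ^ 6 * (amp j * hR1 j u) - (d.b0 + d.b1 * w) =
        (100 * hbα' j * hbRh1 j u - (d.b0 + d.b1 * w)) +
        (100 * hbα' j * (hR1 j u - hbRh1 j u)) := by
      rw [ha]
      ring
    rw [e]
    refine (abs_add_le _ _).trans (add_le_add g2 ?_)
    rw [hf _ _ (by positivity)]
    gcongr

private theorem hb_term {A B A' B' eA eB c s : ℝ} (hA : |A - A'| ≤ eA) (hB : |B - B'| ≤ eB)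
    (hc : |c| ≤ 1) (hs : |s| ≤ 1) : A * c - B * s ≤ (A' * c - B' * s) + (eA + eB) := by
  have h1 := (abs_le.mp (hb_mul_bd hA hc)).2
  have h2 := (abs_le.mp (hb_mul_bd hB hs)).1
  linarith

private theorem hb_cell {n : ℤ} {d1 d2 d3 : HbD} {q q' : HbQ} (h : hbOk n d1 d2 d3 q q' = true)
    {u : ℝ} (hn : |12 * u - n| ≤ 1) (hu : 0 ≤ u) (hu2 : u ^ 2 ≤ 4 / 3) (φ : ℝ) :
    0 ≤ 1 / 2 - ∑ j ∈ Finset.Icc 1 3, amp j *
      (j * Real.pi * hR j u * Real.cos (j * φ) - hR1 j u * Real.sin (j * φ)) := by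
  obtain ⟨w, hw⟩ : ∃ w : ℝ, w = 12 * u - n := ⟨_, rfl⟩
  have hw1 : |w| ≤ 1 := by rw [hw]; exact hn
  have hwu : (n + w) / 12 = u := by rw [hw]; ring
  simp only [hbOk, Bool.and_eq_true] at h
  obtain ⟨⟨⟨⟨f1, f2⟩, f3⟩, g1⟩, g2⟩ := h
  rw [← hbRl1_eq] at f1
  rw [← hbRl2_eq] at f2
  rw [← hbRl3_eq] at f3
  obtain ⟨a1, b1⟩ := hb_fits (by norm_num) (by norm_num) (by rw [hbRl1_eq]; rfl) f1 hw1
    (by rw [hwu]; exact hu) (by rw [hwu]; exact hu2)
  obtain ⟨a2, b2⟩ := hb_fits (by norm_num) (by norm_num) (by rw [hbRl2_eq]; rfl) f2 hw1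
    (by rw [hwu]; exact hu) (by rw [hwu]; exact hu2)
  obtain ⟨a3, b3⟩ := hb_fits (by norm_num) (by norm_num) (by rw [hbRl3_eq]; rfl) f3 hw1
    (by rw [hwu]; exact hu) (by rw [hwu]; exact hu2)
  rw [hwu] at a1 a2 a3 b1 b2 b3
  have t1 := hb_term a1 b1 (Real.abs_cos_le_one φ) (Real.abs_sin_le_one φ)
  have t2 := hb_term a2 b2 (Real.abs_cos_le_one (2 * φ)) (Real.abs_sin_le_one (2 * φ))
  have t3 := hb_term a3 b3 (Real.abs_cos_le_one (3 * φ)) (Real.abs_sin_le_one (3 * φ))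
  have G1 := hb_gram g1 φ
  have G2 := hb_gram g2 φ
  have hw' := abs_le.mp hw1
  have c1 := mul_le_mul_of_nonneg_left G1 (by linarith [hw'.1] : (0 : ℝ) ≤ (1 + w) / 2)
  have c2 := mul_le_mul_of_nonneg_left G2 (by linarith [hw'.2] : (0 : ℝ) ≤ (1 - w) / 2)
  have hE : (100 * hbα' 1 * (((1 : ℕ) : ℝ) * (1301 * hbe 1 + 4e-6)) +
      100 * hbα' 1 * (2670 * hbe 1 + 2e-5)) +
      (100 * hbα' 2 * (((2 : ℕ) : ℝ) * (1301 * hbe 2 + 4e-6)) +
      100 * hbα' 2 * (2670 * hbe 2 + 2e-5)) +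
      (100 * hbα' 3 * (((3 : ℕ) : ℝ) * (1301 * hbe 3 + 4e-6)) +
      100 * hbα' 3 * (2670 * hbe 3 + 2e-5)) ≤ 1000 := by
    norm_num [hbα', hbe]
  have hs : ∑ j ∈ Finset.Icc 1 3, amp j *
      (j * Real.pi * hR j u * Real.cos (j * φ) - hR1 j u * Real.sin (j * φ)) =
      (amp 1 * (((1 : ℕ) : ℝ) * Real.pi * hR 1 u) * Real.cos φ - amp 1 * hR1 1 u * Real.sin φ) +
      (amp 2 * (((2 : ℕ) : ℝ) * Real.pi * hR 2 u) * Real.cos (2 * φ) -
        amp 2 * hR1 2 u * Real.sin (2 * φ)) +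
      (amp 3 * (((3 : ℕ) : ℝ) * Real.pi * hR 3 u) * Real.cos (3 * φ) -
        amp 3 * hR1 3 u * Real.sin (3 * φ)) := by
    have e : Finset.Icc 1 3 = ({1, 2, 3} : Finset ℕ) := by decide
    rw [e, Finset.sum_insert (by decide), Finset.sum_insert (by decide), Finset.sum_singleton]
    push_cast
    rw [one_mul φ]
    ring
  rw [hs]
  unfold hbTrig at c1 c2
  push_cast at c1 c2
  have key : (1 + w) / 2 * ((((d1.a0 : ℝ) + d1.a1) * Real.cos φ -
      ((d1.b0 : ℝ) + d1.b1) * Real.sin φ) +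
      (((d2.a0 : ℝ) + d2.a1) * Real.cos (2 * φ) - ((d2.b0 : ℝ) + d2.b1) * Real.sin (2 * φ)) +
      (((d3.a0 : ℝ) + d3.a1) * Real.cos (3 * φ) - ((d3.b0 : ℝ) + d3.b1) * Real.sin (3 * φ)) +
      ((d1.ea : ℝ) + d1.eb + d2.ea + d2.eb + d3.ea + d3.eb + 1000)) +
      (1 - w) / 2 * ((((d1.a0 : ℝ) - d1.a1) * Real.cos φ -
      ((d1.b0 : ℝ) - d1.b1) * Real.sin φ) +
      (((d2.a0 : ℝ) - d2.a1) * Real.cos (2 * φ) - ((d2.b0 : ℝ) - d2.b1) * Real.sin (2 * φ)) +
      (((d3.a0 : ℝ) - d3.a1) * Real.cos (3 * φ) - ((d3.b0 : ℝ) - d3.b1) * Real.sin (3 * φ)) +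
      ((d1.ea : ℝ) + d1.eb + d2.ea + d2.eb + d3.ea + d3.eb + 1000)) =
      ((d1.a0 + d1.a1 * w) * Real.cos φ - (d1.b0 + d1.b1 * w) * Real.sin φ) +
      ((d2.a0 + d2.a1 * w) * Real.cos (2 * φ) - (d2.b0 + d2.b1 * w) * Real.sin (2 * φ)) +
      ((d3.a0 + d3.a1 * w) * Real.cos (3 * φ) - (d3.b0 + d3.b1 * w) * Real.sin (3 * φ)) +
      ((d1.ea : ℝ) + d1.eb + d2.ea + d2.eb + d3.ea + d3.eb + 1000) := by ring
  linarith

private theorem hb_pos {u : ℝ} (hu : 0 ≤ u) (hu2 : u ^ 2 ≤ 4 / 3) (φ : ℝ) :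
    0 ≤ 1 / 2 - ∑ j ∈ Finset.Icc 1 3, amp j *
      (j * Real.pi * hR j u * Real.cos (j * φ) - hR1 j u * Real.sin (j * φ)) := by
  obtain ⟨h1, -, -, -, -⟩ := hb_u hu hu2
  rcases le_or_gt (12 * u) 2 with h | h
  · exact hb_cell hbOk_1 (by rw [abs_le]; constructor <;> push_cast <;> linarith) hu hu2 φ
  rcases le_or_gt (12 * u) 4 with h' | h'
  · exact hb_cell hbOk_3 (by rw [abs_le]; constructor <;> push_cast <;> linarith) hu hu2 φ
  rcases le_or_gt (12 * u) 6 with h2 | h2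
  · exact hb_cell hbOk_5 (by rw [abs_le]; constructor <;> push_cast <;> linarith) hu hu2 φ
  rcases le_or_gt (12 * u) 8 with h3 | h3
  · exact hb_cell hbOk_7 (by rw [abs_le]; constructor <;> push_cast <;> linarith) hu hu2 φ
  rcases le_or_gt (12 * u) 10 with h4 | h4
  · exact hb_cell hbOk_9 (by rw [abs_le]; constructor <;> push_cast <;> linarith) hu hu2 φ
  rcases le_or_gt (12 * u) 12 with h5 | h5
  · exact hb_cell hbOk_11 (by rw [abs_le]; constructor <;> push_cast <;> linarith) hu hu2 φ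
  · exact hb_cell hbOk_13 (by rw [abs_le]; constructor <;> push_cast <;> linarith) hu hu2 φ

/-- The monotonicity inequality. -/
theorem hannBox : HannBox := by
  intro u φ hu
  rcases le_total 0 u with h | h
  · exact hb_pos h hu φ
  · have h1 := hb_pos (u := -u) (by linarith) (by rw [neg_sq]; exact hu) (-φ)
    refine h1.trans_eq ?_
    congr 1
    refine Finset.sum_congr rfl fun j _ => ?_
    rw [hR_neg, hR1_neg, mul_neg, Real.cos_neg, Real.sin_neg]
    ring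

end Pool.Agent.Strip051
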