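import Pool.Agent.Strip051.Kern.Main

/-! # Definitions for the sinusoidal kernel

`hS j n` is the `n`-th derivative of `u ↦ sin (j π u) / (j π u (1 - u ^ 2))`. -/

namespace Pool.Agent.Strip051

open Pool.Agent.StripNear Pool.Agent.StripSquare Set MeasureTheory

/-- The `n`-th derivative of `sin (j π u) / (j π u (1 - u ^ 2))`. -/
noncomputable def hS (j n : ℕ) (u : ℝ) : ℝ :=
  ∫ t in (0 : ℝ)..1, (1 - (-1) ^ j * Real.cos (j * Real.pi * t)) * (j * Real.pi * t) ^ n *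
    Real.cos (j * Real.pi * u * t + n * (Real.pi / 2))

/-- The `n`-th derivative of `(1 - 3 u ^ 2) * hS j 0 u`. -/
noncomputable def hk (j n : ℕ) (u : ℝ) : ℝ :=
  (1 - 3 * u ^ 2) * hS j n u - 6 * n * u * hS j (n - 1) u -
    3 * n * (n - 1) * hS j (n - 2) u

/-- The amplitude of the kernel. -/
noncomputable def hR (j : ℕ) (u : ℝ) : ℝ :=
  hk j 0 u + 2 * u * (1 - 3 / 4 * u ^ 2) * hk j 1 u -
    4 / 3 * (1 - 3 / 4 * u ^ 2) ^ 2 * ((j * Real.pi) ^ 2 * hk j 0 u + hk j 2 u)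

/-- The derivative of `hR j`. -/
noncomputable def hR1 (j : ℕ) (u : ℝ) : ℝ :=
  (3 - 9 / 2 * u ^ 2) * hk j 1 u + 2 * u * (1 - 3 / 4 * u ^ 2) * hk j 2 u +
    4 * u * (1 - 3 / 4 * u ^ 2) * ((j * Real.pi) ^ 2 * hk j 0 u + hk j 2 u) -
    4 / 3 * (1 - 3 / 4 * u ^ 2) ^ 2 * ((j * Real.pi) ^ 2 * hk j 1 u + hk j 3 u)

/-- The amplitudes. -/
noncomputable def amp : ℕ → ℝ
  | 1 => 1 / 10
  | 2 => 3 / 1250
  | 3 => 1 / 5000
  | _ => 0

/-- The monotonicity inequality (two variables). -/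
def HannBox : Prop := ∀ u φ : ℝ, u ^ 2 ≤ 4 / 3 →
  0 ≤ 1 / 2 - ∑ j ∈ Finset.Icc 1 3, amp j *
    (j * Real.pi * hR j u * Real.cos (j * φ) - hR1 j u * Real.sin (j * φ))

/-- The inequality at the wall (two variables). -/
def HannWall : Prop := ∀ τ x : ℝ, 0 ≤ τ → τ ≤ 1 →
  1 ≤ g (h0 * τ) * (1 + τ - 2 * ∑ j ∈ Finset.Icc 1 3, amp j *
    (Real.sin (j * Real.pi * x) + hk j 0 τ * Real.sin (j * Real.pi * (τ - x))))

end Pool.Agent.Strip051
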