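import Pool.Agent.Strip051.Kern.Hann

/-! # The approximating polynomials of the sinusoidal kernel -/

namespace Pool.Agent.Strip051

/-- Coefficients of `u ^ i` times `2 ^ 30` in the approximation of `amp j * (j * π * hR j u)`. -/
def lA : ℕ → List ℤ
  | 1 => [-822956682, 0, 429902687, 0, -93206855, 0, 11500785, 0, -927777, 0, 53044, 0, -2268, 0, 0, 
    0, 0, 0, 0, 0, 0, 0, 0, 0, 0, 0, 0, 0, 0, 0, 0]
  | 2 => [-465648943, 0, 1084853224, 0, -998308560, 0, 510791304, 0, -168746892, 0, 39221852, 0, 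
    -6785843, 0, 909692, 0, -97387, 0, 8525, 0, -622, 0, 38, 0, 0, 0, 0, 0, 0, 0, 0]
  | 3 => [-146986747, 0, 1058302468, 0, -2498614826, 0, 3086918564, 0, -2396068614, 0, 1289633377, 0, 
    -512269831, 0, 156816625, 0, -38197247, 0, 7588191, 0, -1253893, 0, 175142, 0, -20959, 0, 
    2173, 0, -197, 0, 16]
  | _ => []

/-- Coefficients of `u ^ i` times `2 ^ 30` in the approximation of `amp j * hR1 j u`. -/
def lB : ℕ → List ℤ
  | 1 => [0, 273684550, 0, -118674653, 0, 21964881, 0, -2362565, 0, 168844, 0, -8662, 0, 336, 0, 0, 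
    0, 0, 0, 0, 0, 0, 0, 0, 0, 0, 0, 0, 0, 0, 0]
  | 2 => [0, 345319506, 0, -635542968, 0, 487769765, 0, -214855216, 0, 62423516, 0, -12960006, 0, 
    2026948, 0, -247995, 0, 24421, 0, -1979, 0, 134, 0, 0, 0, 0, 0, 0, 0, 0, 0]
  | 3 => [0, 224578759, 0, -1060445068, 0, 1965193393, 0, -2033846208, 0, 1368343512, 0, -652242207, 
    0, 232942649, 0, -64845660, 0, 14492377, 0, -2660843, 0, 408830, 0, -53371, 0, 5996, 0, 
    -586, 0, 50, 0]
  | _ => []

end Pool.Agent.Strip051
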