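import Pool.Agent.Strip051.Kern.HannTM

/-! # The approximation of the sinusoidal kernel by polynomials -/

namespace Pool.Agent.Strip051

open Pool.Agent.StripNear Pool.Agent.StripSquare Set MeasureTheory

/-- `f` is approximated (times `K`) by the polynomial with the error. -/
def Ok (K : ℤ) (f : ℝ → ℝ) (t : List ℤ × ℤ) : Prop :=
  ∀ u : ℝ, 0 ≤ u → u ≤ 29 / 25 → |f u * (K : ℝ) - ev t.1 u| ≤ (t.2 : ℝ)

/-- Sum. -/
def tadd (a b : List ℤ × ℤ) : List ℤ × ℤ := (zadd a.1 b.1, a.2 + b.2)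

theorem Ok.add {K : ℤ} {f h : ℝ → ℝ} {a b : List ℤ × ℤ} (ha : Ok K f a) (hb : Ok K h b) :
    Ok K (fun u => f u + h u) (tadd a b) := by
  intro u h0 h1
  have k1 := ha u h0 h1
  have k2 := hb u h0 h1
  unfold tadd
  simp only
  rw [ev_zadd]
  have e : (f u + h u) * (K : ℝ) - (ev a.1 u + ev b.1 u) =
      (f u * K - ev a.1 u) + (h u * K - ev b.1 u) := by ring
  rw [e]
  push_cast
  exact (abs_add_le _ _).trans (add_le_add k1 k2)

/-- Product of polynomials. -/
def lmul : List ℤ → List ℤ → List ℤ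
  | [], _ => []
  | a :: q, z => zadd (z.map (a * ·)) (0 :: lmul q z)

theorem ev_lmul (q z : List ℤ) (u : ℝ) : ev (lmul q z) u = ev q u * ev z u := by
  induction q with
  | nil => simp [lmul, ev]
  | cons a q ih =>
    simp only [lmul, ev]
    rw [ev_zadd, ev_map, ev, ih]
    push_cast
    ring

/-- Product with a polynomial. -/
def tmul (q : List ℤ) (t : List ℤ × ℤ) : List ℤ × ℤ := (lmul q t.1, hb q * t.2)

theorem Ok.mul {K : ℤ} {f : ℝ → ℝ} {t : List ℤ × ℤ} (q : List ℤ) (ht : Ok K f t) :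
    Ok K (fun u => ev q u * f u) (tmul q t) := by
  intro u h0 h1
  have k1 := ht u h0 h1
  unfold tmul
  simp only
  rw [ev_lmul]
  have e : ev q u * f u * (K : ℝ) - ev q u * ev t.1 u = ev q u * (f u * K - ev t.1 u) := by ring
  rw [e, abs_mul]
  push_cast
  exact mul_le_mul (ev_le_hb q h0 (by linarith)) k1 (abs_nonneg _)
    (by exact_mod_cast hb_nonneg q)

/-- Product with a constant. -/
def tcon (K C c : ℤ) (t : List ℤ × ℤ) : List ℤ × ℤ :=
  (t.1.map (fun y => C * y / K),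
    ((|C| + c) * t.2 + c * hb t.1) / K + 1 + hb (t.1.map fun _ => 1))

theorem ev_div {K C : ℤ} (hK : 0 < K) (z : List ℤ) {u : ℝ} (h0 : 0 ≤ u) (h1 : u ≤ 6 / 5) :
    |C * ev z u / K - ev (z.map (fun y => C * y / K)) u| ≤ (hb (z.map fun _ => 1) : ℝ) := by
  have hKr : (0 : ℝ) < K := by exact_mod_cast hK
  induction z with
  | nil => simp [ev, hb]
  | cons a z ih =>
    simp only [ev, hb, List.map_cons]
    have e1 := int_div_near (C * a) hK
    have e2 : (C : ℝ) * (a + u * ev z u) / K - ((C * a / K : ℤ) +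
        u * ev (z.map (fun y => C * y / K)) u) =
        (((C * a : ℤ) : ℝ) / K - ((C * a / K : ℤ) : ℝ)) +
        u * (C * ev z u / K - ev (z.map (fun y => C * y / K)) u) := by
      push_cast
      field_simp
      ring
    rw [e2]
    refine (abs_add_le _ _).trans ?_
    rw [abs_mul u, abs_of_nonneg h0]
    have h2 := six_le (hb (z.map fun _ => 1))
    have h3 : (0 : ℝ) ≤ hb (z.map fun _ => 1) := by exact_mod_cast hb_nonneg _
    have h4 := mul_le_mul h1 ih (abs_nonneg _) (by norm_num)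
    have h5 : ((|1| + (6 * hb (z.map fun _ => 1) / 5 + 1) : ℤ) : ℝ) =
        1 + ((6 * hb (z.map fun _ => 1) / 5 + 1 : ℤ) : ℝ) := by
      rw [abs_one]
      push_cast
      ring
    rw [h5]
    linarith

theorem le_div_add_one (a : ℤ) {b : ℤ} (hb : 0 < b) : (a : ℝ) / b ≤ ((a / b + 1 : ℤ) : ℝ) := by
  have := (abs_le.mp (int_div_near a hb)).2
  push_cast
  linarith

theorem Ok.con {K C c : ℤ} (hK : 0 < K) {x : ℝ} (hx : |x * (K : ℝ) - (C : ℝ)| ≤ (c : ℝ))
    {f : ℝ → ℝ} {t : List ℤ × ℤ} (ht : Ok K f t) :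
    Ok K (fun u => x * f u) (tcon K C c t) := by
  intro u h0 h1
  have hKr : (0 : ℝ) < K := by exact_mod_cast hK
  have k1 := ht u h0 h1
  have k2 := ev_le_hb t.1 h0 (by linarith : u ≤ 6 / 5)
  have k3 := ev_div (C := C) hK t.1 h0 (by linarith : u ≤ 6 / 5)
  have hc : 0 ≤ (c : ℝ) := le_trans (abs_nonneg _) hx
  have hX : |x * (K : ℝ)| ≤ |(C : ℝ)| + c := by
    have : x * (K : ℝ) = (x * K - C) + C := by ring
    rw [this]
    refine (abs_add_le _ _).trans ?_
    linarith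
  have e1 : x * f u * (K : ℝ) = (x * K) * (f u * K) / K := by
    field_simp
  have k4 : |(x * K) * (f u * K) - C * ev t.1 u| ≤
      ((|C| + c) * t.2 + c * hb t.1 : ℤ) := by
    have e : (x * K) * (f u * K) - C * ev t.1 u = (x * K) * (f u * K - ev t.1 u) +
        (x * K - C) * ev t.1 u := by ring
    rw [e]
    refine (abs_add_le _ _).trans ?_
    rw [abs_mul (x * K), abs_mul (x * K - C)]
    push_cast
    exact add_le_add (mul_le_mul hX k1 (abs_nonneg _) (by positivity))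
      (mul_le_mul hx k2 (abs_nonneg _) hc)
  have k5 : |(x * K) * (f u * K) / K - C * ev t.1 u / K| ≤
      (((|C| + c) * t.2 + c * hb t.1) / K + 1 : ℤ) := by
    rw [← sub_div, abs_div, abs_of_pos hKr]
    exact (div_le_div_of_nonneg_right k4 hKr.le).trans (le_div_add_one _ hK)
  unfold tcon
  simp only
  rw [e1]
  have e2 : (x * K) * (f u * K) / K - ev (t.1.map (fun y => C * y / K)) u =
      ((x * K) * (f u * K) / K - C * ev t.1 u / K) +
      (C * ev t.1 u / K - ev (t.1.map (fun y => C * y / K)) u) := by ring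
  rw [e2]
  refine (abs_add_le _ _).trans ?_
  rw [Int.cast_add]
  exact add_le_add k5 k3

theorem Ok.congr {K : ℤ} {f h : ℝ → ℝ} {t : List ℤ × ℤ} (ht : Ok K f t)
    (e : ∀ u, h u = f u) : Ok K h t := by
  intro u h0 h1
  rw [e u]
  exact ht u h0 h1

/-! ### The basic models -/

theorem near_dlist {K : ℤ} {r : ℕ → ℝ} {Y E : List ℤ} (h : Near K r Y E) :
    Near K (fun i => ((1 + i : ℕ) : ℝ) * r (i + 1)) (dlist Y) (dlist E) := by
  cases Y with
  | nil =>
    cases E with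
    | nil => simp only [dlist, Near]
    | cons e E => exact absurd h (by simp only [Near, not_false_eq_true])
  | cons y Y =>
    cases E with
    | nil => exact absurd h (by simp only [Near, not_false_eq_true])
    | cons e E => exact near_deriv h

/-- The coefficients of `hS j n`. -/
noncomputable def cN (j n i : ℕ) : ℝ := hS j (n + i) 0 / i.factorial

theorem cN_succ (j n i : ℕ) : ((1 + i : ℕ) : ℝ) * cN j n (i + 1) = cN j (n + 1) i := by
  unfold cN
  have e1 : n + (i + 1) = n + 1 + i := by ring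
  rw [e1, Nat.factorial_succ]
  have hf : (i.factorial : ℝ) ≠ 0 := by exact_mod_cast i.factorial_ne_zero
  push_cast
  have h2 : (1 : ℝ) + i ≠ 0 := by positivity
  have h3 : (i : ℝ) + 1 ≠ 0 := by positivity
  field_simp
  ring

theorem near_succ {K : ℤ} {j n : ℕ} {Y E : List ℤ} (h : Near K (cN j n) Y E) :
    Near K (cN j (n + 1)) (dlist Y) (dlist E) := by
  have := near_dlist h
  have e : (fun i => ((1 + i : ℕ) : ℝ) * cN j n (i + 1)) = cN j (n + 1) :=
    funext fun i => cN_succ j n i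
  rwa [e] at this

/-- The check of the remainder. -/
def remOk (K : ℤ) (j n N : ℕ) (R : ℤ) : Bool :=
  decide (2 * K * (31416 * j) ^ (n + N) * 29 ^ N ≤ R * (10000 ^ (n + N) * 25 ^ N * N.factorial))

theorem ok_base {K : ℤ} (hK : 0 < K) {j n : ℕ} {Y E : List ℤ} (h : Near K (cN j n) Y E) {R : ℤ}
    (hR : remOk K j n Y.length R = true) : Ok K (hS j n) (Y, hb E + R) := by
  intro u h0 h1
  have hKr : (0 : ℝ) < K := by exact_mod_cast hK
  have k1 := near_ev h0 (by linarith : u ≤ 6 / 5) Y E _ h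
  have k2 := hS_taylor j Y.length n u h0
  set N := Y.length
  have k3 : 2 * (j * Real.pi) ^ (n + N) * u ^ N / N.factorial * K ≤ (R : ℝ) := by
    unfold remOk at hR
    simp only [decide_eq_true_eq] at hR
    have hR' : 2 * (K : ℝ) * (31416 * j) ^ (n + N) * 29 ^ N ≤
        R * (10000 ^ (n + N) * 25 ^ N * N.factorial) := by exact_mod_cast hR
    have hf : (0 : ℝ) < N.factorial := by exact_mod_cast N.factorial_pos
    have hp : (j * Real.pi) ^ (n + N) ≤ (31416 * j / 10000 : ℝ) ^ (n + N) := by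
      apply pow_le_pow_left₀ (by positivity)
      have := Real.pi_lt_d4
      have hj : (0 : ℝ) ≤ j := Nat.cast_nonneg j
      have h5 : j * Real.pi ≤ j * 3.1416 := mul_le_mul_of_nonneg_left this.le hj
      linarith
    have hu : u ^ N ≤ (29 / 25 : ℝ) ^ N := pow_le_pow_left₀ h0 h1 N
    calc 2 * (j * Real.pi) ^ (n + N) * u ^ N / N.factorial * K ≤
        2 * (31416 * j / 10000 : ℝ) ^ (n + N) * (29 / 25 : ℝ) ^ N / N.factorial * K := by
          gcongr
      _ = (2 * (K : ℝ) * (31416 * j) ^ (n + N) * 29 ^ N) /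
          (10000 ^ (n + N) * 25 ^ N * N.factorial) := by
          rw [div_pow, div_pow]
          field_simp
      _ ≤ R := by
          rw [div_le_iff₀ (by positivity)]
          exact hR'
  have k4 : |hS j n u * K - (∑ i ∈ Finset.range N, cN j n i * u ^ i) * K| ≤ (R : ℝ) := by
    rw [← sub_mul, abs_mul, abs_of_pos hKr]
    exact (mul_le_mul_of_nonneg_right k2 hKr.le).trans k3
  have e : hS j n u * (K : ℝ) - ev Y u =
      ((∑ i ∈ Finset.range N, cN j n i * u ^ i) * K - ev Y u) +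
      (hS j n u * K - (∑ i ∈ Finset.range N, cN j n i * u ^ i) * K) := by ring
  simp only
  rw [e]
  push_cast
  exact (abs_add_le _ _).trans (add_le_add k1 k4)

/-- The scale. -/
def sK : ℤ := 1152921504606846976

theorem sK_eq : (sK : ℝ) = 2 ^ 60 := by
  unfold sK
  norm_num

/-- The approximate squares `(j π) ^ 2`. -/
def Wj : ℕ → ℤ
  | 1 => 11378879155978302162
  | 2 => 45515516623913208649
  | _ => 102409912403804719461

/-- The approximate constants `amp j * j * π / 12`. -/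
def Cj : ℕ → ℤ
  | 1 => 30183414408654679
  | 2 => 1448803891615425
  | _ => 181100486451928

/-- The approximate constants `amp j / 12`. -/
def Dj : ℕ → ℤ
  | 1 => 9607679205057058
  | 2 => 230584300921369
  | _ => 19215358410114

theorem Wj_near (j : ℕ) (hj : j ∈ Finset.Icc 1 3) :
    |(j * Real.pi) ^ 2 * (sK : ℝ) - (Wj j : ℝ)| ≤ ((2 : ℤ) : ℝ) := by
  have h1 := Real.pi_gt_d20
  have h2 := Real.pi_lt_d20
  have h3 : (3.14159265358979323846 : ℝ) ^ 2 < Real.pi ^ 2 := by
    apply pow_lt_pow_left₀ h1 (by norm_num) (by norm_num)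
  have h4 : Real.pi ^ 2 < (3.14159265358979323847 : ℝ) ^ 2 := by
    apply pow_lt_pow_left₀ h2 Real.pi_pos.le (by norm_num)
  unfold sK
  fin_cases hj <;> simp only [Wj] <;> push_cast <;> rw [abs_le] <;> constructor <;> nlinarith

theorem Cj_near (j : ℕ) (hj : j ∈ Finset.Icc 1 3) :
    |amp j * (j * Real.pi) / 12 * (sK : ℝ) - (Cj j : ℝ)| ≤ ((2 : ℤ) : ℝ) := by
  have h1 := Real.pi_gt_d20
  have h2 := Real.pi_lt_d20
  unfold sK
  fin_cases hj <;> simp only [Cj, amp] <;> push_cast <;> rw [abs_le] <;> constructor <;> linarith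

theorem Dj_near (j : ℕ) (hj : j ∈ Finset.Icc 1 3) :
    |amp j / 12 * (sK : ℝ) - (Dj j : ℝ)| ≤ ((2 : ℤ) : ℝ) := by
  unfold sK
  fin_cases hj <;> simp only [Dj, amp] <;> push_cast <;> rw [abs_le] <;> constructor <;> norm_num

/-- The base lists. -/
def bL (j : ℕ) : List ℤ × List ℤ := bld sK (Wj j) 2 21 0 sK 0 sK 0

theorem bL_near (j : ℕ) (hj : j ∈ Finset.Icc 1 3) : Near sK (cN j 0) (bL j).1 (bL j).2 := by
  have hj1 : 1 ≤ j := (Finset.mem_Icc.mp hj).1
  have hW : 0 ≤ Wj j := by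
    fin_cases hj <;> decide
  have e0 : hS j 0 0 = 1 := hS_zero_zero hj1
  apply bld_near (by decide) (Wj_near j hj) hW (vr := fun m => cS j (2 * m)) (tr := tS j)
    (tS_succ j) (fun m => cS_succ hj1 m)
  · unfold cS
    simp [e0]
  · unfold tS
    simp
  · intro i
    unfold cN cS
    simp
  · intro i
    unfold cN
    rw [zero_add, hS_odd_zero j ⟨i, by ring⟩, zero_div]

/-- The remainders. -/
def Rem : ℕ → ℕ → ℤ
  | 1, _ => 1
  | 2, 0 => 474
  | 2, 1 => 17546
  | 2, 2 => 635268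
  | 2, _ => 22453407
  | _, 0 => 17663580814
  | _, 1 => 654770668090
  | _, 2 => 23707213844618
  | _, _ => 837927385887351

/-- The models of `hS j n`. -/
def M0 (j : ℕ) : List ℤ × ℤ := ((bL j).1, hb (bL j).2 + Rem j 0)

/-- The models of `hS j n`. -/
def M1 (j : ℕ) : List ℤ × ℤ := (dlist (bL j).1, hb (dlist (bL j).2) + Rem j 1)

/-- The models of `hS j n`. -/
def M2 (j : ℕ) : List ℤ × ℤ := (dlist (dlist (bL j).1), hb (dlist (dlist (bL j).2)) + Rem j 2)

/-- The models of `hS j n`. -/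
def M3 (j : ℕ) : List ℤ × ℤ :=
  (dlist (dlist (dlist (bL j).1)), hb (dlist (dlist (dlist (bL j).2))) + Rem j 3)

theorem rem_all : ([1, 2, 3].all fun j => remOk sK j 0 (bL j).1.length (Rem j 0) &&
    remOk sK j 1 (dlist (bL j).1).length (Rem j 1) &&
    remOk sK j 2 (dlist (dlist (bL j).1)).length (Rem j 2) &&
    remOk sK j 3 (dlist (dlist (dlist (bL j).1))).length (Rem j 3)) = true := by
  decide +kernel

theorem M_ok (j : ℕ) (hj : j ∈ Finset.Icc 1 3) : Ok sK (hS j 0) (M0 j) ∧ Ok sK (hS j 1) (M1 j) ∧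
    Ok sK (hS j 2) (M2 j) ∧ Ok sK (hS j 3) (M3 j) := by
  have h := rem_all
  rw [List.all_eq_true] at h
  have hm : j ∈ [1, 2, 3] := by
    rw [Finset.mem_Icc] at hj
    obtain ⟨k1, k2⟩ := hj
    interval_cases j <;> decide
  have h1 := h j hm
  simp only [Bool.and_eq_true] at h1
  obtain ⟨⟨⟨r0, r1⟩, r2⟩, r3⟩ := h1
  have n0 := bL_near j hj
  have n1 := near_succ n0
  have n2 := near_succ n1
  have n3 := near_succ n2
  have hK : 0 < sK := by decide
  exact ⟨ok_base hK n0 r0, ok_base hK n1 r1, ok_base hK n2 r2, ok_base hK n3 r3⟩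

/-! ### The kernel -/

/-- `hk j 0`. -/
def k0 (j : ℕ) : List ℤ × ℤ := tmul [1, 0, -3] (M0 j)

/-- `hk j 1`. -/
def k1 (j : ℕ) : List ℤ × ℤ := tadd (tmul [1, 0, -3] (M1 j)) (tmul [0, -6] (M0 j))

/-- `hk j 2`. -/
def k2 (j : ℕ) : List ℤ × ℤ :=
  tadd (tadd (tmul [1, 0, -3] (M2 j)) (tmul [0, -12] (M1 j))) (tmul [-6] (M0 j))

/-- `hk j 3`. -/
def k3 (j : ℕ) : List ℤ × ℤ :=
  tadd (tadd (tmul [1, 0, -3] (M3 j)) (tmul [0, -18] (M2 j))) (tmul [-18] (M1 j))

/-- `(j π) ^ 2 hk j 0 + hk j 2`. -/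
def k4 (j : ℕ) : List ℤ × ℤ := tadd (tcon sK (Wj j) 2 (k0 j)) (k2 j)

/-- `(j π) ^ 2 hk j 1 + hk j 3`. -/
def k5 (j : ℕ) : List ℤ × ℤ := tadd (tcon sK (Wj j) 2 (k1 j)) (k3 j)

/-- `12 hR j`. -/
def kR (j : ℕ) : List ℤ × ℤ :=
  tadd (tadd (tmul [12] (k0 j)) (tmul [0, 24, 0, -18] (k1 j))) (tmul [-16, 0, 24, 0, -9] (k4 j))

/-- `12 hR1 j`. -/
def kR1 (j : ℕ) : List ℤ × ℤ :=
  tadd (tadd (tadd (tmul [36, 0, -54] (k1 j)) (tmul [0, 24, 0, -18] (k2 j)))
    (tmul [0, 48, 0, -36] (k4 j))) (tmul [-16, 0, 24, 0, -9] (k5 j))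

/-- The comparison. -/
def cmp (t : List ℤ × ℤ) (l : List ℤ) : Bool :=
  decide (10000 * (t.2 + hb (zadd t.1 (l.map ((-1073741824) * ·)))) ≤ sK)

theorem cmp_sound {f : ℝ → ℝ} {t : List ℤ × ℤ} {l : List ℤ} (hf : Ok sK f t)
    (h : cmp t l = true) {u : ℝ} (h0 : 0 ≤ u) (h1 : u ≤ 29 / 25) :
    |f u - ev l u / 2 ^ 30| ≤ 1 / 10000 := by
  unfold cmp at h
  simp only [decide_eq_true_eq] at h
  have k1 := hf u h0 h1
  have k2 := ev_le_hb (zadd t.1 (l.map ((-1073741824) * ·))) h0 (by linarith : u ≤ 6 / 5)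
  rw [ev_zadd, ev_map] at k2
  have h' : (10000 : ℝ) * (t.2 + hb (zadd t.1 (l.map ((-1073741824) * ·)))) ≤ sK := by
    exact_mod_cast h
  have hK : (0 : ℝ) < sK := by
    rw [sK_eq]
    positivity
  have k3 : |f u * sK - 1073741824 * ev l u| ≤ sK / 10000 := by
    have e : f u * sK - 1073741824 * ev l u = (f u * sK - ev t.1 u) +
        (ev t.1 u + ((-1073741824 : ℤ) : ℝ) * ev l u) := by
      push_cast
      ring
    rw [e]
    refine (abs_add_le _ _).trans ?_
    rw [le_div_iff₀ (by norm_num)]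
    linarith
  have e2 : f u * sK - 1073741824 * ev l u = (f u - ev l u / 2 ^ 30) * sK := by
    rw [sK_eq]
    ring
  rw [e2, abs_mul, abs_of_pos hK] at k3
  have : |f u - ev l u / 2 ^ 30| * (sK : ℝ) ≤ (1 / 10000) * (sK : ℝ) := by linarith
  exact le_of_mul_le_mul_right this hK

theorem cmp_all : ([1, 2, 3].all fun j => cmp (tcon sK (Cj j) 2 (kR j)) (lA j) &&
    cmp (tcon sK (Dj j) 2 (kR1 j)) (lB j)) = true := by
  decide +kernel

theorem ok_hk (j : ℕ) (hj : j ∈ Finset.Icc 1 3) : Ok sK (hk j 0) (k0 j) ∧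
    Ok sK (hk j 1) (k1 j) ∧ Ok sK (hk j 2) (k2 j) ∧ Ok sK (hk j 3) (k3 j) := by
  obtain ⟨h0, h1, h2, h3⟩ := M_ok j hj
  refine ⟨?_, ?_, ?_, ?_⟩
  · refine (h0.mul [1, 0, -3]).congr fun u => ?_
    simp only [ev, hk]
    push_cast
    ring
  · refine ((h1.mul [1, 0, -3]).add (h0.mul [0, -6])).congr fun u => ?_
    simp only [ev, hk]
    push_cast
    norm_num
    ring
  · refine (((h2.mul [1, 0, -3]).add (h1.mul [0, -12])).add (h0.mul [-6])).congr fun u => ?_
    simp only [ev, hk]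
    push_cast
    norm_num
    ring
  · refine (((h3.mul [1, 0, -3]).add (h2.mul [0, -18])).add (h1.mul [-18])).congr fun u => ?_
    simp only [ev, hk]
    push_cast
    norm_num
    ring

theorem hannPoly : HannPoly := by
  intro u h0 h1 j hj
  have hK : 0 < sK := by decide
  obtain ⟨p0, p1, p2, p3⟩ := ok_hk j hj
  have p4 := ((p0.con hK (Wj_near j hj)).add p2)
  have p5 := ((p1.con hK (Wj_near j hj)).add p3)
  have pR := ((p0.mul [12]).add (p1.mul [0, 24, 0, -18])).add (p4.mul [-16, 0, 24, 0, -9])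
  have pR1 := (((p1.mul [36, 0, -54]).add (p2.mul [0, 24, 0, -18])).add
    (p4.mul [0, 48, 0, -36])).add (p5.mul [-16, 0, 24, 0, -9])
  have qR := pR.con hK (Cj_near j hj)
  have qR1 := pR1.con hK (Dj_near j hj)
  have h := cmp_all
  rw [List.all_eq_true] at h
  have hm : j ∈ [1, 2, 3] := by
    rw [Finset.mem_Icc] at hj
    obtain ⟨k1, k2⟩ := hj
    interval_cases j <;> decide
  have h2 := h j hm
  simp only [Bool.and_eq_true] at h2
  constructor
  · have := cmp_sound qR h2.1 h0 h1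
    have e : amp j * (j * Real.pi * hR j u) = amp j * (j * Real.pi) / 12 *
        (ev [12] u * hk j 0 u + ev [0, 24, 0, -18] u * hk j 1 u +
          ev [-16, 0, 24, 0, -9] u * ((j * Real.pi) ^ 2 * hk j 0 u + hk j 2 u)) := by
      simp only [ev, hR]
      push_cast
      ring
    rw [e]
    exact this
  · have := cmp_sound qR1 h2.2 h0 h1
    have e : amp j * hR1 j u = amp j / 12 *
        (ev [36, 0, -54] u * hk j 1 u + ev [0, 24, 0, -18] u * hk j 2 u +
          ev [0, 48, 0, -36] u * ((j * Real.pi) ^ 2 * hk j 0 u + hk j 2 u) +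
          ev [-16, 0, 24, 0, -9] u * ((j * Real.pi) ^ 2 * hk j 1 u + hk j 3 u)) := by
      simp only [ev, hR1]
      push_cast
      ring
    rw [e]
    exact this

theorem hannBox : HannBox := hannBox_of_poly hannPoly

end Pool.Agent.Strip051
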