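import Pool.Agent.Strip051.Kern.PolyBox

/-! # Taylor models for the sinusoidal kernel -/

namespace Pool.Agent.Strip051

open Pool.Agent.StripNear Pool.Agent.StripSquare Set MeasureTheory

/-! ### Taylor expansion of `hS` at `0` -/

theorem hS_taylor (j N : ℕ) : ∀ n : ℕ, ∀ u : ℝ, 0 ≤ u →
    |hS j n u - ∑ i ∈ Finset.range N, hS j (n + i) 0 / i.factorial * u ^ i| ≤
      2 * (j * Real.pi) ^ (n + N) * u ^ N / N.factorial := by
  induction N with
  | zero =>
    intro n u _
    simpa using abs_hS_le j n u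
  | succ N ih =>
    intro n u hu
    have hd : ∀ x : ℝ, HasDerivAt (fun u : ℝ => hS j n u -
        ∑ i ∈ Finset.range (N + 1), hS j (n + i) 0 / i.factorial * u ^ i)
        (hS j (n + 1) x - ∑ i ∈ Finset.range N, hS j (n + 1 + i) 0 / i.factorial * x ^ i) x := by
      intro x
      refine (hasDerivAt_hS j n x).sub ?_
      have h1 : HasDerivAt (fun u : ℝ => ∑ i ∈ Finset.range (N + 1),
          hS j (n + i) 0 / i.factorial * u ^ i) (∑ i ∈ Finset.range (N + 1),
          hS j (n + i) 0 / i.factorial * (i * x ^ (i - 1))) x :=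
        HasDerivAt.fun_sum fun i _ => (hasDerivAt_pow i x).const_mul _
      refine h1.congr_deriv ?_
      rw [Finset.sum_range_succ']
      simp only [Nat.cast_zero, zero_mul, mul_zero, add_zero]
      apply Finset.sum_congr rfl
      intro i _
      have e1 : n + (i + 1) = n + 1 + i := by ring
      have e2 : i + 1 - 1 = i := by omega
      rw [e1, e2, Nat.factorial_succ]
      push_cast
      field_simp
    have hb : ∀ x : ℝ, HasDerivAt (fun u : ℝ => 2 * (j * Real.pi) ^ (n + (N + 1)) * u ^ (N + 1) /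
        (N + 1).factorial) (2 * (j * Real.pi) ^ (n + 1 + N) * x ^ N / N.factorial) x := by
      intro x
      have h1 := ((hasDerivAt_pow (N + 1) x).const_mul
        (2 * (j * Real.pi) ^ (n + (N + 1)))).div_const ((N + 1).factorial : ℝ)
      refine h1.congr_deriv ?_
      have e2 : N + 1 - 1 = N := by omega
      have e1 : n + (N + 1) = n + 1 + N := by ring
      rw [e2, e1, Nat.factorial_succ]
      push_cast
      field_simp
    have key : ∀ x ∈ Icc 0 u, ‖(fun u : ℝ => hS j n u -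
        ∑ i ∈ Finset.range (N + 1), hS j (n + i) 0 / i.factorial * u ^ i) x‖ ≤
        (fun u : ℝ => 2 * (j * Real.pi) ^ (n + (N + 1)) * u ^ (N + 1) /
        (N + 1).factorial) x := by
      apply image_norm_le_of_norm_deriv_right_le_deriv_boundary
        (f := fun u : ℝ => hS j n u -
          ∑ i ∈ Finset.range (N + 1), hS j (n + i) 0 / i.factorial * u ^ i)
        (B := fun u : ℝ => 2 * (j * Real.pi) ^ (n + (N + 1)) * u ^ (N + 1) /
          (N + 1).factorial)
        (f' := fun x => hS j (n + 1) x - ∑ i ∈ Finset.range N,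
          hS j (n + 1 + i) 0 / i.factorial * x ^ i)
        (B' := fun x => 2 * (j * Real.pi) ^ (n + 1 + N) * x ^ N / N.factorial)
      · exact fun x _ => (hd x).continuousAt.continuousWithinAt
      · exact fun x _ => (hd x).hasDerivWithinAt
      · simp [Finset.sum_range_succ']
      · exact fun x => hb x
      · intro x hx
        exact ih (n + 1) x hx.1
    exact key u (right_mem_Icc.mpr hu)

/-- The relation of order `n + 3`. -/
theorem hS_ode {j : ℕ} (hj : 1 ≤ j) (n : ℕ) : ∀ u : ℝ,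
    u * (1 - u ^ 2) * hS j (n + 3) u + (n + 3) * (1 - 3 * u ^ 2) * hS j (n + 2) u -
      3 * (n + 3) * (n + 2) * u * hS j (n + 1) u - (n + 3) * (n + 2) * (n + 1) * hS j n u =
      (j * Real.pi) ^ (n + 2) * Real.sin (j * Real.pi * u + (n + 3) * (Real.pi / 2)) := by
  induction n with
  | zero =>
    intro u
    have h := hS_ode3 hj u
    have e : j * Real.pi * u + ((0 : ℕ) + 3) * (Real.pi / 2) =
        j * Real.pi * u + Real.pi / 2 + Real.pi := by
      push_cast
      ring
    rw [e, Real.sin_add_pi, Real.sin_add_pi_div_two]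
    push_cast
    norm_num
    norm_num at h
    linear_combination h
  | succ n ih =>
    intro u
    have hp := hasDerivAt_p u
    have hq := (hasDerivAt_q u).const_mul ((n : ℝ) + 3)
    have hr := hasDerivAt_lin (3 * ((n : ℝ) + 3) * (n + 2)) u
    have h1 := (((hp.mul (hasDerivAt_hS j (n + 3) u)).add
      (hq.mul (hasDerivAt_hS j (n + 2) u))).sub (hr.mul (hasDerivAt_hS j (n + 1) u))).sub
      ((hasDerivAt_hS j n u).const_mul (((n : ℝ) + 3) * (n + 2) * (n + 1)))
    have h2 : HasDerivAt (fun u : ℝ => (j * Real.pi) ^ (n + 2) *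
        Real.sin (j * Real.pi * u + (n + 3) * (Real.pi / 2)))
        ((j * Real.pi) ^ (n + 2) * (Real.cos (j * Real.pi * u + (n + 3) * (Real.pi / 2)) *
          (j * Real.pi))) u := by
      have := (((hasDerivAt_lin (j * Real.pi) u).add_const
        (((n : ℝ) + 3) * (Real.pi / 2))).sin).const_mul ((j * Real.pi) ^ (n + 2))
      exact this
    have h3 : (fun u : ℝ => u * (1 - u ^ 2) * hS j (n + 3) u +
        (n + 3) * (1 - 3 * u ^ 2) * hS j (n + 2) u -
        3 * (n + 3) * (n + 2) * u * hS j (n + 1) u - (n + 3) * (n + 2) * (n + 1) * hS j n u) =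
        fun u : ℝ => (j * Real.pi) ^ (n + 2) *
        Real.sin (j * Real.pi * u + (n + 3) * (Real.pi / 2)) := funext ih
    have h4 := HasDerivAt.unique (h1 : HasDerivAt (fun u : ℝ => u * (1 - u ^ 2) * hS j (n + 3) u +
        (n + 3) * (1 - 3 * u ^ 2) * hS j (n + 2) u -
        3 * (n + 3) * (n + 2) * u * hS j (n + 1) u - (n + 3) * (n + 2) * (n + 1) * hS j n u) _ u)
        (h3 ▸ h2)
    have e : j * Real.pi * u + (((n + 1 : ℕ) : ℝ) + 3) * (Real.pi / 2) =
        j * Real.pi * u + (n + 3) * (Real.pi / 2) + Real.pi / 2 := by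
      push_cast
      ring
    rw [e, Real.sin_add_pi_div_two]
    push_cast
    have e3 : n + 1 + 3 = n + 3 + 1 := by ring
    have e4 : n + 1 + 2 = n + 2 + 1 := by ring
    rw [e3, e4, pow_succ]
    linear_combination h4

/-- The Taylor coefficients. -/
noncomputable def cS (j k : ℕ) : ℝ := hS j k 0 / k.factorial

/-- The increments of the Taylor coefficients. -/
noncomputable def tS (j m : ℕ) : ℝ := (-1) ^ m * (j * Real.pi) ^ (2 * m) / (2 * m + 1).factorial

theorem cS_succ {j : ℕ} (hj : 1 ≤ j) (m : ℕ) :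
    cS j (2 * (m + 1)) = cS j (2 * m) + tS j (m + 1) := by
  have h := hS_ode hj (2 * m) 0
  have e : (j : ℝ) * Real.pi * 0 + (((2 * m : ℕ) : ℝ) + 3) * (Real.pi / 2) =
      Real.pi / 2 + ((m + 1 : ℕ) : ℝ) * Real.pi := by
    push_cast
    ring
  rw [e, Real.sin_add_nat_mul_pi, Real.sin_pi_div_two] at h
  simp only [zero_mul, zero_pow, ne_eq, OfNat.ofNat_ne_zero, not_false_eq_true, mul_zero,
    sub_zero, mul_one, zero_add] at h
  unfold cS tS
  have e2 : 2 * (m + 1) = 2 * m + 2 := by ring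
  have f1 : (2 * m + 2).factorial = (2 * m + 2) * ((2 * m + 1) * (2 * m).factorial) := by
    rw [Nat.factorial_succ, Nat.factorial_succ]
  have f2 : (2 * m + 2 + 1).factorial =
      (2 * m + 3) * ((2 * m + 2) * ((2 * m + 1) * (2 * m).factorial)) := by
    rw [Nat.factorial_succ, f1]
  rw [e2, f1, f2]
  push_cast at h ⊢
  have hf : ((2 * m).factorial : ℝ) ≠ 0 := by exact_mod_cast (2 * m).factorial_ne_zero
  field_simp
  linear_combination h

theorem tS_succ (j m : ℕ) : tS j (m + 1) =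
    -(tS j m * (j * Real.pi) ^ 2 / ((2 * m + 2) * (2 * m + 3))) := by
  unfold tS
  have f2 : (2 * (m + 1) + 1).factorial =
      (2 * m + 3) * ((2 * m + 2) * (2 * m + 1).factorial) := by
    have : 2 * (m + 1) + 1 = 2 * m + 1 + 1 + 1 := by ring
    rw [this, Nat.factorial_succ, Nat.factorial_succ]
  rw [f2]
  push_cast
  have hf : ((2 * m + 1).factorial : ℝ) ≠ 0 := by exact_mod_cast (2 * m + 1).factorial_ne_zero
  field_simp
  ring

/-! ### Lists -/

/-- A bound for a polynomial on `[-6/5, 6/5]`. -/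
def hb : List ℤ → ℤ
  | [] => 0
  | a :: l => |a| + (6 * hb l / 5 + 1)

theorem hb_nonneg (l : List ℤ) : 0 ≤ hb l := by
  induction l with
  | nil => simp [hb]
  | cons a l ih =>
    simp only [hb]
    have : 0 ≤ 6 * hb l / 5 := by positivity
    positivity

theorem six_le (n : ℤ) : 6 / 5 * (n : ℝ) ≤ ((6 * n / 5 + 1 : ℤ) : ℝ) := by
  have h1 : 6 * n < 5 * (6 * n / 5 + 1) := by omega
  have h2 : (6 * (n : ℝ)) < 5 * ((6 * n / 5 + 1 : ℤ) : ℝ) := by exact_mod_cast h1
  linarith

theorem ev_le_hb (l : List ℤ) {u : ℝ} (h0 : 0 ≤ u) (h1 : u ≤ 6 / 5) : |ev l u| ≤ hb l := by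
  induction l with
  | nil => simp [ev, hb]
  | cons a l ih =>
    simp only [ev, hb]
    refine (abs_add_le _ _).trans ?_
    rw [abs_mul, abs_of_nonneg h0]
    have h2 := six_le (hb l)
    have h3 : (0 : ℝ) ≤ hb l := by exact_mod_cast hb_nonneg l
    have h4 : u * |ev l u| ≤ 6 / 5 * hb l := mul_le_mul h1 ih (abs_nonneg _) (by norm_num)
    push_cast at h2 ⊢
    linarith

/-- The integers `Y` approximate `K * r i` with errors `E`. -/
def Near (K : ℤ) : (ℕ → ℝ) → List ℤ → List ℤ → Prop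
  | _, [], [] => True
  | r, y :: Y, e :: E => |r 0 * (K : ℝ) - (y : ℝ)| ≤ (e : ℝ) ∧ Near K (fun i => r (i + 1)) Y E
  | _, _, _ => False

theorem near_ev {K : ℤ} {u : ℝ} (h0 : 0 ≤ u) (h1 : u ≤ 6 / 5) :
    ∀ (Y E : List ℤ) (r : ℕ → ℝ), Near K r Y E →
    |(∑ i ∈ Finset.range Y.length, r i * u ^ i) * (K : ℝ) - ev Y u| ≤ (hb E : ℝ) := by
  intro Y
  induction Y with
  | nil =>
    intro E r h
    cases E with
    | nil => simp [ev, hb]
    | cons e E => exact absurd h (by simp only [Near, not_false_eq_true])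
  | cons y Y ih =>
    intro E r h
    cases E with
    | nil => exact absurd h (by simp only [Near, not_false_eq_true])
    | cons e E =>
      obtain ⟨k1, k2⟩ := h
      have k3 := ih E _ k2
      rw [List.length_cons, Finset.sum_range_succ']
      simp only [ev, hb, pow_zero, mul_one]
      have e1 : ∑ i ∈ Finset.range Y.length, r (i + 1) * u ^ (i + 1) =
          u * ∑ i ∈ Finset.range Y.length, r (i + 1) * u ^ i := by
        rw [Finset.mul_sum]
        apply Finset.sum_congr rfl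
        intro i _
        ring
      rw [e1]
      have e2 : (u * ∑ i ∈ Finset.range Y.length, r (i + 1) * u ^ i + r 0) * (K : ℝ) -
          (y + u * ev Y u) = (r 0 * K - y) +
          u * ((∑ i ∈ Finset.range Y.length, r (i + 1) * u ^ i) * K - ev Y u) := by ring
      rw [e2]
      refine (abs_add_le _ _).trans ?_
      rw [abs_mul u, abs_of_nonneg h0]
      have h2 := six_le (hb E)
      have h3 : (0 : ℝ) ≤ hb E := by exact_mod_cast hb_nonneg E
      have h4 := mul_le_mul h1 k3 (abs_nonneg _) (by norm_num)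
      have h5 : (e : ℝ) ≤ |(e : ℝ)| := le_abs_self _
      push_cast at h2 ⊢
      linarith

/-- Multiplication by the index. -/
def dl : ℕ → List ℤ → List ℤ
  | _, [] => []
  | k, y :: Y => k * y :: dl (k + 1) Y

theorem near_dl {K : ℤ} : ∀ (Y E : List ℤ) (r : ℕ → ℝ) (k : ℕ), Near K r Y E →
    Near K (fun i => ((k + i : ℕ) : ℝ) * r i) (dl k Y) (dl k E) := by
  intro Y
  induction Y with
  | nil =>
    intro E r k h
    cases E with
    | nil => simp only [dl, Near]
    | cons e E => exact absurd h (by simp only [Near, not_false_eq_true])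
  | cons y Y ih =>
    intro E r k h
    cases E with
    | nil => exact absurd h (by simp only [Near, not_false_eq_true])
    | cons e E =>
      obtain ⟨k1, k2⟩ := h
      simp only [dl, Near]
      constructor
      · have : ((k + 0 : ℕ) : ℝ) * r 0 * K - ((k * y : ℤ) : ℝ) = k * (r 0 * K - y) := by
          push_cast
          ring
        rw [this, abs_mul, Nat.abs_cast]
        push_cast
        exact mul_le_mul_of_nonneg_left k1 (Nat.cast_nonneg k)
      · have := ih E _ (k + 1) k2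
        have e1 : (fun i => ((k + (i + 1) : ℕ) : ℝ) * r (i + 1)) =
            fun i => ((k + 1 + i : ℕ) : ℝ) * r (i + 1) := by
          funext i
          congr 2
          ring
        rw [e1]
        exact this

/-- The derivative. -/
def dlist : List ℤ → List ℤ
  | [] => []
  | _ :: Y => dl 1 Y

theorem near_deriv {K : ℤ} {r : ℕ → ℝ} {y e : ℤ} {Y E : List ℤ}
    (h : Near K r (y :: Y) (e :: E)) :
    Near K (fun i => ((1 + i : ℕ) : ℝ) * r (i + 1)) (dlist (y :: Y)) (dlist (e :: E)) :=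
  near_dl Y E _ 1 h.2

/-- The lists of approximate Taylor coefficients and errors. -/
def bld (K W w : ℤ) : ℕ → ℤ → ℤ → ℤ → ℤ → ℤ → List ℤ × List ℤ
  | 0, _, v, e, _, _ => ([v], [e])
  | k + 1, m, v, e, t, s =>
    let D := K * ((2 * m + 2) * (2 * m + 3))
    let t' := -(t * W / D)
    let s' := (s * (W + w) + |t| * w) / D + 2
    match bld K W w k (m + 1) (v + t') (e + s') t' s' with
    | (Y, E) => (v :: 0 :: Y, e :: 0 :: E)

theorem int_div_near (a : ℤ) {b : ℤ} (hb : 0 < b) :
    |(a : ℝ) / b - ((a / b : ℤ) : ℝ)| ≤ 1 := by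
  have h1 : b * (a / b) ≤ a := by
    rw [mul_comm]
    exact Int.ediv_mul_le a hb.ne'
  have h2 : a < b * (a / b) + b := by
    have := Int.lt_ediv_add_one_mul_self a hb
    nlinarith
  have hb' : (0 : ℝ) < b := by exact_mod_cast hb
  have h1' : (b : ℝ) * ((a / b : ℤ) : ℝ) ≤ a := by exact_mod_cast h1
  have h2' : (a : ℝ) < b * ((a / b : ℤ) : ℝ) + b := by exact_mod_cast h2
  rw [abs_le]
  constructor
  · rw [neg_le_sub_iff_le_add, ← sub_le_iff_le_add, le_div_iff₀ hb']
    nlinarith
  · rw [sub_le_iff_le_add, div_le_iff₀ hb']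
    nlinarith

/-- The product of two approximate numbers. -/
theorem mul_near {K W w t s : ℤ} {Wr tr : ℝ} (hWr : |Wr * (K : ℝ) - (W : ℝ)| ≤ (w : ℝ))
    (hW : 0 ≤ W) (ht : |tr * (K : ℝ) - (t : ℝ)| ≤ (s : ℝ)) :
    |(tr * (K : ℝ)) * (Wr * (K : ℝ)) - (t : ℝ) * (W : ℝ)| ≤
      (s : ℝ) * ((W : ℝ) + (w : ℝ)) + |(t : ℝ)| * (w : ℝ) := by
  have hWr0 : (0 : ℝ) ≤ W := by exact_mod_cast hW
  have hs : 0 ≤ (s : ℝ) := le_trans (abs_nonneg _) ht
  have e : (tr * (K : ℝ)) * (Wr * (K : ℝ)) - (t : ℝ) * (W : ℝ) =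
      (tr * K - t) * (Wr * K) + t * (Wr * K - W) := by ring
  rw [e]
  refine (abs_add_le _ _).trans ?_
  rw [abs_mul (tr * K - t), abs_mul (t : ℝ) (Wr * K - W)]
  have k1 : |Wr * (K : ℝ)| ≤ (W : ℝ) + (w : ℝ) := by
    rw [abs_le] at hWr ⊢
    constructor <;> linarith [hWr.1, hWr.2]
  exact add_le_add (mul_le_mul ht k1 (abs_nonneg _) hs)
    (mul_le_mul_of_nonneg_left hWr (abs_nonneg _))

/-- One step of the recursion. -/
theorem step_near {K W w m t s : ℤ} (hK : 0 < K) (hm : 0 ≤ m) {Wr tr : ℝ}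
    (hWr : |Wr * (K : ℝ) - (W : ℝ)| ≤ (w : ℝ)) (hW : 0 ≤ W)
    (ht : |tr * (K : ℝ) - (t : ℝ)| ≤ (s : ℝ)) :
    |-(tr * Wr / ((2 * m + 2) * (2 * m + 3))) * (K : ℝ) -
      ((-(t * W / (K * ((2 * m + 2) * (2 * m + 3)))) : ℤ) : ℝ)| ≤
      (((s * (W + w) + |t| * w) / (K * ((2 * m + 2) * (2 * m + 3))) + 2 : ℤ) : ℝ) := by
  have hKr : (0 : ℝ) < K := by exact_mod_cast hK
  have hmr : (0 : ℝ) ≤ m := by exact_mod_cast hm
  set D : ℤ := K * ((2 * m + 2) * (2 * m + 3)) with hD
  have hDp : 0 < D := by positivity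
  have hDr : (0 : ℝ) < D := by exact_mod_cast hDp
  have e1 : -(tr * Wr / ((2 * m + 2) * (2 * m + 3))) * (K : ℝ) =
      -((tr * K) * (Wr * K) / D) := by
    rw [hD]
    push_cast
    field_simp
  have e2 := int_div_near (t * W) hDp
  have e3 := int_div_near (s * (W + w) + |t| * w) hDp
  have e4 := mul_near hWr hW ht
  have e5 : |(tr * (K : ℝ)) * (Wr * (K : ℝ)) / D - ((t : ℝ) * (W : ℝ)) / D| ≤
      ((s : ℝ) * ((W : ℝ) + (w : ℝ)) + |(t : ℝ)| * (w : ℝ)) / D := by
    rw [← sub_div, abs_div, abs_of_pos hDr]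
    exact div_le_div_of_nonneg_right e4 hDr.le
  rw [e1]
  push_cast at e2 e3 ⊢
  rw [abs_le] at e2 e3 e5 ⊢
  constructor <;> linarith [e2.1, e2.2, e3.1, e3.2, e5.1, e5.2]

theorem bld_near {K W w : ℤ} (hK : 0 < K) {Wr : ℝ}
    (hWr : |Wr * (K : ℝ) - (W : ℝ)| ≤ (w : ℝ)) (hW : 0 ≤ W)
    {vr tr : ℕ → ℝ} (h1 : ∀ m, tr (m + 1) = -(tr m * Wr / ((2 * m + 2) * (2 * m + 3))))
    (h2 : ∀ m, vr (m + 1) = vr m + tr (m + 1)) : ∀ (k m : ℕ) (v e t s : ℤ) (r : ℕ → ℝ),
    |vr m * (K : ℝ) - (v : ℝ)| ≤ (e : ℝ) → |tr m * (K : ℝ) - (t : ℝ)| ≤ (s : ℝ) →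
    (∀ i, r (2 * i) = vr (m + i)) →
    (∀ i, r (2 * i + 1) = 0) → Near K r (bld K W w k m v e t s).1 (bld K W w k m v e t s).2 := by
  intro k
  induction k with
  | zero =>
    intro m v e t s r k1 k2 k3 k4
    simp only [bld, Near]
    have := k3 0
    rw [mul_zero, add_zero] at this
    rw [this]
    exact ⟨k1, trivial⟩
  | succ k ih =>
    intro m v e t s r k1 k2 k3 k4
    simp only [bld, Near]
    refine ⟨?_, ?_, ?_⟩
    · have := k3 0
      rw [mul_zero, add_zero] at this
      rw [this]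
      exact k1
    · have := k4 0
      rw [mul_zero, zero_add] at this
      rw [zero_add, this]
      simp
    · have st := step_near (m := (m : ℤ)) hK (by positivity) hWr hW k2
      have htr := h1 m
      have e0 : ((m : ℤ) : ℝ) = (m : ℝ) := by push_cast; rfl
      rw [e0, ← htr] at st
      have e1 : ((m : ℤ) + 1) = ((m + 1 : ℕ) : ℤ) := by push_cast; ring
      rw [e1]
      apply ih (m + 1)
      · rw [h2 m]
        rw [Int.cast_add, Int.cast_add]
        have e2 : (vr m + tr (m + 1)) * (K : ℝ) - ((v : ℝ) + ((-(t * W /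
            (K * ((2 * (m : ℤ) + 2) * (2 * m + 3)))) : ℤ) : ℝ)) = (vr m * K - v) +
            (tr (m + 1) * K - ((-(t * W /
            (K * ((2 * (m : ℤ) + 2) * (2 * m + 3)))) : ℤ) : ℝ)) := by ring
        rw [e2]
        exact (abs_add_le _ _).trans (add_le_add k1 st)
      · exact st
      · intro i
        have := k3 (i + 1)
        have e3 : 2 * (i + 1) = 2 * i + 1 + 1 := by ring
        have e4 : m + 1 + i = m + (i + 1) := by ring
        rw [e3] at this
        rw [e4, ← this]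
      · intro i
        have := k4 (i + 1)
        have e3 : 2 * (i + 1) + 1 = 2 * i + 1 + 1 + 1 := by ring
        rw [e3] at this
        exact this

end Pool.Agent.Strip051
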