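import Pool.Agent.Strip051.Kern.HannDefs

/-! # The inequality at the wall for the sinusoidal kernel -/

namespace Pool.Agent.Strip051

open Pool.Agent.StripNear Pool.Agent.StripSquare Set MeasureTheory

/-- The weight of the integral. -/
private theorem hw_weight_nonneg (j : ℕ) (t : ℝ) :
    0 ≤ 1 - (-1) ^ j * Real.cos (j * Real.pi * t) := by
  have h1 := Real.neg_one_le_cos (j * Real.pi * t)
  have h2 := Real.cos_le_one (j * Real.pi * t)
  rcases neg_one_pow_eq_or ℝ j with h | h <;> rw [h] <;> linarith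

private theorem hw_hS_zero (j : ℕ) (u : ℝ) : hS j 0 u =
    ∫ t in (0 : ℝ)..1, (1 - (-1) ^ j * Real.cos (j * Real.pi * t)) *
      Real.cos (j * Real.pi * u * t) := by
  unfold hS
  refine intervalIntegral.integral_congr fun t _ => ?_
  simp

private theorem hw_hk_zero (j : ℕ) (u : ℝ) : hk j 0 u = (1 - 3 * u ^ 2) * hS j 0 u := by
  simp [hk]

private theorem hw_weight_int {j : ℕ} (hj : 1 ≤ j) :
    ∫ t in (0 : ℝ)..1, (1 - (-1) ^ j * Real.cos (j * Real.pi * t)) = 1 := by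
  have hj0 : (0 : ℝ) < j := by exact_mod_cast hj
  have hne : (j : ℝ) * Real.pi ≠ 0 := by positivity
  have hd : ∀ t ∈ uIcc (0 : ℝ) 1, HasDerivAt
      (fun t => t - (-1) ^ j * (Real.sin (j * Real.pi * t) / (j * Real.pi)))
      (1 - (-1) ^ j * Real.cos (j * Real.pi * t)) t := by
    intro t _
    have h1 : HasDerivAt (fun t : ℝ => j * Real.pi * t) (j * Real.pi) t := by
      simpa using (hasDerivAt_id t).const_mul ((j : ℝ) * Real.pi)
    have h2 := ((h1.sin.div_const ((j : ℝ) * Real.pi)).const_mul ((-1 : ℝ) ^ j))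
    refine ((hasDerivAt_id t).sub h2).congr_deriv ?_
    field_simp
  rw [intervalIntegral.integral_eq_sub_of_hasDerivAt hd
    (Continuous.intervalIntegrable (by fun_prop) _ _)]
  have h3 : Real.sin (j * Real.pi * 1) = 0 := by rw [mul_one]; exact Real.sin_nat_mul_pi j
  rw [h3]
  simp

private theorem hw_sin_sub (j : ℕ) (y : ℝ) :
    Real.sin (j * Real.pi - y) = -((-1) ^ j * Real.sin y) := by
  rw [Real.sin_sub, Real.sin_nat_mul_pi, Real.cos_nat_mul_pi]
  ring

private theorem hw_cos_sub (j : ℕ) (y : ℝ) :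
    Real.cos (j * Real.pi - y) = (-1) ^ j * Real.cos y := by
  rw [Real.cos_sub, Real.sin_nat_mul_pi, Real.cos_nat_mul_pi]
  ring

private theorem hw_closed (j : ℕ) (u : ℝ) :
    j * Real.pi * u * (1 - u ^ 2) * hS j 0 u = Real.sin (j * Real.pi * u) := by
  have hd : ∀ t ∈ uIcc (0 : ℝ) 1, HasDerivAt
      (fun t => (1 - u ^ 2) * Real.sin (j * Real.pi * u * t) - (-1) ^ j * (u / 2) *
        ((1 + u) * Real.sin (j * Real.pi * (1 - u) * t) +
          (1 - u) * Real.sin (j * Real.pi * (1 + u) * t)))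
      (j * Real.pi * u * (1 - u ^ 2) * ((1 - (-1) ^ j * Real.cos (j * Real.pi * t)) *
        Real.cos (j * Real.pi * u * t))) t := by
    intro t _
    have h1 : ∀ a : ℝ, HasDerivAt (fun t : ℝ => Real.sin (a * t)) (Real.cos (a * t) * a) t := by
      intro a
      have h : HasDerivAt (fun t : ℝ => a * t) a t := by
        simpa using (hasDerivAt_id t).const_mul a
      exact h.sin
    have h2 := ((h1 (j * Real.pi * u)).const_mul (1 - u ^ 2)).sub
      ((((h1 (j * Real.pi * (1 - u))).const_mul (1 + u)).add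
        ((h1 (j * Real.pi * (1 + u))).const_mul (1 - u))).const_mul ((-1) ^ j * (u / 2)))
    refine h2.congr_deriv ?_
    have e1 : Real.cos (j * Real.pi * (1 - u) * t) =
        Real.cos (j * Real.pi * t) * Real.cos (j * Real.pi * u * t) +
          Real.sin (j * Real.pi * t) * Real.sin (j * Real.pi * u * t) := by
      rw [← Real.cos_sub]
      congr 1
      ring
    have e2 : Real.cos (j * Real.pi * (1 + u) * t) =
        Real.cos (j * Real.pi * t) * Real.cos (j * Real.pi * u * t) -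
          Real.sin (j * Real.pi * t) * Real.sin (j * Real.pi * u * t) := by
      rw [← Real.cos_add]
      congr 1
      ring
    rw [e1, e2]
    ring
  rw [hw_hS_zero, ← intervalIntegral.integral_const_mul,
    intervalIntegral.integral_eq_sub_of_hasDerivAt hd
      (Continuous.intervalIntegrable (by fun_prop) _ _)]
  have e1 : Real.sin (j * Real.pi * (1 - u) * 1) =
      -((-1) ^ j * Real.sin (j * Real.pi * u)) := by
    rw [← hw_sin_sub]
    congr 1
    ring
  have e2 : Real.sin (j * Real.pi * (1 + u) * 1) = (-1) ^ j * Real.sin (j * Real.pi * u) := by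
    have h : Real.sin (j * Real.pi * (1 + u) * 1) = Real.sin (j * Real.pi - (-(j * Real.pi * u))) := by
      congr 1
      ring
    rw [h, hw_sin_sub, Real.sin_neg]
    ring
  have e3 : Real.sin (j * Real.pi * u * 1) = Real.sin (j * Real.pi * u) := by rw [mul_one]
  have hs : ((-1 : ℝ) ^ j) ^ 2 = 1 := by
    rcases neg_one_pow_eq_or ℝ j with h | h <;> rw [h] <;> norm_num
  rw [e1, e2, e3]
  simp only [mul_zero, Real.sin_zero, sub_zero, add_zero]
  linear_combination (u ^ 2 * Real.sin (j * Real.pi * u)) * hs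

private theorem hw_int (j : ℕ) (u : ℝ) : IntervalIntegrable
    (fun t => (1 - (-1) ^ j * Real.cos (j * Real.pi * t)) * Real.cos (j * Real.pi * u * t))
    volume 0 1 := Continuous.intervalIntegrable (by fun_prop) _ _

private theorem hw_int0 (j : ℕ) : IntervalIntegrable
    (fun t => 1 - (-1) ^ j * Real.cos (j * Real.pi * t)) volume 0 1 :=
  Continuous.intervalIntegrable (by fun_prop) _ _

private theorem hw_le_one {j : ℕ} (hj : 1 ≤ j) (u : ℝ) : hS j 0 u ≤ 1 := by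
  have hI := hw_weight_int hj
  rw [hw_hS_zero]
  refine le_trans ?_ hI.le
  refine intervalIntegral.integral_mono_on zero_le_one (hw_int j u) (hw_int0 j) fun t _ => ?_
  have h := hw_weight_nonneg j t
  nlinarith [Real.cos_le_one (j * Real.pi * u * t)]

private theorem hw_neg_one_le {j : ℕ} (hj : 1 ≤ j) (u : ℝ) : -1 ≤ hS j 0 u := by
  have hI := hw_weight_int hj
  have hI' : -1 = ∫ t in (0 : ℝ)..1, -(1 - (-1) ^ j * Real.cos (j * Real.pi * t)) := by
    rw [intervalIntegral.integral_neg, hI]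
  rw [hw_hS_zero]
  refine hI'.le.trans ?_
  refine intervalIntegral.integral_mono_on zero_le_one (hw_int0 j).neg (hw_int j u) fun t _ => ?_
  have h := hw_weight_nonneg j t
  nlinarith [Real.neg_one_le_cos (j * Real.pi * u * t)]

private theorem hw_lower {j : ℕ} (hj : 1 ≤ j) (u : ℝ) :
    1 - (j * Real.pi * u) ^ 2 / 2 ≤ hS j 0 u := by
  have h0 : 1 - (j * Real.pi * u) ^ 2 / 2 = ∫ t in (0 : ℝ)..1,
      (1 - (j * Real.pi * u) ^ 2 / 2) * (1 - (-1) ^ j * Real.cos (j * Real.pi * t)) := by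
    rw [intervalIntegral.integral_const_mul, hw_weight_int hj, mul_one]
  rw [hw_hS_zero, h0]
  refine intervalIntegral.integral_mono_on zero_le_one
    ((hw_int0 j).const_mul _) (hw_int j u) fun t ht => ?_
  have h := hw_weight_nonneg j t
  have h1 := Real.one_sub_sq_div_two_le_cos (x := j * Real.pi * u * t)
  have h2 : (j * Real.pi * u * t) ^ 2 ≤ (j * Real.pi * u) ^ 2 := by
    have ht2 : t ^ 2 ≤ 1 := by nlinarith [ht.1, ht.2]
    have : (j * Real.pi * u * t) ^ 2 = (j * Real.pi * u) ^ 2 * t ^ 2 := by ring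
    rw [this]
    nlinarith [sq_nonneg (j * Real.pi * u)]
  rw [mul_comm (1 - (j * Real.pi * u) ^ 2 / 2)]
  exact mul_le_mul_of_nonneg_left (by linarith) h

/-- The bracket. -/
private theorem hw_bracket (a y k : ℝ) : Real.sin (a - y) + k * Real.sin y =
    Real.sin a * Real.cos y + (k - Real.cos a) * Real.sin y := by
  rw [Real.sin_sub]
  ring

private theorem hw_sum_bound {a y k A K : ℝ} (hA : |Real.sin a| ≤ A) (hK : |k - Real.cos a| ≤ K) :
    Real.sin (a - y) + k * Real.sin y ≤ A + K := by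
  rw [hw_bracket]
  have h1 : Real.sin a * Real.cos y ≤ |Real.sin a| * 1 := by
    refine (le_abs_self _).trans ?_
    rw [abs_mul]
    exact mul_le_mul_of_nonneg_left (Real.abs_cos_le_one y) (abs_nonneg _)
  have h2 : (k - Real.cos a) * Real.sin y ≤ |k - Real.cos a| * 1 := by
    refine (le_abs_self _).trans ?_
    rw [abs_mul]
    exact mul_le_mul_of_nonneg_left (Real.abs_sin_le_one y) (abs_nonneg _)
  linarith

private theorem hw_sqrt_bound {a y k M : ℝ} (hM : 0 ≤ M)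
    (h : Real.sin a ^ 2 + (k - Real.cos a) ^ 2 ≤ M ^ 2) :
    Real.sin (a - y) + k * Real.sin y ≤ M := by
  rw [hw_bracket]
  refine abs_le_of_sq_le_sq' ?_ hM |>.2
  have e : (Real.sin a * Real.cos y + (k - Real.cos a) * Real.sin y) ^ 2 +
      (Real.sin a * Real.sin y - (k - Real.cos a) * Real.cos y) ^ 2 =
      Real.sin a ^ 2 + (k - Real.cos a) ^ 2 := by
    linear_combination (Real.sin a ^ 2 + (k - Real.cos a) ^ 2) * Real.sin_sq_add_cos_sq y
  nlinarith [sq_nonneg (Real.sin a * Real.sin y - (k - Real.cos a) * Real.cos y)]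

private theorem hw_triv_bound {a y k K : ℝ} (hK : |k| ≤ K) :
    Real.sin (a - y) + k * Real.sin y ≤ 1 + K := by
  have h2 : k * Real.sin y ≤ |k| * 1 := by
    refine (le_abs_self _).trans ?_
    rw [abs_mul]
    exact mul_le_mul_of_nonneg_left (Real.abs_sin_le_one y) (abs_nonneg _)
  linarith [Real.sin_le_one (a - y)]

/-- The `j`-th term. -/
private theorem hw_term (j : ℕ) (τ x : ℝ) : Real.sin (j * Real.pi * x) +
    hk j 0 τ * Real.sin (j * Real.pi * (τ - x)) =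
    Real.sin (j * Real.pi * τ - j * Real.pi * (τ - x)) +
      hk j 0 τ * Real.sin (j * Real.pi * (τ - x)) := by
  congr 2
  ring

/-- Crude bound near `0`. -/
private theorem hw_left {j : ℕ} (hj : 1 ≤ j) {τ : ℝ} (h1 : 3 * τ ^ 2 ≤ 1) :
    |hk j 0 τ - Real.cos (j * Real.pi * τ)| ≤ (j * Real.pi * τ) ^ 2 / 2 + 3 * τ ^ 2 := by
  have e := hw_hk_zero j τ
  have hS1 := hw_le_one hj τ
  have hS2 := hw_neg_one_le hj τ
  have hS3 := hw_lower hj τ
  have hc1 := Real.one_sub_sq_div_two_le_cos (x := j * Real.pi * τ)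
  have hc2 := Real.cos_le_one (j * Real.pi * τ)
  have ht := sq_nonneg τ
  have ha := sq_nonneg (j * Real.pi * τ)
  rw [abs_le]
  constructor
  · rw [e]
    nlinarith
  · rw [e]
    nlinarith

/-- Sharper bound near `0` for `j = 1`. -/
private theorem hw_left_one {τ : ℝ} (h0 : 0 < τ) (h1 : τ ≤ 2 / 5) :
    |hk 1 0 τ - Real.cos (Real.pi * τ)| ≤ 2 * τ ^ 2 := by
  have e := hw_hk_zero 1 τ
  have hS1 := hw_le_one (le_refl 1) τ
  have hcl := hw_closed 1 τ
  have hp := Real.pi_gt_three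
  have hp4 := Real.pi_lt_d4
  have hpi2 : Real.pi ^ 2 ≤ 9.87 := by nlinarith
  have ht := sq_nonneg τ
  have ht2 : τ ^ 2 ≤ 4 / 25 := by nlinarith
  have hx : 0 < Real.pi * τ := by positivity
  have hs := Real.sin_ge_sub_cube hx.le
  have hc1 := Real.one_sub_sq_div_two_le_cos (x := Real.pi * τ)
  have hc2 := Real.cos_le_one_sub_mul_cos_sq (x := Real.pi * τ) (by
    rw [abs_of_pos hx]
    nlinarith)
  simp only [Nat.cast_one, one_mul] at hcl
  -- lower bound of `hS`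
  have hS4 : 1 - 0.77 * τ ^ 2 ≤ hS 1 0 τ := by
    by_contra hneg
    push Not at hneg
    have h5 : Real.pi * τ * (1 - 1.645 * τ ^ 2) ≤ Real.sin (Real.pi * τ) := by
      have : (Real.pi * τ) ^ 3 / 6 = Real.pi * τ * (Real.pi ^ 2 * τ ^ 2 / 6) := by ring
      have h6 : Real.pi ^ 2 * τ ^ 2 / 6 ≤ 1.645 * τ ^ 2 := by nlinarith
      nlinarith
    have h8 : 0 < Real.pi * τ * (1 - τ ^ 2) := by
      apply mul_pos hx
      nlinarith
    have h9 := mul_lt_mul_of_pos_left hneg h8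
    have h10 : (1 - τ ^ 2) * (1 - 0.77 * τ ^ 2) ≤ 1 - 1.645 * τ ^ 2 := by nlinarith
    have h11 := mul_le_mul_of_nonneg_left h10 hx.le
    linarith
  have hq : 2 / Real.pi ^ 2 * (Real.pi * τ) ^ 2 = 2 * τ ^ 2 := by
    field_simp
  rw [hq] at hc2
  rw [abs_le, e]
  constructor
  · nlinarith
  · nlinarith

/-- Bound near `1`. -/
private theorem hw_right {j : ℕ} (hj : 1 ≤ j) {τ : ℝ} (h0 : 4 / 5 ≤ τ) (h1 : τ < 1) :
    |hk j 0 τ - Real.cos (j * Real.pi * τ)| ≤
      1.81 * (1 - τ) + (j * Real.pi * (1 - τ)) ^ 2 / 2 := by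
  obtain ⟨σ, rfl⟩ : ∃ σ, τ = 1 - σ := ⟨1 - τ, by ring⟩
  have hσ0 : 0 < σ := by linarith
  have hσ1 : σ ≤ 1 / 5 := by linarith
  have e := hw_hk_zero j (1 - σ)
  have hj0 : (0 : ℝ) < j := by exact_mod_cast hj
  have hp := Real.pi_pos
  have hcl := hw_closed j (1 - σ)
  have ea : (j : ℝ) * Real.pi * (1 - σ) = j * Real.pi - j * Real.pi * σ := by ring
  rw [ea, hw_sin_sub] at hcl
  rw [ea, hw_cos_sub, e, show 1 - (1 - σ) = σ by ring]
  set y := (j : ℝ) * Real.pi * σ with hy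
  have hy0 : 0 < y := by positivity
  set w := Real.sin y / y with hw
  have hw1 : w ≤ 1 := by
    rw [hw, div_le_one hy0]
    exact (Real.sin_lt hy0).le
  have hw2 : 1 - y ^ 2 / 6 ≤ w := by
    rw [hw, le_div_iff₀ hy0]
    have := Real.sin_ge_sub_cube hy0.le
    nlinarith
  have hw3 : -1 ≤ w := by
    rw [hw, le_div_iff₀ hy0]
    have := Real.lt_sin (x := -y) (by linarith)
    rw [Real.sin_neg] at this
    have h := Real.sin_ge_sub_cube hy0.le
    rcases le_or_gt y 1 with h3 | h3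
    · nlinarith [pow_pos hy0 3, mul_pos hy0 hy0]
    · linarith [Real.neg_one_le_sin y]
  have hden : 0 < (1 - σ) * (2 - σ) := by nlinarith
  -- the closed form of `hS`
  have hS' : hS j 0 (1 - σ) * ((1 - σ) * (2 - σ)) = -((-1) ^ j * w) := by
    have h5 : y * (hS j 0 (1 - σ) * ((1 - σ) * (2 - σ))) = y * (-((-1) ^ j * w)) := by
      have : y * w = Real.sin y := by rw [hw]; field_simp
      have h6 : y * (-((-1) ^ j * w)) = -((-1) ^ j * Real.sin y) := by
        rw [← this]; ring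
      rw [h6, ← hcl, hy]
      ring
    exact mul_left_cancel₀ hy0.ne' h5
  set R := (3 * (1 - σ) ^ 2 - 1) / ((1 - σ) * (2 - σ)) with hR
  have hk' : (1 - 3 * (1 - σ) ^ 2) * hS j 0 (1 - σ) = (-1) ^ j * (R * w) := by
    have h7 : hS j 0 (1 - σ) = -((-1) ^ j * w) / ((1 - σ) * (2 - σ)) := by
      rw [eq_div_iff hden.ne']
      exact hS'
    rw [h7, hR]
    field_simp
    ring
  rw [hk']
  have hR1 : 1 - R = σ * (3 - 2 * σ) / ((1 - σ) * (2 - σ)) := by
    rw [hR, eq_div_iff hden.ne', sub_mul, div_mul_cancel₀ _ hden.ne']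
    ring
  have hR2 : 0 ≤ 1 - R := by
    rw [hR1]
    apply div_nonneg _ hden.le
    nlinarith
  have hR3 : 1 - R ≤ 1.81 * σ := by
    rw [hR1, div_le_iff₀ hden]
    nlinarith [mul_nonneg hσ0.le (mul_nonneg hσ0.le hσ0.le), mul_nonneg hσ0.le hσ0.le]
  have hc1 := Real.one_sub_sq_div_two_le_cos (x := y)
  have hc2 := Real.cos_le_one y
  have hmain : |R * w - Real.cos y| ≤ 1.81 * σ + y ^ 2 / 2 := by
    rw [abs_le]
    constructor
    · nlinarith [sq_nonneg y]
    · nlinarith [sq_nonneg y]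
  have habs : |(-1 : ℝ) ^ j * (R * w) - (-1) ^ j * Real.cos y| = |R * w - Real.cos y| := by
    rw [← mul_sub, abs_mul, abs_pow, abs_neg, abs_one, one_pow, one_mul]
  rw [habs]
  exact hmain

private theorem hw_final {τ Y c y : ℝ} (hc : 0 ≤ c) (hc2 : c ^ 2 ≤ 1 - 3 / 4 * τ ^ 2)
    (hy : 0 ≤ y) (hY : y ≤ Y) (h : 1 ≤ c * y) : 1 ≤ g (h0 * τ) * Y := by
  have hg : c ≤ g (h0 * τ) := by
    unfold g
    apply Real.le_sqrt_of_sq_le
    rw [mul_pow, h0_sq]
    exact hc2
  calc (1 : ℝ) ≤ c * y := h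
    _ ≤ g (h0 * τ) * Y := mul_le_mul hg hY hy (hc.trans hg)

private theorem hw_final' {τ Y y : ℝ} (hy : 0 ≤ y) (hY : y ≤ Y)
    (h : 1 ≤ y ^ 2 * (1 - 3 / 4 * τ ^ 2)) : 1 ≤ g (h0 * τ) * Y := by
  have hpos : 0 ≤ 1 - 3 / 4 * τ ^ 2 := by
    by_contra hneg
    push Not at hneg
    nlinarith [sq_nonneg y]
  refine hw_final (c := Real.sqrt (1 - 3 / 4 * τ ^ 2)) (Real.sqrt_nonneg _)
    (Real.sq_sqrt hpos).le hy hY ?_
  rw [← Real.sqrt_sq hy, ← Real.sqrt_mul hpos, Real.one_le_sqrt]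
  linarith

private theorem hw_expand (τ x : ℝ) :
    ∑ j ∈ Finset.Icc 1 3, amp j *
      (Real.sin (j * Real.pi * x) + hk j 0 τ * Real.sin (j * Real.pi * (τ - x))) =
    1 / 10 * (Real.sin ((1 : ℕ) * Real.pi * x) +
        hk 1 0 τ * Real.sin ((1 : ℕ) * Real.pi * (τ - x))) +
      3 / 1250 * (Real.sin ((2 : ℕ) * Real.pi * x) +
        hk 2 0 τ * Real.sin ((2 : ℕ) * Real.pi * (τ - x))) +
      1 / 5000 * (Real.sin ((3 : ℕ) * Real.pi * x) +
        hk 3 0 τ * Real.sin ((3 : ℕ) * Real.pi * (τ - x))) := by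
  rw [show Finset.Icc 1 3 = {1, 2, 3} from rfl, Finset.sum_insert (by decide),
    Finset.sum_insert (by decide), Finset.sum_singleton]
  simp only [amp]
  ring

private theorem hw_abs_sin {y : ℝ} (hy : 0 ≤ y) : |Real.sin y| ≤ y := by
  have := Real.abs_sin_le_abs (x := y)
  rwa [abs_of_nonneg hy] at this

private theorem hw_one {τ : ℝ} (x : ℝ) (hτ0 : 0 < τ) (hτ1 : τ ≤ 2 / 5) :
    1 ≤ g (h0 * τ) * (1 + τ - 2 * ∑ j ∈ Finset.Icc 1 3, amp j *
    (Real.sin (j * Real.pi * x) + hk j 0 τ * Real.sin (j * Real.pi * (τ - x)))) := by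
  have hp := Real.pi_gt_three
  have hp4 := Real.pi_lt_d4
  have hpi2 : Real.pi ^ 2 ≤ 9.87 := by nlinarith
  have ht := sq_nonneg τ
  have ht2 : τ ^ 2 ≤ 2 / 5 * τ := by nlinarith
  have h3 : 3 * τ ^ 2 ≤ 1 := by nlinarith
  have b1 : Real.sin ((1 : ℕ) * Real.pi * x) +
      hk 1 0 τ * Real.sin ((1 : ℕ) * Real.pi * (τ - x)) ≤ 3.28 * τ := by
    rw [hw_term]
    apply hw_sqrt_bound (by positivity)
    have h1 := hw_left_one hτ0 hτ1
    rw [Nat.cast_one, one_mul]
    have h2 := Real.sin_sq_le_sq (x := Real.pi * τ)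
    have h4 : (hk 1 0 τ - Real.cos (Real.pi * τ)) ^ 2 ≤ (2 * τ ^ 2) ^ 2 :=
      sq_le_sq' (by linarith [(abs_le.1 h1).1]) (abs_le.1 h1).2
    have h5 : (Real.pi * τ) ^ 2 ≤ 9.87 * τ ^ 2 := by
      rw [mul_pow]
      exact mul_le_mul_of_nonneg_right hpi2 ht
    nlinarith
  have b2 : Real.sin ((2 : ℕ) * Real.pi * x) +
      hk 2 0 τ * Real.sin ((2 : ℕ) * Real.pi * (τ - x)) ≤ 15.4 * τ := by
    rw [hw_term]
    have h1 := hw_left (j := 2) (by norm_num) h3
    have h2 : |Real.sin ((2 : ℕ) * Real.pi * τ)| ≤ (2 : ℕ) * Real.pi * τ :=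
      hw_abs_sin (by positivity)
    refine (hw_sum_bound h2 h1).trans ?_
    push_cast
    have h5 : (2 * Real.pi * τ) ^ 2 / 2 ≤ 2 * 9.87 * τ ^ 2 := by
      have : (2 * Real.pi * τ) ^ 2 / 2 = 2 * (Real.pi ^ 2 * τ ^ 2) := by ring
      rw [this, mul_assoc]
      have := mul_le_mul_of_nonneg_right hpi2 ht
      linarith
    nlinarith
  have b3 : Real.sin ((3 : ℕ) * Real.pi * x) +
      hk 3 0 τ * Real.sin ((3 : ℕ) * Real.pi * (τ - x)) ≤ 28.5 * τ := by
    rw [hw_term]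
    have h1 := hw_left (j := 3) (by norm_num) h3
    have h2 : |Real.sin ((3 : ℕ) * Real.pi * τ)| ≤ (3 : ℕ) * Real.pi * τ :=
      hw_abs_sin (by positivity)
    refine (hw_sum_bound h2 h1).trans ?_
    push_cast
    have h5 : (3 * Real.pi * τ) ^ 2 / 2 ≤ 4.5 * 9.87 * τ ^ 2 := by
      have : (3 * Real.pi * τ) ^ 2 / 2 = 4.5 * (Real.pi ^ 2 * τ ^ 2) := by ring
      rw [this, mul_assoc]
      have := mul_le_mul_of_nonneg_right hpi2 ht
      linarith
    nlinarith
  rw [hw_expand]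
  refine hw_final' (y := 1 + 0.25 * τ) (by positivity) (by linarith) ?_
  nlinarith [mul_nonneg hτ0.le ht, mul_nonneg (mul_nonneg hτ0.le ht) hτ0.le]

private theorem hw_two {τ : ℝ} (x : ℝ) (hτ0 : 2 / 5 ≤ τ) (hτ1 : τ ≤ 4 / 5) :
    1 ≤ g (h0 * τ) * (1 + τ - 2 * ∑ j ∈ Finset.Icc 1 3, amp j *
    (Real.sin (j * Real.pi * x) + hk j 0 τ * Real.sin (j * Real.pi * (τ - x)))) := by
  have b : ∀ j : ℕ, 1 ≤ j → Real.sin (j * Real.pi * x) +
      hk j 0 τ * Real.sin (j * Real.pi * (τ - x)) ≤ 1 + |1 - 3 * τ ^ 2| := by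
    intro j hj
    rw [hw_term]
    apply hw_triv_bound
    rw [hw_hk_zero, abs_mul]
    have : |hS j 0 τ| ≤ 1 := abs_le.2 ⟨hw_neg_one_le hj τ, hw_le_one hj τ⟩
    exact mul_le_of_le_one_right (abs_nonneg _) this
  have b1 := b 1 (by norm_num)
  have b2 := b 2 (by norm_num)
  have b3 := b 3 (by norm_num)
  rw [hw_expand]
  have e2 : ((2 : ℕ) : ℝ) = 2 := by norm_num
  have e3 : ((3 : ℕ) : ℝ) = 3 := by norm_num
  have e1 : ((1 : ℕ) : ℝ) = 1 := by norm_num
  rw [e1] at b1 ⊢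
  rw [e2] at b2 ⊢
  rw [e3] at b3 ⊢
  have hc : (1.154 - 0.542 * τ) ^ 2 ≤ 1 - 3 / 4 * τ ^ 2 := by nlinarith
  rcases le_total (3 * τ ^ 2) 1 with h | h
  · rw [abs_of_nonneg (by linarith)] at b1 b2 b3
    refine hw_final (c := 1.154 - 0.542 * τ) (y := 0.5896 + τ + 0.6156 * τ ^ 2) (by linarith) hc
      (by positivity) (by linarith) ?_
    nlinarith [mul_nonneg (sub_nonneg.2 hτ0) (sub_nonneg.2 hτ1),
      mul_nonneg (mul_nonneg (sub_nonneg.2 hτ0) (sub_nonneg.2 hτ1)) (sub_nonneg.2 hτ0)]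
  · rw [abs_of_nonpos (by linarith)] at b1 b2 b3
    refine hw_final (c := 1.154 - 0.542 * τ) (y := 1 + τ - 0.6156 * τ ^ 2) (by linarith) hc
      (by nlinarith) (by linarith) ?_
    have h577 : 0.577 ≤ τ := by nlinarith
    nlinarith [mul_nonneg (sub_nonneg.2 h577) (sub_nonneg.2 hτ1),
      mul_nonneg (mul_nonneg (sub_nonneg.2 h577) (sub_nonneg.2 hτ1)) (sub_nonneg.2 h577)]

private theorem hw_three {τ : ℝ} (x : ℝ) (hτ0 : 4 / 5 ≤ τ) (hτ1 : τ < 1) :
    1 ≤ g (h0 * τ) * (1 + τ - 2 * ∑ j ∈ Finset.Icc 1 3, amp j *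
    (Real.sin (j * Real.pi * x) + hk j 0 τ * Real.sin (j * Real.pi * (τ - x)))) := by
  have hp := Real.pi_gt_three
  have hp4 := Real.pi_lt_d4
  have hpi2 : Real.pi ^ 2 ≤ 9.87 := by nlinarith
  have hs : ∀ j : ℕ, |Real.sin (j * Real.pi * τ)| ≤ j * Real.pi * (1 - τ) := by
    intro j
    have e : Real.sin (j * Real.pi * τ) = -((-1) ^ j * Real.sin (j * Real.pi * (1 - τ))) := by
      rw [← hw_sin_sub]
      congr 1
      ring
    rw [e, abs_neg, abs_mul, abs_pow, abs_neg, abs_one, one_pow, one_mul]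
    apply hw_abs_sin
    have : 0 ≤ 1 - τ := by linarith
    positivity
  obtain ⟨σ, hσ⟩ : ∃ σ, σ = 1 - τ := ⟨_, rfl⟩
  have hσ0 : 0 < σ := by linarith
  have hσ1 : σ ≤ 1 / 5 := by linarith
  have hσ2 : σ ^ 2 ≤ 1 / 5 * σ := by nlinarith
  have hq : ∀ j : ℕ, (j * Real.pi * σ) ^ 2 / 2 ≤ (j : ℝ) ^ 2 * (0.987 * σ) := by
    intro j
    have e : (j * Real.pi * σ) ^ 2 / 2 = (j : ℝ) ^ 2 * (Real.pi ^ 2 * σ ^ 2 / 2) := by ring
    rw [e]
    apply mul_le_mul_of_nonneg_left _ (sq_nonneg _)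
    have := mul_le_mul_of_nonneg_right hpi2 (sq_nonneg σ)
    nlinarith
  have b : ∀ j : ℕ, 1 ≤ j → Real.sin (j * Real.pi * x) +
      hk j 0 τ * Real.sin (j * Real.pi * (τ - x)) ≤
      j * Real.pi * σ + (1.81 * σ + (j : ℝ) ^ 2 * (0.987 * σ)) := by
    intro j hj
    rw [hw_term]
    have h1 := hw_right hj hτ0 hτ1
    have h2 := hs j
    rw [← hσ] at h1 h2
    refine (hw_sum_bound h2 h1).trans ?_
    linarith [hq j]
  have b1 := b 1 (by norm_num)
  have b2 := b 2 (by norm_num)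
  have b3 := b 3 (by norm_num)
  rw [hw_expand]
  have hps : Real.pi * σ ≤ 3.1416 * σ := mul_le_mul_of_nonneg_right hp4.le hσ0.le
  have e2 : ((2 : ℕ) : ℝ) = 2 := by norm_num
  have e3 : ((3 : ℕ) : ℝ) = 3 := by norm_num
  have e1 : ((1 : ℕ) : ℝ) = 1 := by norm_num
  rw [e1] at b1 ⊢
  rw [e2] at b2 ⊢
  rw [e3] at b3 ⊢
  have hτσ : τ = 1 - σ := by linarith
  refine hw_final' (y := 2 - 2.26 * σ) (by linarith) (by linarith) ?_
  rw [hτσ]
  nlinarith [mul_nonneg hσ0.le hσ0.le, mul_nonneg (mul_nonneg hσ0.le hσ0.le) hσ0.le]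

private theorem hw_cont (j : ℕ) : Continuous (fun τ => hk j 0 τ) := by
  have h : (fun τ => hk j 0 τ) = fun τ => (1 - 3 * τ ^ 2) * ∫ t in (0 : ℝ)..1,
      (1 - (-1) ^ j * Real.cos (j * Real.pi * t)) * Real.cos (j * Real.pi * τ * t) := by
    funext τ
    rw [hw_hk_zero, hw_hS_zero]
  rw [h]
  refine Continuous.mul (by fun_prop) ?_
  apply intervalIntegral.continuous_parametric_intervalIntegral_of_continuous'
  fun_prop

theorem hannWall : HannWall := by
  intro τ x hτ0 hτ1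
  have hcont : Continuous (fun τ : ℝ => g (h0 * τ) * (1 + τ - 2 * ∑ j ∈ Finset.Icc 1 3, amp j *
      (Real.sin (j * Real.pi * x) + hk j 0 τ * Real.sin (j * Real.pi * (τ - x))))) := by
    have hk' : ∀ j : ℕ, Continuous (fun τ => hk j 0 τ) := hw_cont
    have hg : Continuous (fun τ : ℝ => g (h0 * τ)) := by
      unfold g
      fun_prop
    refine hg.mul ((continuous_const.add continuous_id).sub (continuous_const.mul ?_))
    refine continuous_finsetSum _ fun j _ => continuous_const.mul ?_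
    exact continuous_const.add ((hk' j).mul (by fun_prop))
  have hclosed := isClosed_le (continuous_const (y := (1 : ℝ))) hcont
  have hsub : Ioo (0 : ℝ) 1 ⊆ {τ : ℝ | 1 ≤ g (h0 * τ) * (1 + τ - 2 * ∑ j ∈ Finset.Icc 1 3, amp j *
      (Real.sin (j * Real.pi * x) + hk j 0 τ * Real.sin (j * Real.pi * (τ - x))))} := by
    intro τ hτ
    rcases le_total τ (2 / 5) with h | h
    · exact hw_one x hτ.1 h
    rcases le_total τ (4 / 5) with h' | h'
    · exact hw_two x h h'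
    · exact hw_three x h' hτ.2
  have h := closure_minimal hsub hclosed
  rw [closure_Ioo zero_ne_one] at h
  exact h ⟨hτ0, hτ1⟩

end Pool.Agent.Strip051
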