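import Pool.Agent.Strip051.Kern.Up

/-! # The gain of the potential at an insertion -/

namespace Pool.Agent.Strip051

open Pool.Agent.StripNear Pool.Agent.StripSquare Set MeasureTheory

/-- The certificate: a Lagrangian `L`, a kernel `N` (slope derivative of `L` as a function of the
centre height and of the height), wall weight `W`, lower bounds `e` for the one-sided gains. -/
structure KernCert (H W : ℝ) (L : ℝ → ℝ → ℝ) (N : ℝ → ℝ → ℝ) (e : ℝ → ℝ) : Prop where
  H0 : 0 ≤ H
  W0 : 0 ≤ W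
  lag : Lag H L
  flip : ∀ z p, L (H - z) (-p) = L z p
  tan : ∀ c z p, 0 ≤ c → c ≤ H → 0 ≤ z → z ≤ H → |z - c| < 1 →
    L z (sl c z) + N c z * (p - sl c z) ≤ L z p
  ac : ∀ c, 0 ≤ c → c ≤ H → AbsolutelyContinuousOnInterval (N c) (c - 1) (c + 1)
  mono : ∀ c, 0 ≤ c → c ≤ H → MonotoneOn (N c) (Icc (c - 1) (c + 1))
  top : ∀ c, 0 ≤ c → c ≤ H → H ≤ c + 1 → N c H ≤ W
  dac : AbsolutelyContinuousOnInterval (fun z => N z z) 0 H
  dmono : MonotoneOn (fun z => N z z) (Icc 0 H)
  bot : -W ≤ N 0 0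
  exit : ∀ y r, 0 ≤ y → 1 / 2 ≤ r → r ≤ 1 → y + r ≤ H → y + ext r ≤ H →
    e y ≤ ∫ z in y..(y + ext r), (L z (sl (y + r) z) - L z (sl y z))
  wall : ∀ y, 0 ≤ y → y ≤ H → H - y < h0 →
    e y ≤ W * (2 * g (H - y) - 1) + ∫ z in y..H, (L z (sl H z) - L z (sl y z))
  sum : ∀ y, 0 ≤ y → y ≤ H → 1 ≤ e y + e (H - y)

theorem int_congr {F G : ℝ → ℝ} {a b : ℝ} (hab : a ≤ b) (h : ∀ z ∈ Ioo a b, F z = G z) :
    ∫ z in a..b, F z = ∫ z in a..b, G z := by
  rw [intervalIntegral.integral_of_le hab, intervalIntegral.integral_of_le hab,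
    integral_Ioc_eq_integral_Ioo, integral_Ioc_eq_integral_Ioo]
  exact setIntegral_congr_fun measurableSet_Ioo h

theorem hasDerivAt_g {v : ℝ} (h : |v| < 1) : HasDerivAt g (-v / g v) v := by
  have h1 : 0 < 1 - v ^ 2 := by
    rw [abs_lt] at h
    nlinarith
  have h2 : HasDerivAt (fun x : ℝ => 1 - x ^ 2) (-(2 * v)) v := by
    have := (hasDerivAt_pow 2 v).const_sub 1
    simpa using this
  have h3 := h2.sqrt h1.ne'
  have h4 : g = fun x : ℝ => Real.sqrt (1 - x ^ 2) := rfl
  rw [h4]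
  convert h3 using 1
  rw [neg_div, neg_div, mul_div_mul_left _ _ (by norm_num : (2 : ℝ) ≠ 0)]

theorem hasDerivAt_arc (q : Pt) {z : ℝ} (h : |z - q.2| < 1) : HasDerivAt (arc q) (sl q.2 z) z := by
  have h1 := (hasDerivAt_g h).comp z ((hasDerivAt_id z).sub_const q.2)
  have h2 := h1.const_add q.1
  rw [mul_one] at h2
  exact h2

theorem deriv_arc (q : Pt) {z : ℝ} (h : |z - q.2| < 1) : deriv (arc q) z = sl q.2 z :=
  (hasDerivAt_arc q h).deriv

theorem g_lt_one_iff {a b : ℝ} (ha : 0 ≤ a) (hab : a < b) (hb : b ≤ 1) : g b < g a := by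
  unfold g
  apply Real.sqrt_lt_sqrt
  · nlinarith
  · nlinarith

/-- The comparison front in terms of an arc. -/
theorem deriv_vir (P : Pt) {r z : ℝ} (hr1 : r ≤ 1) (h1 : P.2 < z) (h2 : z < P.2 + 2 * r) :
    deriv (fun x => P.1 + vir r (x - P.2)) z = sl (P.2 + r) z := by
  have hr0 : 0 < r := by linarith
  have h3 : (fun x => P.1 + vir r (x - P.2)) =ᶠ[nhds z] arc (P.1 - g r, P.2 + r) := by
    have h4 : Ioo P.2 (P.2 + 2 * r) ∈ nhds z := Ioo_mem_nhds h1 h2
    filter_upwards [h4] with x hx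
    rw [vir_arc]
    apply max_eq_right
    unfold arc
    simp only
    have h5 : g r ≤ g (x - (P.2 + r)) := by
      rcases le_total 0 (x - (P.2 + r)) with h6 | h6
      · exact g_anti h6 (by linarith [hx.2])
      · rw [← g_neg (x - (P.2 + r))]
        exact g_anti (by linarith) (by linarith [hx.1])
    linarith
  rw [h3.deriv_eq]
  apply deriv_arc
  rw [abs_lt]
  constructor
  · simp only
    linarith
  · simp only
    linarith

theorem ext_invol {r : ℝ} (h1 : 1 / 2 ≤ r) (h2 : r ≤ 1) :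
    ext (ext r) = r ∧ 1 / 2 ≤ ext r ∧ ext r ≤ 1 ∧ ext r ≤ 2 * r ∧
      g (ext r - r) - g r = g (ext r) := by
  obtain ⟨a1, a2, a3, a4, a5, a6⟩ := ext_spec h1 h2
  have e1 : r / 2 + h0 * g r = ext r := rfl
  rw [e1] at a2 a3 a4 a5 a6
  have a7 := ext_meet a5 a6
  have e2 : ext r / 2 + h0 * g (ext r) = ext (ext r) := rfl
  rw [e2, a4] at a7
  refine ⟨a4, a5, a6, ?_, a7⟩
  have hs := h0_sq
  have hp := h0_pos
  have hg := g_nonneg r
  have h3 : h0 * g r ≤ 3 / 2 * r := by
    have hq := g_sq (r := r) (by nlinarith)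
    have h4 : (h0 * g r) ^ 2 ≤ (3 / 2 * r) ^ 2 := by
      have : (h0 * g r) ^ 2 = h0 ^ 2 * g r ^ 2 := by ring
      rw [this, hs]
      nlinarith
    exact abs_le_of_sq_le_sq' h4 (by linarith) |>.2
  unfold ext
  linarith

theorem ac_vir (P : Pt) (r a b : ℝ) :
    AbsolutelyContinuousOnInterval (fun z => P.1 + vir r (z - P.2)) a b := by
  have h1 := ac_max (ac_const P.1 a b) (ac_arc (P.1 - g r, P.2 + r) a b)
  convert h1 using 2 with z
  exact vir_arc P r z

/-- The gain on the upper side. -/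
theorem KernCert.up {H W : ℝ} {L N : ℝ → ℝ → ℝ} {e : ℝ → ℝ} (hK : KernCert H W L N e)
    {S : Set Pt} {P : Pt} {f : ℝ → ℝ} (hF : Fr S P.1 f)
    (hfa : ∀ a b, AbsolutelyContinuousOnInterval f a b)
    (hs : ∀ q ∈ S, q.2 ≤ H) (hsep : ∀ q ∈ S, Sep P q) (hP0 : 0 ≤ P.2) (hP : P.2 ≤ H) :
    e P.2 ≤ (W * max (f H) (arc P H) -
        ∫ z in P.2..H, L z (deriv (fun x => max (f x) (arc P x)) z)) -
      (W * f H - ∫ z in P.2..H, L z (deriv f z)) := by
  have hh := h0_sq
  have hp := h0_pos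
  have hh1 : h0 < 1 := by nlinarith
  obtain ⟨r, z1, hr, hin, hout⟩ := up_compare2 hF hs hsep hP
  set γ : ℝ → ℝ := fun z => P.1 + vir r (z - P.2) with hγ
  set k : ℝ → ℝ := fun x => max (f x) (arc P x) with hk
  have hγa : ∀ a b, AbsolutelyContinuousOnInterval γ a b := fun a b => ac_vir P r a b
  have hka : ∀ a b, AbsolutelyContinuousOnInterval k a b := fun a b => ac_max (hfa a b) (ac_arc P a b)
  -- common facts
  have hfacts : P.2 ≤ z1 ∧ z1 ≤ H ∧ 0 ≤ r ∧ r ≤ 1 ∧ z1 ≤ P.2 + 2 * r ∧ P.2 + r ≤ H ∧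
      z1 ≤ P.2 + 1 := by
    rcases hr with ⟨h1, h2, h3⟩ | ⟨h1, h2, h3, h4, h5⟩
    · refine ⟨by linarith, by linarith, by linarith, by linarith, by linarith, by linarith,
        by linarith⟩
    · obtain ⟨b1, b2, b3, b4, b5⟩ := ext_invol h1 h2
      refine ⟨by linarith, by linarith, by linarith, by linarith, by linarith, by linarith,
        by linarith⟩
  obtain ⟨k1, k2, k3, k4, k5, k6, k7⟩ := hfacts
  have k0 : 0 ≤ z1 := hP0.trans k1
  -- derivatives
  have d1 : ∀ z ∈ Ioo P.2 z1, deriv γ z = sl (P.2 + r) z := fun z hz =>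
    deriv_vir P k4 hz.1 (by linarith [hz.2])
  have d2 : ∀ z ∈ Ioo P.2 z1, deriv k z = sl P.2 z := by
    intro z hz
    have h1 : k =ᶠ[nhds z] arc P := by
      filter_upwards [Ioo_mem_nhds hz.1 hz.2] with x hx
      obtain ⟨h2, h3⟩ := hin x hx.1.le hx.2.le
      exact max_eq_right (h2.trans h3)
    rw [h1.deriv_eq]
    apply deriv_arc
    rw [abs_lt]
    constructor <;> linarith [hz.1, hz.2]
  have d3 : ∀ z ∈ Ioo z1 H, deriv k z = deriv f z := by
    intro z hz
    have h1 : k =ᶠ[nhds z] f := by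
      filter_upwards [Ioo_mem_nhds hz.1 hz.2] with x hx
      obtain ⟨h2, h3⟩ := hout x hx.1 hx.2.le
      exact max_eq_left (h3.trans h2)
    exact h1.deriv_eq
  -- integrals
  have i1 := hK.lag.integrable (f := f) hP0 k1 k2 (hfa _ _)
  have i2 := hK.lag.integrable (f := f) k0 k2 le_rfl (hfa _ _)
  have i3 := hK.lag.integrable (f := k) hP0 k1 k2 (hka _ _)
  have i4 := hK.lag.integrable (f := k) k0 k2 le_rfl (hka _ _)
  have i5 := hK.lag.integrable (f := γ) hP0 k1 k2 (hγa _ _)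
  have s1 := intervalIntegral.integral_add_adjacent_intervals i1 i2
  have s2 := intervalIntegral.integral_add_adjacent_intervals i3 i4
  have s3 : ∫ z in z1..H, L z (deriv k z) = ∫ z in z1..H, L z (deriv f z) :=
    int_congr k2 fun z hz => by rw [d3 z hz]
  have s4 : ∫ z in P.2..z1, (L z (sl (P.2 + r) z) - L z (sl P.2 z)) =
      (∫ z in P.2..z1, L z (deriv γ z)) - ∫ z in P.2..z1, L z (deriv k z) := by
    rw [← intervalIntegral.integral_sub i5 i3]
    exact int_congr k1 fun z hz => by rw [d1 z hz, d2 z hz]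
  -- the comparison
  have hc0 : 0 ≤ P.2 + r := by linarith
  have s5 := hK.lag.compare (f := f) (γ := γ) (ψ := N (P.2 + r)) hP0 k1 k2 (hfa _ _) (hγa _ _)
    ((hK.ac _ hc0 k6).mono (by
      rw [uIcc_of_le k1, uIcc_of_le (by linarith)]
      exact Icc_subset_Icc (by linarith) (by linarith)))
    ((hK.mono _ hc0 k6).mono (Icc_subset_Icc (by linarith) (by linarith)))
    (fun z hz => (hin z hz.1 hz.2).1)
    (fun z hz p => by
      rw [d1 z hz]
      apply hK.tan _ _ _ hc0 k6 (by linarith [hz.1]) (by linarith [hz.2])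
      rw [abs_lt]
      constructor <;> linarith [hz.1, hz.2])
  have e1 : f P.2 = P.1 := hF.at_new hsep
  have e2 : γ P.2 = P.1 := by
    simp only [hγ, sub_self, vir_zero, add_zero]
  rw [e1, e2, sub_self, mul_zero, sub_zero] at s5
  have e3 : f z1 ≤ γ z1 ∧ γ z1 ≤ arc P z1 := hin z1 k1 le_rfl
  -- the value of the front at the wall
  rcases hr with ⟨h1, h2, h3⟩ | ⟨h1, h2, h3, h4, h5⟩
  · -- the wall
    have w1 := hK.wall P.2 hP0 hP (by linarith)
    have c1 : P.2 + r = H := by linarith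
    rw [c1] at s4 s5
    rw [h3] at s1 s2 s3 s4 s5 e3
    have c2 : max (f H) (arc P H) = arc P H := max_eq_right (e3.1.trans e3.2)
    have c3 : arc P H = P.1 + g (H - P.2) := rfl
    have c4 : γ H = P.1 + 1 - g (H - P.2) := by
      simp only [hγ]
      unfold vir
      rw [h1, sub_self, g_zero, max_eq_right (by linarith [g_le_one (H - P.2)])]
      ring
    have c5 := hK.top H hK.H0 le_rfl (by linarith)
    have c6 : 0 ≤ (W - N H H) * (γ H - f H) :=
      mul_nonneg (by linarith) (by linarith [e3.1])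
    rw [c2, c3]
    rw [c4] at c6 s5
    nlinarith
  · -- an exit
    obtain ⟨b1, b2, b3, b4, b5⟩ := ext_invol h1 h2
    have w1 := hK.exit P.2 r hP0 h1 h2 h3 (by linarith)
    rw [← h4] at w1
    have c1 : γ z1 = arc P z1 := by
      simp only [hγ]
      unfold vir arc
      rw [h4, add_sub_cancel_left, b5, max_eq_right (g_nonneg _)]
    rcases h5.eq_or_lt with h6 | h6
    · rw [h6] at s1 s2 s3 s4 s5 e3 c1 w1
      have c2 : max (f H) (arc P H) = arc P H := max_eq_right (e3.1.trans e3.2)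
      have c5 := hK.top (P.2 + r) hc0 k6 (by linarith)
      have c6 : 0 ≤ (W - N (P.2 + r) H) * (γ H - f H) :=
        mul_nonneg (by linarith) (by linarith [e3.1])
      rw [c2, ← c1]
      nlinarith
    · have c2 : γ z1 ≤ f z1 := by
        have g1 : Continuous γ := by
          have : γ = fun z => max P.1 (arc (P.1 - g r, P.2 + r) z) := by
            funext z
            exact vir_arc P r z
          rw [this]
          exact continuous_const.max (arc_cont _)
        have g2 : IsClosed {t | γ t ≤ f t} := isClosed_le g1 hF.cont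
        have g3 : Ioo z1 H ⊆ {t | γ t ≤ f t} := fun t ht => (hout t ht.1 ht.2.le).1
        have g4 : closure (Ioo z1 H) ⊆ {t | γ t ≤ f t} := closure_minimal g3 g2
        rw [closure_Ioo h6.ne] at g4
        exact g4 ⟨le_rfl, h6.le⟩
      have c3 : f z1 = γ z1 := le_antisymm e3.1 c2
      rw [c3, sub_self, mul_zero] at s5
      have c4 := hout H h6 le_rfl
      have c5 : max (f H) (arc P H) = f H := max_eq_left (c4.2.trans c4.1)
      rw [c5]
      linarith

end Pool.Agent.Strip051
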