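import Pool.Agent.Strip051.Kern.Ins

/-! # The counting bound from a kernel certificate -/

namespace Pool.Agent.Strip051

open Pool.Agent.StripNear Pool.Agent.StripSquare Set MeasureTheory
open Pool.Agent.StripTwo (molnar)

/-- The potential of a front. -/
noncomputable def kpot (H W : ℝ) (L : ℝ → ℝ → ℝ) (f : ℝ → ℝ) : ℝ :=
  W * f H + W * f 0 - ∫ z in (0 : ℝ)..H, L z (deriv f z)

theorem deriv_mirror (f : ℝ → ℝ) (H z : ℝ) : deriv (fun x => f (H - x)) z = -deriv f (H - z) := by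
  exact deriv_comp_const_sub (f := f) (a := H) (x := z)

theorem int_mirror {H W : ℝ} {L N : ℝ → ℝ → ℝ} {e : ℝ → ℝ} (hK : KernCert H W L N e)
    (f : ℝ → ℝ) (y : ℝ) :
    ∫ z in (H - y)..H, L z (deriv (fun x => f (H - x)) z) = ∫ z in (0 : ℝ)..y, L z (deriv f z) := by
  have h1 : ∀ z, L z (deriv (fun x => f (H - x)) z) = L (H - z) (deriv f (H - z)) := by
    intro z
    rw [deriv_mirror, ← hK.flip z, neg_neg]
  simp only [h1]
  rw [intervalIntegral.integral_comp_sub_left (fun z => L z (deriv f z)) H]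
  rw [sub_self, sub_sub_cancel]

/-- The gain at an insertion. -/
theorem KernCert.gain {H W : ℝ} {L N : ℝ → ℝ → ℝ} {e : ℝ → ℝ} (hK : KernCert H W L N e)
    {S : Set Pt} {P : Pt} {f : ℝ → ℝ} (hF : Fr S P.1 f)
    (hfa : ∀ a b, AbsolutelyContinuousOnInterval f a b)
    (hfa' : ∀ a b, AbsolutelyContinuousOnInterval (fun z => f (H - z)) a b)
    (hs : ∀ q ∈ S, 0 ≤ q.2 ∧ q.2 ≤ H) (hsep : ∀ q ∈ S, Sep P q) (hP0 : 0 ≤ P.2) (hP : P.2 ≤ H) :
    kpot H W L f + 1 ≤ kpot H W L (fun z => max (f z) (arc P z)) := by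
  have u1 := hK.up hF hfa (fun q hq => (hs q hq).2) hsep hP0 hP
  have u2 := hK.up (P := mir H P) (hF.mirror H) hfa'
    (fun q hq => by
      have := (hs _ hq).1
      rw [mir_snd] at this
      linarith)
    (fun q hq => by
      apply sep_mir (H := H)
      rw [mir_mir]
      exact hsep _ hq)
    (by
      rw [mir_snd]
      linarith)
    (by
      rw [mir_snd]
      linarith)
  have c1 : ∀ x, arc (mir H P) x = arc P (H - x) := fun x => arc_mir H P x
  have c2 : (fun x => max (f (H - x)) (arc (mir H P) x)) =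
      fun x => (fun t => max (f t) (arc P t)) (H - x) := by
    funext x
    rw [c1]
  have c3 := int_mirror hK (fun t => max (f t) (arc P t)) P.2
  rw [c2, c1, sub_self, mir_snd, int_mirror hK f, c3] at u2
  have u3 := hK.sum P.2 hP0 hP
  have hka : ∀ a b, AbsolutelyContinuousOnInterval (fun z => max (f z) (arc P z)) a b :=
    fun a b => ac_max (hfa a b) (ac_arc P a b)
  have s1 := intervalIntegral.integral_add_adjacent_intervals
    (hK.lag.integrable (f := f) le_rfl hP0 hP (hfa _ _))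
    (hK.lag.integrable (f := f) hP0 hP le_rfl (hfa _ _))
  have s2 := intervalIntegral.integral_add_adjacent_intervals
    (hK.lag.integrable (f := fun z => max (f z) (arc P z)) le_rfl hP0 hP (hka _ _))
    (hK.lag.integrable (f := fun z => max (f z) (arc P z)) hP0 hP le_rfl (hka _ _))
  unfold kpot
  linarith

theorem KernCert.raise {H W : ℝ} {L N : ℝ → ℝ → ℝ} {e : ℝ → ℝ} (hK : KernCert H W L N e)
    {f : ℝ → ℝ} (hfa : ∀ a b, AbsolutelyContinuousOnInterval f a b) (m : ℝ) :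
    kpot H W L f ≤ kpot H W L (fun z => max (f z) m) := by
  apply hK.lag.raise hK.H0 (hfa _ _) hK.dac hK.dmono (hK.top H hK.H0 le_rfl (by linarith)) hK.bot
  intro z hz p
  have h1 := hK.tan z z p hz.1.le hz.2.le hz.1.le hz.2.le (by simp)
  have h2 : sl z z = 0 := by
    unfold sl
    rw [sub_self, neg_zero, zero_div]
  rw [h2, sub_zero] at h1
  exact h1

theorem mirror_ac {S : Finset Pt} {m : ℝ} {f : ℝ → ℝ} (h : Fr {p | p ∈ S} m f) (H a b : ℝ) :
    AbsolutelyContinuousOnInterval (fun z => f (H - z)) a b := by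
  classical
  have h1 := h.mirror H
  have h2 : mirS H {p | p ∈ S} = {p | p ∈ S.image (mir H)} := by
    ext p
    simp only [mem_mirS, Set.mem_ofPred_eq, Finset.mem_image]
    constructor
    · intro h
      exact ⟨mir H p, h, mir_mir H p⟩
    · rintro ⟨q, hq, rfl⟩
      rw [mir_mir]
      exact hq
  rw [h2] at h1
  exact h1.ac a b

theorem kern_step {H W : ℝ} {L N : ℝ → ℝ → ℝ} {e : ℝ → ℝ} (hK : KernCert H W L N e)
    {S : Finset Pt} {P : Pt} {m : ℝ} {f : ℝ → ℝ} (hF : Fr {p | p ∈ S} m f) (hm : m ≤ P.1)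
    (hs : ∀ q ∈ S, 0 ≤ q.2 ∧ q.2 ≤ H) (hsep : ∀ q ∈ S, Sep P q) (hP : 0 ≤ P.2 ∧ P.2 ≤ H) :
    ∃ f', Fr (insert P {p | p ∈ S}) P.1 f' ∧ kpot H W L f + 1 ≤ kpot H W L f' := by
  have hF1 := hF.raise hm
  have h1 := hK.raise (fun a b => hF.ac a b) P.1
  refine ⟨_, hF1.insert, ?_⟩
  have h2 := hK.gain hF1 (fun a b => hF1.ac a b) (fun a b => mirror_ac hF1 H a b) hs hsep hP.1 hP.2
  linarith

theorem kern_fold {H W : ℝ} {L N : ℝ → ℝ → ℝ} {e : ℝ → ℝ} (hK : KernCert H W L N e)
    {X : Finset Pt} (hX : UnitSep X) (hXH : InStrip H X)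
    (hX0 : ∀ p ∈ X, 0 ≤ p.1) (s : Finset Pt) : (∀ p ∈ s, p ∈ X) →
    ∃ m f, Fr {p | p ∈ s} m f ∧ (m = 0 ∨ ∃ q ∈ s, m = q.1) ∧
      kpot H W L (fun _ => 0) + s.card ≤ kpot H W L f := by
  classical
  refine Finset.induction_on_max_value (fun p : Pt => toLex p) s ?_ ?_
  · intro _
    refine ⟨0, fun _ => 0, ?_, Or.inl rfl, by simp⟩
    have h1 := Fr.start 0
    have h2 : {p : Pt | p ∈ (∅ : Finset Pt)} = ∅ := by
      ext p
      simp
    rw [h2]
    exact h1
  · intro P s hPs hmax ih hsX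
    obtain ⟨m, f, h1, h2, h3⟩ := ih fun q hq => hsX q (Finset.mem_insert_of_mem hq)
    have hPX := hsX P (Finset.mem_insert_self _ _)
    have hm : m ≤ P.1 := by
      rcases h2 with h2 | ⟨q, hq, h2⟩
      · rw [h2]
        exact hX0 P hPX
      · rw [h2]
        have h4 := hmax q hq
        rw [Prod.Lex.le_iff] at h4
        rcases h4 with h4 | ⟨h4, -⟩
        · exact h4.le
        · exact h4.le
    obtain ⟨f', k1, k2⟩ := kern_step hK h1 hm
      (fun q hq => hXH q (hsX q (Finset.mem_insert_of_mem hq)))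
      (fun q hq => hX P hPX q (hsX q (Finset.mem_insert_of_mem hq)) fun e => hPs (by rw [e]; exact hq))
      (hXH P hPX)
    refine ⟨P.1, f', ?_, Or.inr ⟨P, Finset.mem_insert_self _ _, rfl⟩, ?_⟩
    · have h5 : {p : Pt | p ∈ insert P s} = insert P {p : Pt | p ∈ s} := by
        ext p
        simp
      rw [h5]
      exact k1
    · rw [Finset.card_insert_of_notMem hPs]
      push_cast
      linarith

/-- The growth of the potential. -/
theorem kpot_le {H W : ℝ} {L N : ℝ → ℝ → ℝ} {e : ℝ → ℝ} (hK : KernCert H W L N e)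
    {f : ℝ → ℝ} (hfa : ∀ a b, AbsolutelyContinuousOnInterval f a b) {M : ℝ}
    (hM : ∀ z, f z ≤ M) : kpot H W L f ≤ 2 * W * M + kpot H W L (fun _ => 0) := by
  have h1 := hK.raise hfa M
  have h2 : (fun z => max (f z) M) = fun _ => M := by
    funext z
    exact max_eq_right (hM z)
  rw [h2] at h1
  have h3 : kpot H W L (fun _ => M) = 2 * W * M + kpot H W L (fun _ => 0) := by
    unfold kpot
    simp only [deriv_const]
    ring
  linarith

/-- From the certificate to the bound for the number of points. -/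
theorem kern_machine {H W : ℝ} {L N : ℝ → ℝ → ℝ} {e : ℝ → ℝ} (hK : KernCert H W L N e) :
    ∃ C0 : ℝ, ∀ X₀ : ℝ, 0 ≤ X₀ → ∀ X : Finset Pt, UnitSep X → InStrip H X →
      (∀ p ∈ X, 0 ≤ p.1 ∧ p.1 ≤ X₀) → (X.card : ℝ) ≤ 2 * W * X₀ + C0 := by
  refine ⟨2 * W, ?_⟩
  intro X₀ hX₀ X hX hXH hXL
  obtain ⟨m, f, h1, h2, h3⟩ := kern_fold hK hX hXH (fun p hp => (hXL p hp).1) X fun p hp => hp
  have hf : ∀ z, f z ≤ X₀ + 1 := by
    intro z
    rcases h1.eq z with h4 | ⟨q, hq, h4⟩
    · rw [h4]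
      rcases h2 with h2 | ⟨q, hq, h2⟩
      · linarith
      · rw [h2]
        linarith [(hXL q hq).2]
    · rw [h4]
      linarith [arc_le q z, (hXL q hq).2]
  have h4 := kpot_le hK (fun a b => h1.ac a b) hf
  linarith

end Pool.Agent.Strip051
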