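import Pool.Agent.Strip051.Kern.HannLists

/-! # From the approximating polynomials to the monotonicity inequality -/

namespace Pool.Agent.Strip051

open Pool.Agent.StripNear Pool.Agent.StripSquare Set MeasureTheory

/-- The value of a polynomial. -/
def ev : List ℤ → ℝ → ℝ
  | [], _ => 0
  | a :: l, u => a + u * ev l u

/-- The polynomial in `y = w u`, with the common factor. -/
def scl (w : ℤ) : List ℤ → List ℤ × ℤ
  | [] => ([], 1)
  | a :: l =>
    match scl w l with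
    | (m, p) => (w * p * a :: m, w * p)

/-- The sum of two polynomials. -/
def zadd : List ℤ → List ℤ → List ℤ
  | [], m => m
  | a :: l, [] => a :: l
  | a :: l, b :: m => (a + b) :: zadd l m

/-- The shifted polynomial. -/
def shf (c : ℤ) : List ℤ → List ℤ
  | [] => []
  | a :: l =>
    match shf c l with
    | r => zadd (a :: r) (r.map (c * ·))

/-- The sum of the absolute values of the coefficients. -/
def sab : List ℤ → ℤ
  | [] => 0
  | a :: l => |a| + sab l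

theorem ev_scl {w : ℤ} (hw : w ≠ 0) (l : List ℤ) (y : ℝ) :
    ev (scl w l).1 y = (scl w l).2 * ev l (y / w) := by
  have hw' : (w : ℝ) ≠ 0 := by exact_mod_cast hw
  induction l with
  | nil => simp [scl, ev]
  | cons a l ih =>
    simp only [scl, ev]
    rw [ih]
    push_cast
    field_simp

theorem ev_zadd (l m : List ℤ) (x : ℝ) : ev (zadd l m) x = ev l x + ev m x := by
  induction l generalizing m with
  | nil => simp [zadd, ev]
  | cons a l ih =>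
    cases m with
    | nil => simp [zadd, ev]
    | cons b m =>
      simp only [zadd, ev]
      rw [ih]
      push_cast
      ring

theorem ev_map (c : ℤ) (l : List ℤ) (x : ℝ) : ev (l.map (c * ·)) x = c * ev l x := by
  induction l with
  | nil => simp [ev]
  | cons a l ih =>
    simp only [List.map_cons, ev]
    rw [ih]
    push_cast
    ring

theorem ev_shf (c : ℤ) (l : List ℤ) (x : ℝ) : ev (shf c l) x = ev l (c + x) := by
  induction l with
  | nil => simp [shf, ev]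
  | cons a l ih =>
    simp only [shf, ev]
    rw [ev_zadd, ev_map, ev, ih]
    ring

theorem sab_nonneg (l : List ℤ) : 0 ≤ sab l := by
  induction l with
  | nil => simp [sab]
  | cons a l ih =>
    simp only [sab]
    positivity

theorem abs_ev_le (l : List ℤ) {x : ℝ} (hx : |x| ≤ 1) : |ev l x| ≤ sab l := by
  induction l with
  | nil => simp [ev, sab]
  | cons a l ih =>
    simp only [ev, sab]
    push_cast
    refine (abs_add_le _ _).trans ?_
    rw [abs_mul]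
    have h1 : |x| * |ev l x| ≤ 1 * |ev l x| := mul_le_mul_of_nonneg_right hx (abs_nonneg _)
    linarith

/-- Affine part: `m₀ + s m₁`. -/
def aff (s : ℤ) : List ℤ → ℤ
  | a :: b :: _ => a + s * b
  | [a] => a
  | [] => 0

/-- The tail. -/
def tl2 (l : List ℤ) : ℤ := sab (l.drop 2)

/-- A polynomial on `[-1, 1]` is the affine interpolation of its affine part up to the tail. -/
theorem ev_aff (l : List ℤ) {x : ℝ} (hx : |x| ≤ 1) :
    |ev l x - ((1 + x) / 2 * (aff 1 l : ℤ) + (1 - x) / 2 * (aff (-1) l : ℤ))| ≤ tl2 l := by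
  match l with
  | [] => simp [ev, aff, tl2, sab]
  | [a] =>
    simp only [ev, aff, tl2, List.drop, sab]
    have : (a : ℝ) + x * 0 - ((1 + x) / 2 * a + (1 - x) / 2 * a) = 0 := by ring
    rw [this]
    simp
  | a :: b :: l =>
    simp only [ev, aff, tl2, List.drop]
    have h := abs_ev_le l hx
    push_cast
    have : (a : ℝ) + x * (b + x * ev l x) - ((1 + x) / 2 * (a + 1 * b) +
        (1 - x) / 2 * (a + -1 * b)) = x * x * ev l x := by ring
    rw [this, abs_mul, abs_mul]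
    have h2 : |x| * |x| ≤ 1 := by nlinarith [abs_nonneg x]
    calc |x| * |x| * |ev l x| ≤ 1 * |ev l x| := mul_le_mul_of_nonneg_right h2 (abs_nonneg _)
      _ ≤ sab l := by linarith

/-- The Gram form. -/
theorem gram (a0 b0 a1 b1 a2 b2 a3 b3 φ : ℝ) :
    0 ≤ (a0 ^ 2 + b0 ^ 2 + a1 ^ 2 + b1 ^ 2 + a2 ^ 2 + b2 ^ 2 + a3 ^ 2 + b3 ^ 2) +
      2 * ((a1 * a0 + b1 * b0 + a2 * a1 + b2 * b1 + a3 * a2 + b3 * b2) * Real.cos φ -
        (b1 * a0 - a1 * b0 + b2 * a1 - a2 * b1 + b3 * a2 - a3 * b2) * Real.sin φ) +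
      2 * ((a2 * a0 + b2 * b0 + a3 * a1 + b3 * b1) * Real.cos (2 * φ) -
        (b2 * a0 - a2 * b0 + b3 * a1 - a3 * b1) * Real.sin (2 * φ)) +
      2 * ((a3 * a0 + b3 * b0) * Real.cos (3 * φ) -
        (b3 * a0 - a3 * b0) * Real.sin (3 * φ)) := by
  have c21 : Real.cos (2 * φ) * Real.cos φ + Real.sin (2 * φ) * Real.sin φ = Real.cos φ := by
    rw [← Real.cos_sub]
    congr 1
    ring
  have s21 : Real.sin (2 * φ) * Real.cos φ - Real.cos (2 * φ) * Real.sin φ = Real.sin φ := by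
    rw [← Real.sin_sub]
    congr 1
    ring
  have c31 : Real.cos (3 * φ) * Real.cos φ + Real.sin (3 * φ) * Real.sin φ =
      Real.cos (2 * φ) := by
    rw [← Real.cos_sub]
    congr 1
    ring
  have s31 : Real.sin (3 * φ) * Real.cos φ - Real.cos (3 * φ) * Real.sin φ =
      Real.sin (2 * φ) := by
    rw [← Real.sin_sub]
    congr 1
    ring
  have c32 : Real.cos (3 * φ) * Real.cos (2 * φ) + Real.sin (3 * φ) * Real.sin (2 * φ) =
      Real.cos φ := by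
    rw [← Real.cos_sub]
    congr 1
    ring
  have s32 : Real.sin (3 * φ) * Real.cos (2 * φ) - Real.cos (3 * φ) * Real.sin (2 * φ) =
      Real.sin φ := by
    rw [← Real.sin_sub]
    congr 1
    ring
  have q1 := Real.sin_sq_add_cos_sq φ
  have q2 := Real.sin_sq_add_cos_sq (2 * φ)
  have q3 := Real.sin_sq_add_cos_sq (3 * φ)
  have h1 := sq_nonneg (a0 + (a1 * Real.cos φ - b1 * Real.sin φ) +
    (a2 * Real.cos (2 * φ) - b2 * Real.sin (2 * φ)) +
    (a3 * Real.cos (3 * φ) - b3 * Real.sin (3 * φ)))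
  have h2 := sq_nonneg (b0 + (a1 * Real.sin φ + b1 * Real.cos φ) +
    (a2 * Real.sin (2 * φ) + b2 * Real.cos (2 * φ)) +
    (a3 * Real.sin (3 * φ) + b3 * Real.cos (3 * φ)))
  have h3 := add_nonneg h1 h2
  refine h3.trans_eq ?_
  linear_combination (2 * (a2 * a1 + b2 * b1)) * c21 - (2 * (b2 * a1 - a2 * b1)) * s21 +
    (2 * (a3 * a1 + b3 * b1)) * c31 - (2 * (b3 * a1 - a3 * b1)) * s31 +
    (2 * (a3 * a2 + b3 * b2)) * c32 - (2 * (b3 * a2 - a3 * b2)) * s32 +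
    (a1 ^ 2 + b1 ^ 2) * q1 + (a2 ^ 2 + b2 ^ 2) * q2 + (a3 ^ 2 + b3 ^ 2) * q3

/-- The defect in the coefficients of a Gram vector against `(a, b)` (all times the scale). -/
def defect (p : ℤ) (a b : ℤ × ℤ × ℤ) : List ℤ → ℤ
  | [a0, b0, a1, b1, a2, b2, a3, b3] =>
    p * (a0 ^ 2 + b0 ^ 2 + a1 ^ 2 + b1 ^ 2 + a2 ^ 2 + b2 ^ 2 + a3 ^ 2 + b3 ^ 2) +
    (|a.1 + 2 * p * (a1 * a0 + b1 * b0 + a2 * a1 + b2 * b1 + a3 * a2 + b3 * b2)| +
     |b.1 + 2 * p * (b1 * a0 - a1 * b0 + b2 * a1 - a2 * b1 + b3 * a2 - a3 * b2)|) +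
    (|a.2.1 + 2 * p * (a2 * a0 + b2 * b0 + a3 * a1 + b3 * b1)| +
     |b.2.1 + 2 * p * (b2 * a0 - a2 * b0 + b3 * a1 - a3 * b1)|) +
    (|a.2.2 + 2 * p * (a3 * a0 + b3 * b0)| + |b.2.2 + 2 * p * (b3 * a0 - a3 * b0)|)
  | _ => 0

/-- The trigonometric polynomial with the coefficients `a`, `b`. -/
noncomputable def trg (a b : ℤ × ℤ × ℤ) (φ : ℝ) : ℝ :=
  (a.1 * Real.cos φ - b.1 * Real.sin φ) + (a.2.1 * Real.cos (2 * φ) - b.2.1 * Real.sin (2 * φ)) +
    (a.2.2 * Real.cos (3 * φ) - b.2.2 * Real.sin (3 * φ))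

theorem cs_le (x y φ : ℝ) : x * Real.cos φ - y * Real.sin φ ≤ |x| + |y| := by
  have h1 := Real.abs_cos_le_one φ
  have h2 := Real.abs_sin_le_one φ
  have h3 : x * Real.cos φ ≤ |x| := by
    calc x * Real.cos φ ≤ |x * Real.cos φ| := le_abs_self _
      _ = |x| * |Real.cos φ| := abs_mul _ _
      _ ≤ |x| * 1 := mul_le_mul_of_nonneg_left h1 (abs_nonneg _)
      _ = |x| := mul_one _
  have h4 : -(y * Real.sin φ) ≤ |y| := by
    calc -(y * Real.sin φ) ≤ |y * Real.sin φ| := neg_le_abs _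
      _ = |y| * |Real.sin φ| := abs_mul _ _
      _ ≤ |y| * 1 := mul_le_mul_of_nonneg_left h2 (abs_nonneg _)
      _ = |y| := mul_one _
  linarith

theorem trg_le {p : ℤ} (hp : 0 ≤ p) (a b : ℤ × ℤ × ℤ) (a0 b0 a1 b1 a2 b2 a3 b3 : ℤ) (φ : ℝ) :
    trg a b φ ≤ (defect p a b [a0, b0, a1, b1, a2, b2, a3, b3] : ℤ) := by
  have h := gram a0 b0 a1 b1 a2 b2 a3 b3 φ
  have hp' : (0 : ℝ) ≤ p := by exact_mod_cast hp
  have h' := mul_nonneg hp' h
  have k1 := cs_le (a.1 + 2 * p * (a1 * a0 + b1 * b0 + a2 * a1 + b2 * b1 + a3 * a2 + b3 * b2) : ℝ)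
    (b.1 + 2 * p * (b1 * a0 - a1 * b0 + b2 * a1 - a2 * b1 + b3 * a2 - a3 * b2) : ℝ) φ
  have k2 := cs_le (a.2.1 + 2 * p * (a2 * a0 + b2 * b0 + a3 * a1 + b3 * b1) : ℝ)
    (b.2.1 + 2 * p * (b2 * a0 - a2 * b0 + b3 * a1 - a3 * b1) : ℝ) (2 * φ)
  have k3 := cs_le (a.2.2 + 2 * p * (a3 * a0 + b3 * b0) : ℝ)
    (b.2.2 + 2 * p * (b3 * a0 - a3 * b0) : ℝ) (3 * φ)
  unfold trg defect
  push_cast
  nlinarith [h', k1, k2, k3]

/-- The polynomial scaled to `y = 16 u` and shifted to the centre `c`. -/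
def sc (c : ℤ) (l : List ℤ) : List ℤ := shf c (scl 16 l).1

/-- The check on one interval. -/
def chk (A B : List ℤ × List ℤ × List ℤ) (c : ℤ) (qp qm : List ℤ) : Bool :=
  let p := (scl 16 A.1).2
  let m1 := sc c A.1
  let m2 := sc c A.2.1
  let m3 := sc c A.2.2
  let n1 := sc c B.1
  let n2 := sc c B.2.1
  let n3 := sc c B.2.2
  let t := tl2 m1 + tl2 m2 + tl2 m3 + tl2 n1 + tl2 n2 + tl2 n3
  let s := 2 ^ 30 * p
  decide (0 < p ∧ (scl 16 A.2.1).2 = p ∧ (scl 16 A.2.2).2 = p ∧ (scl 16 B.1).2 = p ∧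
    (scl 16 B.2.1).2 = p ∧ (scl 16 B.2.2).2 = p ∧ qp.length = 8 ∧ qm.length = 8 ∧
    10000 * (defect p (aff 1 m1, aff 1 m2, aff 1 m3) (aff 1 n1, aff 1 n2, aff 1 n3) qp + t) +
      6 * s ≤ 5000 * s ∧
    10000 * (defect p (aff (-1) m1, aff (-1) m2, aff (-1) m3)
      (aff (-1) n1, aff (-1) n2, aff (-1) n3) qm + t) + 6 * s ≤ 5000 * s)

/-- One coefficient. -/
theorem coeff_le {l : List ℤ} {c p : ℤ} (hp : 0 < p) (hl : (scl 16 l).2 = p) {x α : ℝ}
    (hx : |x| ≤ 1) (ha : |α - ev l ((c + x) / 16) / 2 ^ 30| ≤ 1 / 10000) :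
    |α - ((1 + x) / 2 * (aff 1 (sc c l) : ℤ) + (1 - x) / 2 * (aff (-1) (sc c l) : ℤ)) /
      (2 ^ 30 * (p : ℝ))| ≤ (tl2 (sc c l) : ℝ) / (2 ^ 30 * (p : ℝ)) + 1 / 10000 := by
  have hp' : (0 : ℝ) < p := by exact_mod_cast hp
  have h1 : ev (sc c l) x = p * ev l ((c + x) / 16) := by
    unfold sc
    rw [ev_shf, ev_scl (by norm_num), hl]
    norm_num
  have h2 := ev_aff (sc c l) hx
  set I := ((1 + x) / 2 * (aff 1 (sc c l) : ℤ) + (1 - x) / 2 * (aff (-1) (sc c l) : ℤ) : ℝ)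
  have hs : (0 : ℝ) < 2 ^ 30 * (p : ℝ) := by positivity
  have h3 : ev l ((c + x) / 16) / 2 ^ 30 = ev (sc c l) x / (2 ^ 30 * p) := by
    rw [h1]
    field_simp
  have h4 : |ev (sc c l) x / (2 ^ 30 * p) - I / (2 ^ 30 * p)| ≤ (tl2 (sc c l) : ℝ) / (2 ^ 30 * p) := by
    rw [← sub_div, abs_div, abs_of_pos hs]
    exact div_le_div_of_nonneg_right h2 hs.le
  have h5 : α - I / (2 ^ 30 * p) = (α - ev l ((c + x) / 16) / 2 ^ 30) +
      (ev (sc c l) x / (2 ^ 30 * p) - I / (2 ^ 30 * p)) := by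
    rw [h3]
    ring
  rw [h5]
  refine (abs_add_le _ _).trans ?_
  linarith

theorem length_eight {l : List ℤ} (h : l.length = 8) : ∃ a0 b0 a1 b1 a2 b2 a3 b3 : ℤ,
    l = [a0, b0, a1, b1, a2, b2, a3, b3] := by
  match l, h with
  | [a0, b0, a1, b1, a2, b2, a3, b3], _ => exact ⟨a0, b0, a1, b1, a2, b2, a3, b3, rfl⟩

theorem chk_sound {A B : List ℤ × List ℤ × List ℤ} {c : ℤ} {qp qm : List ℤ}
    (h : chk A B c qp qm = true) {x : ℝ} (hx : |x| ≤ 1) (φ : ℝ) {α1 α2 α3 β1 β2 β3 : ℝ}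
    (h1 : |α1 - ev A.1 ((c + x) / 16) / 2 ^ 30| ≤ 1 / 10000)
    (h2 : |α2 - ev A.2.1 ((c + x) / 16) / 2 ^ 30| ≤ 1 / 10000)
    (h3 : |α3 - ev A.2.2 ((c + x) / 16) / 2 ^ 30| ≤ 1 / 10000)
    (k1 : |β1 - ev B.1 ((c + x) / 16) / 2 ^ 30| ≤ 1 / 10000)
    (k2 : |β2 - ev B.2.1 ((c + x) / 16) / 2 ^ 30| ≤ 1 / 10000)
    (k3 : |β3 - ev B.2.2 ((c + x) / 16) / 2 ^ 30| ≤ 1 / 10000) :
    0 ≤ 1 / 2 - ((α1 * Real.cos φ - β1 * Real.sin φ) +
      (α2 * Real.cos (2 * φ) - β2 * Real.sin (2 * φ)) +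
      (α3 * Real.cos (3 * φ) - β3 * Real.sin (3 * φ))) := by
  unfold chk at h
  simp only [decide_eq_true_eq] at h
  obtain ⟨hp, e2, e3, e4, e5, e6, lp, lm, cp, cm⟩ := h
  set p := (scl 16 A.1).2 with hpd
  obtain ⟨a0, b0, a1, b1, a2, b2, a3, b3, rfl⟩ := length_eight lp
  obtain ⟨c0, d0, c1, d1, c2, d2, c3, d3, rfl⟩ := length_eight lm
  have t1 := trg_le hp.le (aff 1 (sc c A.1), aff 1 (sc c A.2.1), aff 1 (sc c A.2.2))
    (aff 1 (sc c B.1), aff 1 (sc c B.2.1), aff 1 (sc c B.2.2)) a0 b0 a1 b1 a2 b2 a3 b3 φ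
  have t2 := trg_le hp.le (aff (-1) (sc c A.1), aff (-1) (sc c A.2.1), aff (-1) (sc c A.2.2))
    (aff (-1) (sc c B.1), aff (-1) (sc c B.2.1), aff (-1) (sc c B.2.2)) c0 d0 c1 d1 c2 d2 c3 d3 φ
  set Dp := defect p (aff 1 (sc c A.1), aff 1 (sc c A.2.1), aff 1 (sc c A.2.2))
    (aff 1 (sc c B.1), aff 1 (sc c B.2.1), aff 1 (sc c B.2.2)) [a0, b0, a1, b1, a2, b2, a3, b3]
  set Dm := defect p (aff (-1) (sc c A.1), aff (-1) (sc c A.2.1), aff (-1) (sc c A.2.2))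
    (aff (-1) (sc c B.1), aff (-1) (sc c B.2.1), aff (-1) (sc c B.2.2))
    [c0, d0, c1, d1, c2, d2, c3, d3]
  have u1 := coeff_le (c := c) hp rfl hx h1
  have u2 := coeff_le (c := c) hp e2 hx h2
  have u3 := coeff_le (c := c) hp e3 hx h3
  have v1 := coeff_le (c := c) hp e4 hx k1
  have v2 := coeff_le (c := c) hp e5 hx k2
  have v3 := coeff_le (c := c) hp e6 hx k3
  have hp' : (0 : ℝ) < p := by exact_mod_cast hp
  unfold trg at t1 t2
  simp only at t1 t2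
  have cp' : (10000 : ℝ) * (Dp + (tl2 (sc c A.1) + tl2 (sc c A.2.1) + tl2 (sc c A.2.2) +
    tl2 (sc c B.1) + tl2 (sc c B.2.1) + tl2 (sc c B.2.2))) + 6 * (2 ^ 30 * p) ≤
    5000 * (2 ^ 30 * p) := by exact_mod_cast cp
  have cm' : (10000 : ℝ) * (Dm + (tl2 (sc c A.1) + tl2 (sc c A.2.1) + tl2 (sc c A.2.2) +
    tl2 (sc c B.1) + tl2 (sc c B.2.1) + tl2 (sc c B.2.2))) + 6 * (2 ^ 30 * p) ≤
    5000 * (2 ^ 30 * p) := by exact_mod_cast cm
  have hs : (0 : ℝ) < 2 ^ 30 * p := by positivity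
  set s : ℝ := 2 ^ 30 * p
  have w1 := cs_le (α1 - ((1 + x) / 2 * (aff 1 (sc c A.1) : ℤ) +
    (1 - x) / 2 * (aff (-1) (sc c A.1) : ℤ)) / s)
    (β1 - ((1 + x) / 2 * (aff 1 (sc c B.1) : ℤ) +
    (1 - x) / 2 * (aff (-1) (sc c B.1) : ℤ)) / s) φ
  have w2 := cs_le (α2 - ((1 + x) / 2 * (aff 1 (sc c A.2.1) : ℤ) +
    (1 - x) / 2 * (aff (-1) (sc c A.2.1) : ℤ)) / s)
    (β2 - ((1 + x) / 2 * (aff 1 (sc c B.2.1) : ℤ) +
    (1 - x) / 2 * (aff (-1) (sc c B.2.1) : ℤ)) / s) (2 * φ)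
  have w3 := cs_le (α3 - ((1 + x) / 2 * (aff 1 (sc c A.2.2) : ℤ) +
    (1 - x) / 2 * (aff (-1) (sc c A.2.2) : ℤ)) / s)
    (β3 - ((1 + x) / 2 * (aff 1 (sc c B.2.2) : ℤ) +
    (1 - x) / 2 * (aff (-1) (sc c B.2.2) : ℤ)) / s) (3 * φ)
  rw [abs_le] at hx
  have x1 := mul_le_mul_of_nonneg_left t1 (by linarith [hx.1] : 0 ≤ (1 + x) / 2)
  have x2 := mul_le_mul_of_nonneg_left t2 (by linarith [hx.2] : 0 ≤ (1 - x) / 2)
  have y1 := mul_le_mul_of_nonneg_left cp' (by linarith [hx.1] : 0 ≤ (1 + x) / 2)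
  have y2 := mul_le_mul_of_nonneg_left cm' (by linarith [hx.2] : 0 ≤ (1 - x) / 2)
  have z := div_le_div_of_nonneg_right (add_le_add x1 x2) hs.le
  have z2 := div_le_div_of_nonneg_right (add_le_add y1 y2) hs.le
  have e1 : ((1 + x) / 2 * (5000 * s) + (1 - x) / 2 * (5000 * s)) / s = 5000 := by
    field_simp
    ring
  rw [e1] at z2
  have e7 : ((1 + x) / 2 * (10000 * (Dp + (tl2 (sc c A.1) + tl2 (sc c A.2.1) + tl2 (sc c A.2.2) +
    tl2 (sc c B.1) + tl2 (sc c B.2.1) + tl2 (sc c B.2.2))) + 6 * s) +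
    (1 - x) / 2 * (10000 * (Dm + (tl2 (sc c A.1) + tl2 (sc c A.2.1) + tl2 (sc c A.2.2) +
    tl2 (sc c B.1) + tl2 (sc c B.2.1) + tl2 (sc c B.2.2))) + 6 * s)) / s =
    10000 * (((1 + x) / 2 * Dp + (1 - x) / 2 * Dm) / s) + 10000 * (tl2 (sc c A.1) / s +
      tl2 (sc c A.2.1) / s + tl2 (sc c A.2.2) / s +
    tl2 (sc c B.1) / s + tl2 (sc c B.2.1) / s + tl2 (sc c B.2.2) / s) + 6 := by
    field_simp
    ring
  rw [e7] at z2
  have e8 : ((1 + x) / 2 *
      ((aff 1 (sc c A.1) : ℤ) * Real.cos φ - (aff 1 (sc c B.1) : ℤ) * Real.sin φ +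
        ((aff 1 (sc c A.2.1) : ℤ) * Real.cos (2 * φ) -
          (aff 1 (sc c B.2.1) : ℤ) * Real.sin (2 * φ)) +
        ((aff 1 (sc c A.2.2) : ℤ) * Real.cos (3 * φ) -
          (aff 1 (sc c B.2.2) : ℤ) * Real.sin (3 * φ))) +
      (1 - x) / 2 *
      ((aff (-1) (sc c A.1) : ℤ) * Real.cos φ - (aff (-1) (sc c B.1) : ℤ) * Real.sin φ +
        ((aff (-1) (sc c A.2.1) : ℤ) * Real.cos (2 * φ) -
          (aff (-1) (sc c B.2.1) : ℤ) * Real.sin (2 * φ)) +
        ((aff (-1) (sc c A.2.2) : ℤ) * Real.cos (3 * φ) -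
          (aff (-1) (sc c B.2.2) : ℤ) * Real.sin (3 * φ)))) / s =
      (((1 + x) / 2 * (aff 1 (sc c A.1) : ℤ) + (1 - x) / 2 * (aff (-1) (sc c A.1) : ℤ)) / s) *
        Real.cos φ -
      (((1 + x) / 2 * (aff 1 (sc c B.1) : ℤ) + (1 - x) / 2 * (aff (-1) (sc c B.1) : ℤ)) / s) *
        Real.sin φ +
      ((((1 + x) / 2 * (aff 1 (sc c A.2.1) : ℤ) + (1 - x) / 2 * (aff (-1) (sc c A.2.1) : ℤ)) / s) *
        Real.cos (2 * φ) -
      (((1 + x) / 2 * (aff 1 (sc c B.2.1) : ℤ) + (1 - x) / 2 * (aff (-1) (sc c B.2.1) : ℤ)) / s) *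
        Real.sin (2 * φ)) +
      ((((1 + x) / 2 * (aff 1 (sc c A.2.2) : ℤ) + (1 - x) / 2 * (aff (-1) (sc c A.2.2) : ℤ)) / s) *
        Real.cos (3 * φ) -
      (((1 + x) / 2 * (aff 1 (sc c B.2.2) : ℤ) + (1 - x) / 2 * (aff (-1) (sc c B.2.2) : ℤ)) / s) *
        Real.sin (3 * φ)) := by
    ring
  rw [e8] at z
  linarith

/-- The certificates: centre, Gram vectors at the right and at the left end. -/
def certs : List (ℤ × List ℤ × List ℤ) :=
  [(1, [11542, 0, 13822, 455, 12679, -209, 5839, -1172],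
    [10663, 0, 13444, 104, 13104, 84, 7081, -24]),
   (3, [11980, 0, 14415, 116, 12306, -1053, 3831, -1808],
    [11632, 0, 13819, 523, 12679, -175, 5746, -1195]),
   (5, [12347, 0, 15108, -723, 11450, -2070, 1595, -1735],
    [12052, 0, 14413, 164, 12313, -1056, 3742, -1801]),
   (7, [12658, 0, 15710, -1758, 9896, -2875, -144, -1130],
    [12409, 0, 15111, -677, 11433, -2091, 1535, -1704]),
   (9, [12962, 0, 16191, -2514, 7608, -3262, -1008, -369],
    [12721, 0, 15718, -1698, 9841, -2897, -161, -1093]),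
   (11, [13488, 0, 16458, -3172, 4771, -3067, -1038, 189],
    [13006, 0, 16207, -2471, 7537, -3273, -988, -345]),
   (13, [15048, 0, 15619, -3903, 1950, -2167, -588, 359],
    [13525, 0, 16471, -3168, 4704, -3055, -1004, 193]),
   (15, [16162, 0, 14170, -4417, 271, -1229, -174, 270],
    [15085, 0, 15610, -3915, 1915, -2143, -563, 349]),
   (17, [16531, 0, 12557, -4761, -502, -477, 48, 104],
    [16174, 0, 14160, -4430, 267, -1210, -165, 257]),
   (19, [16299, 0, 10893, -4961, -690, 32, 91, -21],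
    [16527, 0, 12547, -4773, -489, -467, 45, 96])]

/-- The lists. -/
def LA : List ℤ × List ℤ × List ℤ := (lA 1, lA 2, lA 3)

/-- The lists. -/
def LB : List ℤ × List ℤ × List ℤ := (lB 1, lB 2, lB 3)

theorem certs_ok : certs.all (fun q => chk LA LB q.1 q.2.1 q.2.2) = true := by
  decide +kernel

/-- The approximation (to be proved). -/
def HannPoly : Prop := ∀ u : ℝ, 0 ≤ u → u ≤ 29 / 25 → ∀ j ∈ Finset.Icc 1 3,
  |amp j * (j * Real.pi * hR j u) - ev (lA j) u / 2 ^ 30| ≤ 1 / 10000 ∧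
    |amp j * hR1 j u - ev (lB j) u / 2 ^ 30| ≤ 1 / 10000

theorem box_pos (h : HannPoly) {u : ℝ} (h0 : 0 ≤ u) (h1 : u ≤ 29 / 25) (φ : ℝ) :
    0 ≤ 1 / 2 - ((amp 1 * (1 * Real.pi * hR 1 u) * Real.cos φ - amp 1 * hR1 1 u * Real.sin φ) +
      (amp 2 * (2 * Real.pi * hR 2 u) * Real.cos (2 * φ) - amp 2 * hR1 2 u * Real.sin (2 * φ)) +
      (amp 3 * (3 * Real.pi * hR 3 u) * Real.cos (3 * φ) -
        amp 3 * hR1 3 u * Real.sin (3 * φ))) := by
  have hok := certs_ok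
  rw [List.all_eq_true] at hok
  have key : ∀ q ∈ certs, |16 * u - q.1| ≤ 1 → 0 ≤ 1 / 2 -
      ((amp 1 * (1 * Real.pi * hR 1 u) * Real.cos φ - amp 1 * hR1 1 u * Real.sin φ) +
      (amp 2 * (2 * Real.pi * hR 2 u) * Real.cos (2 * φ) - amp 2 * hR1 2 u * Real.sin (2 * φ)) +
      (amp 3 * (3 * Real.pi * hR 3 u) * Real.cos (3 * φ) -
        amp 3 * hR1 3 u * Real.sin (3 * φ))) := by
    intro q hq hx
    have e : (q.1 + (16 * u - q.1)) / 16 = u := by ring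
    have k1 := h u h0 h1 1 (by decide)
    have k2 := h u h0 h1 2 (by decide)
    have k3 := h u h0 h1 3 (by decide)
    simp only [Nat.cast_one, Nat.cast_ofNat] at k1 k2 k3
    apply chk_sound (A := LA) (B := LB) (hok q hq) hx φ
    · rw [e]
      exact k1.1
    · rw [e]
      exact k2.1
    · rw [e]
      exact k3.1
    · rw [e]
      exact k1.2
    · rw [e]
      exact k2.2
    · rw [e]
      exact k3.2
  have hm : ∃ q ∈ certs, |16 * u - q.1| ≤ 1 := by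
    unfold certs
    simp only [List.mem_cons, List.not_mem_nil, or_false, exists_eq_or_imp, exists_eq_left]
    push_cast
    by_contra hc
    simp only [not_or, not_le] at hc
    obtain ⟨c1, c2, c3, c4, c5, c6, c7, c8, c9, c10⟩ := hc
    rw [lt_abs] at c1 c2 c3 c4 c5 c6 c7 c8 c9 c10
    rcases c1 with c1 | c1 <;> rcases c2 with c2 | c2 <;> try linarith
    rcases c3 with c3 | c3 <;> try linarith
    rcases c4 with c4 | c4 <;> try linarith
    rcases c5 with c5 | c5 <;> try linarith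
    rcases c6 with c6 | c6 <;> try linarith
    rcases c7 with c7 | c7 <;> try linarith
    rcases c8 with c8 | c8 <;> try linarith
    rcases c9 with c9 | c9 <;> try linarith
    rcases c10 with c10 | c10 <;> try linarith
  obtain ⟨q, hq, hx⟩ := hm
  exact key q hq hx

theorem hannBox_of_poly (h : HannPoly) : HannBox := by
  have key : ∀ u : ℝ, 0 ≤ u → u ^ 2 ≤ 4 / 3 → ∀ φ : ℝ,
      0 ≤ 1 / 2 - ∑ j ∈ Finset.Icc 1 3, amp j *
        (j * Real.pi * hR j u * Real.cos (j * φ) - hR1 j u * Real.sin (j * φ)) := by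
    intro u h0 h1 φ
    have h2 : u ≤ 29 / 25 := by nlinarith
    have h3 := box_pos h h0 h2 φ
    have e : Finset.Icc 1 3 = {1, 2, 3} := rfl
    rw [e, Finset.sum_insert (by decide), Finset.sum_insert (by decide), Finset.sum_singleton]
    simp only [Nat.cast_one, Nat.cast_ofNat, one_mul]
    simp only [one_mul] at h3
    linarith
  intro u φ hu
  rcases le_total 0 u with h0 | h0
  · exact key u h0 hu φ
  · have h1 := key (-u) (by linarith) (by rw [neg_sq]; exact hu) (-φ)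
    have e : ∑ j ∈ Finset.Icc 1 3, amp j *
        (j * Real.pi * hR j (-u) * Real.cos (j * -φ) - hR1 j (-u) * Real.sin (j * -φ)) =
        ∑ j ∈ Finset.Icc 1 3, amp j *
        (j * Real.pi * hR j u * Real.cos (j * φ) - hR1 j u * Real.sin (j * φ)) := by
      apply Finset.sum_congr rfl
      intro j _
      have e1 : (j : ℝ) * -φ = -(j * φ) := by ring
      rw [e1, Real.cos_neg, Real.sin_neg, hR_neg, hR1_neg]
      ring
    rw [e] at h1
    exact h1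

end Pool.Agent.Strip051
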