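import Pool.Agent.Strip051.Kern.AC

/-! # The potential of a front

`L z p` is a function of the height and of the slope of the front. -/

namespace Pool.Agent.Strip051

open Pool.Agent.StripNear Pool.Agent.StripSquare Set MeasureTheory

/-- The slope of the unit arc with the centre height `c` at the height `z`. -/
noncomputable def sl (c z : ℝ) : ℝ := -(z - c) / g (z - c)

/-- The general assumptions on the function `L`. -/
structure Lag (H : ℝ) (L : ℝ → ℝ → ℝ) : Prop where
  cont : Continuous (fun p : ℝ × ℝ => L p.1 p.2)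
  grow : ∃ C, ∀ z p, 0 ≤ z → z ≤ H → |L z p| ≤ C * (1 + |p|)

theorem Lag.integrable {H : ℝ} {L : ℝ → ℝ → ℝ} (hL : Lag H L) {f : ℝ → ℝ} {a b : ℝ}
    (ha : 0 ≤ a) (hab : a ≤ b) (hb : b ≤ H) (hf : AbsolutelyContinuousOnInterval f a b) :
    IntervalIntegrable (fun z => L z (deriv f z)) volume a b := by
  obtain ⟨C, hC⟩ := hL.grow
  have h1 : IntervalIntegrable (fun z => C * (1 + |deriv f z|)) volume a b :=
    (intervalIntegrable_const.add hf.intervalIntegrable_deriv.abs).const_mul C
  refine h1.mono_fun' ?_ ?_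
  · have h2 : Measurable (fun z => L z (deriv f z)) :=
      hL.cont.measurable.comp (measurable_id.prodMk (measurable_deriv f))
    exact h2.aestronglyMeasurable
  · rw [Filter.EventuallyLE, ae_restrict_iff' measurableSet_uIoc]
    apply Filter.Eventually.of_forall
    intro z hz
    rw [uIoc_of_le hab] at hz
    rw [Real.norm_eq_abs]
    exact hC z _ (by linarith [hz.1]) (hz.2.trans hb)

/-- Integration by parts for a monotone weight and a nonpositive function. -/
theorem parts {ψ h : ℝ → ℝ} {a b : ℝ} (hab : a ≤ b)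
    (hψ : AbsolutelyContinuousOnInterval ψ a b) (hm : MonotoneOn ψ (Icc a b))
    (hh : AbsolutelyContinuousOnInterval h a b) (h0 : ∀ z ∈ Icc a b, h z ≤ 0) :
    ψ b * h b - ψ a * h a ≤ ∫ z in a..b, ψ z * deriv h z := by
  rw [AbsolutelyContinuousOnInterval.integral_mul_deriv_eq_deriv_mul hψ hh]
  have h1 : ∫ z in a..b, deriv ψ z * h z ≤ 0 := by
    rcases hab.eq_or_lt with rfl | hlt
    · simp
    · have h2 : ∀ z ∈ Ioo a b, 0 ≤ -(deriv ψ z * h z) := by
        intro z hz
        have h3 : derivWithin ψ (Icc a b) z = deriv ψ z :=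
          derivWithin_of_mem_nhds (Icc_mem_nhds hz.1 hz.2)
        have h4 : 0 ≤ deriv ψ z := by
          rw [← h3]
          exact hm.derivWithin_nonneg
        have h5 := h0 z ⟨hz.1.le, hz.2.le⟩
        nlinarith
      have h3 : 0 ≤ ∫ z in a..b, -(deriv ψ z * h z) := by
        rw [intervalIntegral.integral_of_le hab, integral_Ioc_eq_integral_Ioo]
        exact setIntegral_nonneg measurableSet_Ioo h2
      rw [intervalIntegral.integral_neg] at h3
      linarith
  linarith

/-- A front `f` below `γ` has the larger action. -/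
theorem Lag.compare {H : ℝ} {L : ℝ → ℝ → ℝ} (hL : Lag H L) {f γ ψ : ℝ → ℝ} {a b : ℝ}
    (ha : 0 ≤ a) (hab : a ≤ b) (hb : b ≤ H) (hf : AbsolutelyContinuousOnInterval f a b)
    (hγ : AbsolutelyContinuousOnInterval γ a b)
    (hψ : AbsolutelyContinuousOnInterval ψ a b) (hm : MonotoneOn ψ (Icc a b))
    (hle : ∀ z ∈ Icc a b, f z ≤ γ z)
    (ht : ∀ z ∈ Ioo a b, ∀ p, L z (deriv γ z) + ψ z * (p - deriv γ z) ≤ L z p) :
    ψ b * (f b - γ b) - ψ a * (f a - γ a) ≤
      (∫ z in a..b, L z (deriv f z)) - ∫ z in a..b, L z (deriv γ z) := by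
  have i1 := hL.integrable ha hab hb hf
  have i2 := hL.integrable ha hab hb hγ
  have hh := hf.fun_sub hγ
  have h1 := parts hab hψ hm hh (fun z hz => by linarith [hle z hz])
  refine h1.trans ?_
  rw [← intervalIntegral.integral_sub i1 i2]
  rcases hab.eq_or_lt with rfl | hlt
  · simp
  rw [intervalIntegral.integral_of_le hab, intervalIntegral.integral_of_le hab,
    integral_Ioc_eq_integral_Ioo, integral_Ioc_eq_integral_Ioo]
  have i3 : IntervalIntegrable (fun z => ψ z * deriv (fun x => f x - γ x) z) volume a b :=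
    hh.intervalIntegrable_deriv.continuousOn_mul hψ.continuousOn
  apply setIntegral_mono_ae_restrict
  · exact ((intervalIntegrable_iff_integrableOn_Ioo_of_le hab).1 i3)
  · exact ((intervalIntegrable_iff_integrableOn_Ioo_of_le hab).1 (i1.sub i2))
  · rw [Filter.EventuallyLE, ae_restrict_iff' measurableSet_Ioo]
    filter_upwards [hf.ae_differentiableAt, hγ.ae_differentiableAt] with z h2 h3 hz
    have hz' : z ∈ uIcc a b := by
      rw [uIcc_of_le hab]
      exact ⟨hz.1.le, hz.2.le⟩
    have h4 : deriv (fun x => f x - γ x) z = deriv f z - deriv γ z :=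
      deriv_fun_sub (h2 hz') (h3 hz')
    rw [h4]
    linarith [ht z hz (deriv f z)]

/-- Raising the line. -/
theorem Lag.raise {H : ℝ} {L : ℝ → ℝ → ℝ} (hL : Lag H L) {f ν : ℝ → ℝ} {W : ℝ} (hH : 0 ≤ H)
    (hf : AbsolutelyContinuousOnInterval f 0 H) (hν : AbsolutelyContinuousOnInterval ν 0 H)
    (hm : MonotoneOn ν (Icc 0 H)) (hW : ν H ≤ W) (hW' : -W ≤ ν 0)
    (ht : ∀ z ∈ Ioo 0 H, ∀ p, L z 0 + ν z * p ≤ L z p) (m : ℝ) :
    W * f H + W * f 0 - (∫ z in (0 : ℝ)..H, L z (deriv f z)) ≤
      W * max (f H) m + W * max (f 0) m -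
        ∫ z in (0 : ℝ)..H, L z (deriv (fun x => max (f x) m) z) := by
  set k : ℝ → ℝ := fun x => max (f x) m with hk
  set h : ℝ → ℝ := fun x => min (f x - m) 0 with hh
  have hka : AbsolutelyContinuousOnInterval k 0 H := ac_max hf (ac_const m 0 H)
  have hha : AbsolutelyContinuousOnInterval h 0 H :=
    ac_min (hf.fun_sub (ac_const m 0 H)) (ac_const 0 0 H)
  have hsum : ∀ x, f x = k x + h x := by
    intro x
    simp only [hk, hh]
    rcases le_total (f x) m with h1 | h1
    · rw [max_eq_right h1, min_eq_left (by linarith)]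
      ring
    · rw [max_eq_left h1, min_eq_right (by linarith)]
      ring
  have hh0 : ∀ x, h x ≤ 0 := fun x => min_le_right _ _
  have hk0 : ∀ x, m ≤ k x := fun x => le_max_right _ _
  have i1 := hL.integrable le_rfl hH le_rfl hf
  have i2 := hL.integrable le_rfl hH le_rfl hka
  have h1 := parts hH hν hm hha (fun z _ => hh0 z)
  have h2 : ∫ z in (0 : ℝ)..H, ν z * deriv h z ≤
      (∫ z in (0 : ℝ)..H, L z (deriv f z)) - ∫ z in (0 : ℝ)..H, L z (deriv k z) := by
    rw [← intervalIntegral.integral_sub i1 i2]
    rw [intervalIntegral.integral_of_le hH, intervalIntegral.integral_of_le hH,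
      integral_Ioc_eq_integral_Ioo, integral_Ioc_eq_integral_Ioo]
    have i3 : IntervalIntegrable (fun z => ν z * deriv h z) volume 0 H :=
      hha.intervalIntegrable_deriv.continuousOn_mul hν.continuousOn
    apply setIntegral_mono_ae_restrict
    · exact ((intervalIntegrable_iff_integrableOn_Ioo_of_le hH).1 i3)
    · exact ((intervalIntegrable_iff_integrableOn_Ioo_of_le hH).1 (i1.sub i2))
    · rw [Filter.EventuallyLE, ae_restrict_iff' measurableSet_Ioo]
      filter_upwards [hka.ae_differentiableAt, hha.ae_differentiableAt] with z h3 h4 hz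
      have hz' : z ∈ uIcc 0 H := by
        rw [uIcc_of_le hH]
        exact ⟨hz.1.le, hz.2.le⟩
      have h5 : deriv f z = deriv k z + deriv h z := by
        have : f = fun x => k x + h x := funext hsum
        rw [this]
        exact deriv_fun_add (h3 hz') (h4 hz')
      rcases lt_or_ge (f z) m with h6 | h6
      · have h7 : deriv k z = 0 := by
          apply IsLocalMin.deriv_eq_zero
          apply Filter.Eventually.of_forall
          intro x
          have : k z = m := max_eq_right h6.le
          rw [this]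
          exact hk0 x
        rw [h5, h7, zero_add]
        linarith [ht z hz (deriv h z)]
      · have h7 : deriv h z = 0 := by
          apply IsLocalMax.deriv_eq_zero
          apply Filter.Eventually.of_forall
          intro x
          have : h z = 0 := min_eq_right (by linarith)
          rw [this]
          exact hh0 x
        rw [h5, h7, add_zero, mul_zero, sub_self]
  have e1 := hsum H
  have e2 := hsum 0
  have e3 := hh0 H
  have e4 := hh0 0
  have e5 : (ν H - W) * h H ≥ 0 := by nlinarith
  have e6 : (ν 0 + W) * h 0 ≤ 0 := by nlinarith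
  have e7 : max (f H) m = k H := rfl
  have e8 : max (f 0) m = k 0 := rfl
  rw [e7, e8, e1, e2]
  linarith

end Pool.Agent.Strip051
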