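import Pool.Agent.Strip051.Kern.Pot

/-! # The old front above the new point, with the place of the exit

This is `ProbeUp` of the probe machine with a slightly more precise statement. -/

namespace Pool.Agent.Strip051

open Pool.Agent.StripNear Pool.Agent.StripSquare

/-- The case where the wall is closer than `h0`. -/
theorem up_wall2 {S : Set Pt} {P : Pt} {f : ℝ → ℝ} {H : ℝ} (hF : Fr S P.1 f)
    (hs : ∀ q ∈ S, q.2 ≤ H) (hsep : ∀ q ∈ S, Sep P q) (h0d : 0 ≤ H - P.2) (hd : H - P.2 < h0)
    {z : ℝ} (h1 : P.2 ≤ z) (h2 : z ≤ H) :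
    f z ≤ P.1 + vir (H - P.2) (z - P.2) ∧ P.1 + vir (H - P.2) (z - P.2) ≤ arc P z := by
  have hh := h0_sq
  have hp := h0_pos
  set d := H - P.2 with hdd
  have hd1 : d < 1 := by nlinarith
  set u : Pt := (P.1 - g d, P.2 + d) with hu
  have hu2 : u.2 = P.2 + d := rfl
  have huP : arc u P.2 = P.1 := by
    unfold arc
    rw [hu2, show P.2 - (P.2 + d) = -d by ring, g_neg]
    simp only [hu]
    ring
  rw [vir_arc]
  refine ⟨?_, ?_⟩
  · rcases hF.eq z with h | ⟨q, hq, h⟩
    · rw [h]
      exact le_max_left _ _
    · rw [h]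
      have hqx := hF.le q hq
      rcases le_or_gt (q.2 + 1) z with h3 | h3
      · rw [arc_far (by rw [abs_of_nonneg] <;> linarith)]
        exact hqx.trans (le_max_left _ _)
      · have h4 := arc_mono (p := q) (q := u) (by rw [hu2]; linarith [hs q hq]) h1
          (by rw [hu2]; linarith) h3.le
        have h5 := arc_le_of_sep hqx (hsep q hq)
        refine le_trans ?_ (le_max_right _ _)
        linarith
  · apply max_le (le_arc P z)
    -- both arcs are more than one half
    have k1 : ∀ v, 0 ≤ v → v ≤ d → 1 / 2 ≤ g v := by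
      intro v hv0 hv1
      unfold g
      apply Real.le_sqrt_of_sq_le
      nlinarith
    have k2 := k1 d h0d le_rfl
    have k3 := k1 (z - P.2) (by linarith) (by linarith)
    have k4 := g_le_one (z - u.2)
    unfold arc
    simp only [hu] at k4 ⊢
    linarith

/-- The comparison at an exit or at the wall. -/
theorem up_exit2 {S : Set Pt} {P : Pt} {f : ℝ → ℝ} {H t : ℝ} (hF : Fr S P.1 f)
    (hsep : ∀ q ∈ S, Sep P q) (ht0 : 1 / 2 ≤ t) (ht1 : t ≤ 1)
    (hin : ∀ v, 0 ≤ v → v ≤ t → f (P.2 + v) ≤ P.1 + g v)
    (hout : P.2 + t = H ∨ t = 1 ∨ ∃ q ∈ S, arc q (P.2 + t) = P.1 + g t ∧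
      t / 2 + h0 * g t ≤ q.2 - P.2 ∧ |P.2 + t - q.2| ≤ 1) {z : ℝ} (h1 : P.2 ≤ z) (h2 : z ≤ H) :
    (z ≤ P.2 + t → f z ≤ P.1 + vir (t / 2 + h0 * g t) (z - P.2) ∧
      P.1 + vir (t / 2 + h0 * g t) (z - P.2) ≤ arc P z) ∧
    (P.2 + t < z → P.1 + vir (t / 2 + h0 * g t) (z - P.2) ≤ f z ∧
      arc P z ≤ P.1 + vir (t / 2 + h0 * g t) (z - P.2)) := by
  have hh := h0_sq
  have hp := h0_pos
  obtain ⟨a1, a2, a3, a4, a5, a6⟩ := ext_spec ht0 ht1
  have a7 := ext_meet ht0 ht1
  set r := t / 2 + h0 * g t with hr
  set u : Pt := (P.1 - g r, P.2 + r) with hu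
  have hu1 : u.1 = P.1 - g r := rfl
  have hu2 : u.2 = P.2 + r := rfl
  have huP : arc u P.2 = P.1 := by
    unfold arc
    rw [hu2, hu1, show P.2 - (P.2 + r) = -r by ring, g_neg]
    ring
  have huB : arc u (P.2 + t) = P.1 + g t := by
    unfold arc
    rw [hu2, hu1, show P.2 + t - (P.2 + r) = t - r by ring]
    linarith
  have hPB : arc P (P.2 + t) = P.1 + g t := by
    unfold arc
    rw [show P.2 + t - P.2 = t by ring]
  constructor
  · intro hz
    rw [vir_arc]
    refine ⟨?_, ?_⟩
    · rcases hF.eq z with h | ⟨q, hq, h⟩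
      · rw [h]
        exact le_max_left _ _
      · rw [h]
        have hqx := hF.le q hq
        rcases le_or_gt 1 |z - q.2| with h3 | h3
        · rw [arc_far h3]
          exact hqx.trans (le_max_left _ _)
        · rw [abs_lt] at h3
          refine le_trans ?_ (le_max_right _ _)
          rcases le_total q.2 u.2 with h4 | h4
          · have h5 := arc_mono h4 h1 (by rw [hu2]; linarith) (by linarith [h3.2])
            have h6 := arc_le_of_sep hqx (hsep q hq)
            linarith
          · have h5 := arc_mono h4 hz (by linarith [h3.1]) (by rw [hu2]; linarith)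
            have h6 := hF.disc q hq (P.2 + t)
            have h7 := hin t (by linarith) le_rfl
            linarith
    · apply max_le (le_arc P z)
      have h5 := arc_mono (p := P) (q := u) (by rw [hu2]; linarith) hz
        (by rw [hu2]; linarith) (by linarith)
      linarith
  · intro hz
    rw [vir_arc]
    refine ⟨?_, ?_⟩
    · apply max_le (hF.line z)
      rcases hout with h | h | ⟨q, hq, e1, e2, e3⟩
      · linarith
      · -- the exit is on the line
        have hg1 : g t = 0 := by rw [h, g_one]
        have hr2 : r = 1 / 2 := by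
          rw [hr, hg1, h]
          ring
        have h5 : arc u z ≤ P.1 := by
          unfold arc
          rw [hu1, hu2]
          have : g (z - (P.2 + r)) ≤ g r := by
            apply g_anti (by linarith)
            linarith
          linarith
        exact h5.trans (hF.line z)
      · rw [abs_le] at e3
        rcases le_or_gt z (u.2 + 1) with h3 | h3
        · have h5 := arc_mono (p := u) (q := q) (by rw [hu2]; linarith) hz.le
            (by linarith [e3.1]) h3
          have h6 := hF.disc q hq z
          linarith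
        · rw [arc_far (by rw [abs_of_nonneg] <;> linarith)]
          have := hF.line z
          have := g_nonneg r
          linarith
    · rcases le_or_gt (P.2 + 1) z with h3 | h3
      · rw [arc_far (by rw [abs_of_nonneg] <;> linarith)]
        exact le_max_left _ _
      · refine le_trans ?_ (le_max_right _ _)
        have h5 := arc_mono (p := P) (q := u) (by rw [hu2]; linarith) hz.le
          (by rw [hu2]; linarith) h3.le
        linarith

/-- The comparison above the new point. -/
theorem up_compare2 {S : Set Pt} {P : Pt} {f : ℝ → ℝ} {H : ℝ} (hF : Fr S P.1 f)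
    (hs : ∀ q ∈ S, q.2 ≤ H) (hsep : ∀ q ∈ S, Sep P q) (hP : P.2 ≤ H) :
    ∃ r z1, ((r = H - P.2 ∧ r < h0 ∧ z1 = H) ∨
        (1 / 2 ≤ r ∧ r ≤ 1 ∧ P.2 + r ≤ H ∧ z1 = P.2 + ext r ∧ z1 ≤ H)) ∧
      (∀ z, P.2 ≤ z → z ≤ z1 → f z ≤ P.1 + vir r (z - P.2) ∧
        P.1 + vir r (z - P.2) ≤ arc P z) ∧
      (∀ z, z1 < z → z ≤ H → P.1 + vir r (z - P.2) ≤ f z ∧
        arc P z ≤ P.1 + vir r (z - P.2)) := by
  have hh := h0_sq
  have hp := h0_pos
  have hh1 : h0 < 1 := by nlinarith
  rcases lt_or_ge (H - P.2) h0 with hd | hd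
  · exact ⟨H - P.2, H, Or.inl ⟨rfl, hd, rfl⟩,
      fun z h1 h2 => up_wall2 hF hs hsep (by linarith) hd h1 h2,
      fun z h1 h2 => absurd h1 (not_lt.2 h2)⟩
  · set e := min (H - P.2) 1 with he
    have he0 : h0 ≤ e := le_min hd hh1.le
    set D : ℝ → ℝ := fun v => f (P.2 + v) - P.1 - g v with hD
    have hDc : Continuous D := by
      have h1 := hF.cont
      have h2 := g_cont
      exact ((h1.comp (continuous_const.add continuous_id)).sub continuous_const).sub h2
    have hD0 : D 0 = -1 := by
      simp only [hD, add_zero, g_zero, hF.at_new hsep]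
      ring
    -- the first exit or the wall
    have key : ∃ t, 0 < t ∧ t ≤ e ∧ (∀ v, 0 ≤ v → v ≤ t → D v ≤ 0) ∧
        (D t = 0 ∨ P.2 + t = H) := by
      by_cases hne : ∃ v, 0 ≤ v ∧ v ≤ e ∧ 0 ≤ D v
      · have hcomp : IsCompact (Set.Icc 0 e ∩ {v | 0 ≤ D v}) :=
          isCompact_Icc.inter_right (isClosed_le continuous_const hDc)
        obtain ⟨v0, hv0⟩ := hcomp.exists_isLeast (by
          obtain ⟨v, h1, h2, h3⟩ := hne
          exact ⟨v, ⟨h1, h2⟩, h3⟩)
        obtain ⟨⟨⟨h1, h2⟩, h3⟩, h4⟩ := hv0
        have h3' : 0 ≤ D v0 := h3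
        have hpos : 0 < v0 := by
          rcases h1.eq_or_lt with h | h
          · rw [← h, hD0] at h3'
            linarith
          · exact h
        have hlt : ∀ v, 0 ≤ v → v < v0 → D v ≤ 0 := by
          intro v hv hv'
          by_contra hcon
          exact absurd (h4 ⟨⟨hv, by linarith⟩, (not_le.1 hcon).le⟩) (not_le.2 hv')
        have hle : D v0 ≤ 0 := le_right (f := D) (k := fun _ => 0) hDc continuous_const hpos
          fun t ht1 ht2 => hlt t ht1.le ht2
        refine ⟨v0, hpos, h2, ?_, Or.inl (le_antisymm hle h3')⟩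
        intro v hv hv'
        rcases hv'.eq_or_lt with h | h
        · rw [h]
          exact hle
        · exact hlt v hv h
      · push Not at hne
        have hd1 : H - P.2 < 1 := by
          by_contra hcon
          have h1 : e = 1 := min_eq_right (not_lt.1 hcon)
          have h2 := hne 1 zero_le_one h1.ge
          simp only [hD, g_one] at h2
          have := hF.line (P.2 + 1)
          linarith
        have h1 : e = H - P.2 := min_eq_left hd1.le
        refine ⟨e, by linarith, le_rfl, fun v hv hv' => (hne v hv hv').le, Or.inr ?_⟩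
        rw [h1]
        ring
    obtain ⟨t, ht0, hte, hin, hout⟩ := key
    have ht1 : t ≤ 1 := hte.trans (min_le_right _ _)
    have htd : t ≤ H - P.2 := hte.trans (min_le_left _ _)
    have hin' : ∀ v, 0 ≤ v → v ≤ t → f (P.2 + v) ≤ P.1 + g v := by
      intro v h1 h2
      have := hin v h1 h2
      simp only [hD] at this
      linarith
    -- three kinds of exits
    have key2 : 1 / 2 ≤ t ∧ t / 2 + h0 * g t ≤ H - P.2 ∧ (P.2 + t = H ∨ t = 1 ∨
        ∃ q ∈ S, arc q (P.2 + t) = P.1 + g t ∧ t / 2 + h0 * g t ≤ q.2 - P.2 ∧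
          |P.2 + t - q.2| ≤ 1) := by
      rcases hout with hout | hout
      · have hft : f (P.2 + t) = P.1 + g t := by
          simp only [hD] at hout
          linarith
        rcases ht1.eq_or_lt with h | h
        · refine ⟨by linarith, ?_, Or.inr (Or.inl h)⟩
          rw [h, g_one]
          nlinarith
        · have hg : 0 < g t := by
            unfold g
            exact Real.sqrt_pos.2 (by nlinarith)
          rcases hF.eq (P.2 + t) with h3 | ⟨q, hq, h3⟩
          · linarith
          · have h4 : arc q (P.2 + t) = P.1 + g t := by linarith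
            obtain ⟨k1, k2⟩ := exit_disc ht0 h (hF.le q hq) (hsep q hq) h4
            refine ⟨k1, by linarith [hs q hq], Or.inr (Or.inr ⟨q, hq, h4, k2, ?_⟩)⟩
            by_contra hcon
            rw [arc_far (not_le.1 hcon).le] at h4
            linarith [hF.le q hq]
      · have htd' : t = H - P.2 := by linarith
        have hth : h0 ≤ t := by linarith
        have hg : g t ≤ 1 / 2 := by
          unfold g
          rw [Real.sqrt_le_iff]
          constructor
          · norm_num
          · nlinarith
        have hg0 := g_nonneg t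
        refine ⟨by nlinarith, ?_, Or.inl hout⟩
        rw [← htd']
        nlinarith
    obtain ⟨k1, k2, k3⟩ := key2
    obtain ⟨a1, a2, a3, a4, a5, a6⟩ := ext_spec k1 ht1
    refine ⟨t / 2 + h0 * g t, P.2 + t, Or.inr ⟨a5, a6, by linarith, by rw [a4], by linarith⟩,
      ?_, ?_⟩
    · intro z h1 h2
      exact (up_exit2 hF hsep k1 ht1 hin' k3 h1 (by linarith)).1 h2
    · intro z h1 h2
      exact (up_exit2 hF hsep k1 ht1 hin' k3 (by linarith) h2).2 h1

end Pool.Agent.Strip051
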